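import Pool.Agent.Run7.h9.JF.Bm

/-! The polynomials of the one-parameter family of lower bounds: choice of the parameters. -/
set_option autoImplicit false
open MeasureTheory Filter Topology Polynomial

namespace Pool.Agent.Run7.h9.JF

open Pool.Agent.Y265.HY.JC (gI cnt)
open Pool.Agent.Run7.h9.TC

noncomputable section

variable {s η δ κ ρ : ℝ}

lemma Xk_0 (hs : 0 < s) (hs1 : s < 1) (hk0 : (1 - s) ^ 2 ≤ κ) (hk : κ < 1 - s ^ 2) :
    0 ≤ Xk s κ := by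
  have h1 : 0 < (1 - s) ^ 2 := by
    have : 0 < 1 - s := by linarith
    positivity
  have h2 : 0 < κ := by linarith
  have e : Xk s κ = ((1 + s) ^ 2 - κ) * (κ - (1 - s) ^ 2) / κ := by
    unfold Xk; field_simp; ring
  rw [e]
  refine div_nonneg (mul_nonneg ?_ ?_) h2.le
  · nlinarith
  · linarith

lemma Xk_4 (hk0 : 0 < κ) : Xk s κ ≤ 4 * s ^ 2 := by
  have h1 : 0 ≤ (κ - (1 - s ^ 2)) ^ 2 / κ := by positivity
  have e : (κ - (1 - s ^ 2)) ^ 2 / κ = κ - 2 * (1 - s ^ 2) + (1 - s ^ 2) ^ 2 / κ := by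
    field_simp
    ring
  unfold Xk
  linarith

lemma WI_1 (hs : 0 < s) (hs1 : s < 1) (hη : 0 < η) (h4 : 4 * η < La s) (hρ : 0 < ρ)
    (hk0 : (1 - s) ^ 2 ≤ κ) (hk : κ + ρ ≤ 1 - s ^ 2) (hδ : 0 ≤ δ)
    (hδ1 : δ ≤ 1 / 1024) {G : ℝ[X]} (h : Adm1 s (f1 s η κ ρ) δ G) : WI (Fr s G) s ≤
      1 / (2 * Real.pi) * (∫ θ in (0 : ℝ)..(2 * Real.pi),
        f0 s η (1 + s ^ 2 + 2 * s * Real.cos θ)) +
      (1 - Real.arccos ((κ + ρ - 1 - s ^ 2) / (2 * s)) / Real.pi) + 3072 * δ := by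
  have hpi := Real.pi_pos
  have hm : (0 : ℝ) < (1 - s) ^ 2 := by
    have : 0 < 1 - s := by linarith
    positivity
  have fc : Continuous fun θ : ℝ => f1 s η κ ρ (1 + s ^ 2 + 2 * s * Real.cos θ) := by
    rw [continuous_iff_continuousAt]
    intro θ
    have h1 := (zr s θ).resolve_right (by linarith)
    exact ContinuousAt.comp (f := fun θ : ℝ => 1 + s ^ 2 + 2 * s * Real.cos θ)
      (f1_co hs hs1 (lt_of_lt_of_le hm h1.1)) (by fun_prop)
  have b := WI_bd1 hs hs1 (f1_0 hη h4) (f1_1 hη h4) fc hδ hδ1 h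
  have c0 := f0_zc (η := η) hs hs1
  have c1 : Continuous fun θ : ℝ => cut κ ρ (1 + s ^ 2 + 2 * s * Real.cos θ) :=
    (cut_c κ ρ).comp (by fun_prop)
  have i1 := fc.intervalIntegrable (μ := volume) 0 (2 * Real.pi)
  have i2 := c0.intervalIntegrable (μ := volume) 0 (2 * Real.pi)
  have i3 := c1.intervalIntegrable (μ := volume) 0 (2 * Real.pi)
  have h1 := intervalIntegral.integral_mono_on (by positivity : (0 : ℝ) ≤ 2 * Real.pi) i1
    (i2.add i3) fun θ _ => by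
      have u1 := uu_1 (s := s) (η := η) (1 + s ^ 2 + 2 * s * Real.cos θ)
      have u2 := cut_0 κ ρ (1 + s ^ 2 + 2 * s * Real.cos θ)
      have u3 := mul_le_mul_of_nonneg_right u1 u2
      show f1 s η κ ρ (1 + s ^ 2 + 2 * s * Real.cos θ) ≤
        f0 s η (1 + s ^ 2 + 2 * s * Real.cos θ) + cut κ ρ (1 + s ^ 2 + 2 * s * Real.cos θ)
      unfold f1
      linarith
  rw [intervalIntegral.integral_add i2 i3] at h1
  have h2 := arc2 c1 (fun θ => by simp only [Real.cos_two_pi_sub]) (fun θ => cut_1 _ _ _)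
    (y1 := -1) (y2 := (κ + ρ - 1 - s ^ 2) / (2 * s)) le_rfl (by norm_num) (by
      rw [le_div_iff₀ (by positivity)]; nlinarith) (fun θ hθ => by
      rcases hθ with h | h
      · exact absurd (Real.neg_one_le_cos θ) (by linarith)
      · rw [div_lt_iff₀ (by positivity)] at h
        rw [cut_hi hρ (by linarith)])
  rw [Real.arccos_neg_one] at h2
  have h3 : 1 / (2 * Real.pi) * (∫ θ in (0 : ℝ)..(2 * Real.pi),
      f1 s η κ ρ (1 + s ^ 2 + 2 * s * Real.cos θ)) ≤ 1 / (2 * Real.pi) *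
      ((∫ θ in (0 : ℝ)..(2 * Real.pi), f0 s η (1 + s ^ 2 + 2 * s * Real.cos θ)) +
        2 * (Real.pi - Real.arccos ((κ + ρ - 1 - s ^ 2) / (2 * s)))) :=
    mul_le_mul_of_nonneg_left (by linarith) (by positivity)
  have e : 1 / (2 * Real.pi) *
      ((∫ θ in (0 : ℝ)..(2 * Real.pi), f0 s η (1 + s ^ 2 + 2 * s * Real.cos θ)) +
        2 * (Real.pi - Real.arccos ((κ + ρ - 1 - s ^ 2) / (2 * s)))) =
      1 / (2 * Real.pi) * (∫ θ in (0 : ℝ)..(2 * Real.pi),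
        f0 s η (1 + s ^ 2 + 2 * s * Real.cos θ)) +
      (1 - Real.arccos ((κ + ρ - 1 - s ^ 2) / (2 * s)) / Real.pi) := by
    field_simp
  rw [e] at h3
  linarith

theorem main4 (hs : 0 < s) (hs1 : s < 1) (hk0 : (1 - s) ^ 2 ≤ κ) (hk : κ < 1 - s ^ 2) {e : ℝ}
    (he : 0 < e) (he1 : e ≤ 1) : ∃ G H T : ℝ[X],
    WI (Fr s G) s ≤ (1 - Real.arccos ((κ - 1 - s ^ 2) / (2 * s)) / Real.pi) + e ∧
    gI (PP * H) ≤ 2 / Real.pi * (Real.arccos (1 - 2 * s ^ 2) -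
      Real.arccos (1 - Xk s κ / 2)) + e ∧
    gI ((QQ s * T).comp (C (s * s) * X)) ≤ 2 / Real.pi * (Real.pi -
      Real.arccos (1 - Xk s κ / (2 * s ^ 2))) + e ∧
    ∀ p : ℝ[X], EM s (Fr s G ^ 2) = 1 - PP * p →
      gI ((p - H * (QQ s * T)).comp (C (s * s) * X)) ≤ e ^ 2 := by
  have hpi := Real.pi_pos
  have s21 : s ^ 2 < 1 := by nlinarith
  have hc : 0 < 1 - s ^ 2 := by linarith
  have h5 : 0 < 4 - 4 * s ^ 2 := by linarith
  have hm : (0 : ℝ) < (1 - s) ^ 2 := by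
    have : 0 < 1 - s := by linarith
    positivity
  have κ0 : 0 < κ := by linarith
  have X0 := Xk_0 hs hs1 hk0 hk
  have X4 := Xk_4 (s := s) κ0
  have L0 : 0 < La s := by
    unfold La
    refine Real.log_pos ?_
    rw [one_lt_div (by linarith)]; linarith
  -- the width
  have t1 : ∀ᶠ η : ℝ in 𝓝[>] 0, 1 / (2 * Real.pi) * (∫ θ in (0 : ℝ)..(2 * Real.pi),
      f0 s η (1 + s ^ 2 + 2 * s * Real.cos θ)) < e / 4 := by
    have := (f0_int hs hs1).const_mul (1 / (2 * Real.pi))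
    rw [mul_zero] at this
    exact this.eventually (gt_mem_nhds (by positivity))
  have t2 : ∀ᶠ η : ℝ in 𝓝[>] 0, η < La s / 4 :=
    (gt_mem_nhds (by positivity)).filter_mono nhdsWithin_le_nhds
  have t3 : ∀ᶠ η : ℝ in 𝓝[>] 0, 0 < η := eventually_mem_nhdsWithin
  obtain ⟨η, ⟨u1, u2⟩, hη⟩ := ((t1.and t2).and t3).exists
  have h4 : 4 * η < La s := by linarith
  -- the point x1
  obtain ⟨x1, x10, hx1⟩ : ∃ x1 : ℝ, 0 < x1 ∧ ∀ Y : ℝ, 0 ≤ Y → Y < x1 → vz s η Y = 0 := by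
    obtain ⟨r, r0, hr⟩ := Metric.eventually_nhds_iff.1 (vz_near0 hs hs1 hη h4)
    refine ⟨r, r0, fun Y h1 h2 => hr ?_⟩
    rw [dist_zero_right, Real.norm_eq_abs, abs_of_nonneg h1]; exact h2
  -- the width of the cutoffs
  obtain ⟨ρ, ρ0, ρ4, ρk, ρa, ρb⟩ : ∃ ρ : ℝ, 0 < ρ ∧ 4 * s ^ 2 + ρ ≤ 4 ∧ κ + ρ ≤ 1 - s ^ 2 ∧
      (1 - Real.arccos ((κ + ρ - 1 - s ^ 2) / (2 * s)) / Real.pi) <
        (1 - Real.arccos ((κ - 1 - s ^ 2) / (2 * s)) / Real.pi) + e / 4 ∧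
      2 / Real.pi * (Real.arccos (1 - 2 * s ^ 2 - ρ / 2) -
        Real.arccos (1 - Xk s κ / 2 + ρ / 2)) < 2 / Real.pi * (Real.arccos (1 - 2 * s ^ 2) -
      Real.arccos (1 - Xk s κ / 2)) + e / 2 := by
    have ac := Real.continuous_arccos
    have c : Continuous fun ρ : ℝ => 2 / Real.pi * (Real.arccos (1 - 2 * s ^ 2 - ρ / 2) -
        Real.arccos (1 - Xk s κ / 2 + ρ / 2)) :=
      ((ac.comp (by fun_prop)).sub (ac.comp (by fun_prop))).const_mul _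
    have c' : Continuous fun ρ : ℝ =>
        (1 - Real.arccos ((κ + ρ - 1 - s ^ 2) / (2 * s)) / Real.pi) :=
      continuous_const.sub ((ac.comp (by fun_prop)).div_const _)
    have c0 : 2 / Real.pi * (Real.arccos (1 - 2 * s ^ 2 - 0 / 2) -
        Real.arccos (1 - Xk s κ / 2 + 0 / 2)) < 2 / Real.pi * (Real.arccos (1 - 2 * s ^ 2) -
      Real.arccos (1 - Xk s κ / 2)) + e / 2 := by
      rw [zero_div, sub_zero, add_zero]; linarith
    have c0' : (1 - Real.arccos ((κ + 0 - 1 - s ^ 2) / (2 * s)) / Real.pi) <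
        (1 - Real.arccos ((κ - 1 - s ^ 2) / (2 * s)) / Real.pi) + e / 4 := by
      rw [add_zero]; linarith
    have q0 := ((c.tendsto 0).eventually (gt_mem_nhds c0)).filter_mono
      (nhdsWithin_le_nhds (s := Set.Ioi 0))
    have q1 := ((c'.tendsto 0).eventually (gt_mem_nhds c0')).filter_mono
      (nhdsWithin_le_nhds (s := Set.Ioi 0))
    have q2 : ∀ᶠ ρ : ℝ in 𝓝[>] 0, ρ < 4 - 4 * s ^ 2 :=
      (gt_mem_nhds h5).filter_mono nhdsWithin_le_nhds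
    have q2' : ∀ᶠ ρ : ℝ in 𝓝[>] 0, ρ < 1 - s ^ 2 - κ :=
      (gt_mem_nhds (by linarith)).filter_mono nhdsWithin_le_nhds
    have q3 : ∀ᶠ ρ : ℝ in 𝓝[>] 0, 0 < ρ := eventually_mem_nhdsWithin
    obtain ⟨ρ, ⟨⟨v1, v2⟩, ⟨v3, v4⟩⟩, v5⟩ := (((q0.and q1).and (q2.and q2')).and q3).exists
    exact ⟨ρ, v5, by linarith, by linarith, v2, v1⟩
  have hν : 0 < x1 * (4 - 4 * s ^ 2) := by positivity
  obtain ⟨H, hH⟩ := exists_polynomial_near_of_continuousOn 0 4 _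
    (h11_c (s := s) (ρ := ρ) (L := Xk s κ) hν).continuousOn (e / 96) (by positivity)
  obtain ⟨M, hM0, hM⟩ := pbd H
  obtain ⟨d, hd0, hd1, hd2⟩ : ∃ d : ℝ, 0 < d ∧ d ≤ e / 6 ∧ M * d ≤ e / 8 := by
    refine ⟨min (e / 6) (e / (8 * (M + 1))), by positivity, min_le_left _ _, ?_⟩
    have h1 : M * min (e / 6) (e / (8 * (M + 1))) ≤ M * (e / (8 * (M + 1))) :=
      mul_le_mul_of_nonneg_left (min_le_right _ _) hM0
    have h2 : M * (e / (8 * (M + 1))) = e / 8 * (M / (M + 1)) := by field_simp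
    have h3 : M / (M + 1) ≤ 1 := by rw [div_le_one (by positivity)]; linarith
    calc _ ≤ _ := h1
      _ = _ := h2
      _ ≤ e / 8 * 1 := by gcongr
      _ = e / 8 := mul_one _
  obtain ⟨T, hT⟩ := exT1 (κ := κ) (ρ := ρ) hs hs1 hη h4 hd0
  obtain ⟨δ, hδ0, hδ1, hδ2, hδ3⟩ : ∃ δ : ℝ, 0 < δ ∧ δ ≤ 1 / 1024 ∧ 3072 * δ ≤ e / 2 ∧
      1536 * δ / (4 - 4 * s ^ 2) ≤ e / 8 := by
    refine ⟨min (1 / 1024) (min (e / 6144) (e * (4 - 4 * s ^ 2) / 12288)), by positivity,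
      min_le_left _ _, ?_, ?_⟩
    · have := (min_le_right (1 / 1024 : ℝ) _).trans (min_le_left (e / 6144)
        (e * (4 - 4 * s ^ 2) / 12288))
      linarith
    · rw [div_le_iff₀ h5]
      have := (min_le_right (1 / 1024 : ℝ) _).trans (min_le_right (e / 6144)
        (e * (4 - 4 * s ^ 2) / 12288))
      linarith
  obtain ⟨G, hG⟩ := approxG hs hs1 (f1_chi hs hs1 hη h4 ρ0 ρk) hδ0
  have hA : Adm1 s (f1 s η κ ρ) δ G := hG
  refine ⟨G, H, T, ?_, ?_, ?_, fun p hp => ?_⟩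
  · have := WI_1 hs hs1 hη h4 ρ0 hk0 ρk hδ0.le hδ1 hA
    linarith
  · have := gI_H1 (d := e / 96) hν ρ0 (by positivity) (by linarith) X0 X4 ρ4
      (fun X hX => (hH X hX).le)
    linarith
  · have := gI_T1 hs hs1 hη h4 ρ0 κ0 hk X0 hd0.le (by linarith) hT
    linarith
  · have h1 : gI ((p - H * (QQ s * T)).comp (C (s * s) * X)) ≤ 2 * (e / 2) ^ 2 := by
      refine gI_of hs (by positivity) fun Y hY => ?_
      have a1 := p_close1 hs hs1 (f1_0 hη h4) (f1_1 hη h4) (v := v1 s η κ ρ)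
        (fun x y Y b1 b2 b3 b4 b5 => f1_sum hs hs1 hη h4 ρ0 ρk b1 b2 b3 b4 b5)
        hδ0.le hδ1 hA hp hY.1 hY.2
      have Y4 : Y ≤ 4 := by linarith [hY.2]
      have a2 := hH Y ⟨hY.1.le, Y4⟩
      have a3 := hM Y ⟨hY.1.le, Y4⟩
      have a4 := hT Y ⟨hY.1.le, hY.2⟩
      have v0 := v1_0 (s := s) (κ := κ) (ρ := ρ) hη h4 Y
      have v1' := v1_1 (s := s) (κ := κ) (ρ := ρ) hη h4 Y
      have a5 : v1 s η κ ρ Y / (Y * (4 - Y)) =
          v1 s η κ ρ Y * h11 s (x1 * (4 - 4 * s ^ 2)) ρ (Xk s κ) Y := by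
        rcases lt_or_ge Y x1 with h | h
        · have : v1 s η κ ρ Y = 0 := by unfold v1; rw [hx1 Y hY.1.le h, zero_mul]
          rw [this]; simp
        · rcases le_total Y (Xk s κ) with h' | h'
          · rw [v1_lo hs hs1 ρ0 κ0 hk ⟨hY.1.le, hY.2⟩ h']; simp
          · unfold h11
            rw [h00_e s21 x10 ρ0 h hY.2, cut_hi (κ := Xk s κ - ρ) ρ0 (by linarith)]; ring
      rw [Polynomial.eval_sub, Polynomial.eval_mul]
      obtain ⟨q, hq⟩ : ∃ q, q = (QQ s * T).eval Y := ⟨_, rfl⟩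
      rw [← hq] at a4 ⊢
      have e3 : p.eval Y - H.eval Y * q = (p.eval Y - v1 s η κ ρ Y / (Y * (4 - Y))) -
          v1 s η κ ρ Y * (H.eval Y - h11 s (x1 * (4 - 4 * s ^ 2)) ρ (Xk s κ) Y) -
          H.eval Y * (q - v1 s η κ ρ Y) := by
        rw [a5]; ring
      rw [e3]
      have b1 : |v1 s η κ ρ Y * (H.eval Y - h11 s (x1 * (4 - 4 * s ^ 2)) ρ (Xk s κ) Y)| ≤
          1 * (e / 96) := by
        rw [abs_mul, abs_of_nonneg v0]
        exact mul_le_mul v1' a2.le (abs_nonneg _) zero_le_one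
      have b2 : |H.eval Y * (q - v1 s η κ ρ Y)| ≤ M * d := by
        rw [abs_mul]
        exact mul_le_mul a3 a4 (abs_nonneg _) hM0
      have c1 := abs_sub (p.eval Y - v1 s η κ ρ Y / (Y * (4 - Y)))
        (v1 s η κ ρ Y * (H.eval Y - h11 s (x1 * (4 - 4 * s ^ 2)) ρ (Xk s κ) Y))
      have c2 := abs_sub ((p.eval Y - v1 s η κ ρ Y / (Y * (4 - Y))) -
        v1 s η κ ρ Y * (H.eval Y - h11 s (x1 * (4 - 4 * s ^ 2)) ρ (Xk s κ) Y))
        (H.eval Y * (q - v1 s η κ ρ Y))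
      linarith
    have : 0 ≤ e ^ 2 := sq_nonneg e
    nlinarith

/-! ### closed forms -/

/-- the position of the cutoff in the spectral interval of the second function -/
def ww (l s : ℝ) : ℝ := l * (2 - l * (1 - s)) / (1 - s + 2 * l * s)

lemma ww_den (hs : 0 < s) (hs1 : s < 1) {l : ℝ} (hl : 0 ≤ l) : 0 < 1 - s + 2 * l * s := by
  have : 0 < 1 - s := by linarith
  positivity

lemma ww_0 (hs : 0 < s) (hs1 : s < 1) {l : ℝ} (hl : 0 ≤ l) (hl1 : l ≤ 1) : 0 ≤ ww l s := by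
  have h1 : 0 < 1 - s := by linarith
  refine div_nonneg (mul_nonneg hl ?_) (ww_den hs hs1 hl).le
  nlinarith

lemma ww_1 (hs : 0 < s) (hs1 : s < 1) {l : ℝ} (hl : 0 ≤ l) : ww l s ≤ 1 := by
  unfold ww
  rw [div_le_one (ww_den hs hs1 hl)]
  have h1 : 0 < 1 - s := by linarith
  nlinarith [mul_nonneg h1.le (sq_nonneg (1 - l))]

lemma arc_eq1 {t : ℝ} (ht : 0 ≤ t) (ht1 : t ≤ 1) : Real.arccos (1 - 2 * t ^ 2) =
    2 * Real.arcsin t := by
  have h1 : Real.cos (2 * Real.arcsin t) = 1 - 2 * t ^ 2 := by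
    rw [Real.cos_two_mul, Real.cos_sq', Real.sin_arcsin (by linarith) ht1]; ring
  rw [← h1, Real.arccos_cos]
  · have := Real.arcsin_nonneg.2 ht
    linarith
  · have := Real.arcsin_le_pi_div_two t
    linarith

theorem main5 (hs : 0 < s) (hs1 : s < 1) {l : ℝ} (hl : 0 ≤ l) (hl1 : l < 1) {e : ℝ}
    (he : 0 < e) (he1 : e ≤ 1) : ∃ G H T : ℝ[X],
    WI (Fr s G) s ≤ Real.arccos (1 - l * (1 - s)) / Real.pi + e ∧
    gI (PP * H) ≤ 4 / Real.pi * (Real.arcsin s - Real.arcsin (s * √(ww l s))) + e ∧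
    gI ((QQ s * T).comp (C (s * s) * X)) ≤ 4 / Real.pi * Real.arccos (√(ww l s)) + e ∧
    ∀ p : ℝ[X], EM s (Fr s G ^ 2) = 1 - PP * p →
      gI ((p - H * (QQ s * T)).comp (C (s * s) * X)) ≤ e ^ 2 := by
  have hpi := Real.pi_pos
  have s1 : 0 < 1 - s := by linarith
  have hd := ww_den hs hs1 hl
  have w0 := ww_0 hs hs1 hl hl1.le
  have w1 := ww_1 hs hs1 hl
  obtain ⟨κ, hκ⟩ : ∃ κ, κ = (1 - s) * (1 - s + 2 * l * s) := ⟨_, rfl⟩
  have k0 : (1 - s) ^ 2 ≤ κ := by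
    rw [hκ]; nlinarith [mul_nonneg (mul_nonneg hl hs.le) s1.le]
  have k1 : κ < 1 - s ^ 2 := by
    rw [hκ]
    have : 0 < (1 - s) * (2 * s * (1 - l)) := by
      have : 0 < 1 - l := by linarith
      positivity
    nlinarith
  have eX : Xk s κ = 4 * s ^ 2 * ww l s := by
    rw [hκ]; unfold Xk ww
    field_simp
    ring
  have e1 : (κ - 1 - s ^ 2) / (2 * s) = -(1 - l * (1 - s)) := by
    rw [hκ]; field_simp; ring
  have r1 : √(ww l s) ≤ 1 := by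
    rw [← Real.sqrt_one]; exact Real.sqrt_le_sqrt w1
  have r0 := Real.sqrt_nonneg (ww l s)
  have rs := Real.sq_sqrt w0
  have e2 : Real.arccos (1 - Xk s κ / 2) = 2 * Real.arcsin (s * √(ww l s)) := by
    rw [← arc_eq1 (by positivity) (by nlinarith), eX, mul_pow, rs]
    congr 1; ring
  have e3 : Real.arccos (1 - Xk s κ / (2 * s ^ 2)) = 2 * Real.arcsin (√(ww l s)) := by
    rw [← arc_eq1 r0 r1, eX, rs]
    congr 1; field_simp; ring
  obtain ⟨G, H, T, h1, h2, h3, h4⟩ := main4 hs hs1 k0 k1 he he1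
  refine ⟨G, H, T, ?_, ?_, ?_, h4⟩
  · rw [e1, Real.arccos_neg] at h1
    have : 1 - (Real.pi - Real.arccos (1 - l * (1 - s))) / Real.pi =
        Real.arccos (1 - l * (1 - s)) / Real.pi := by field_simp; ring
    rw [this] at h1; exact h1
  · rw [arc_eq1 hs.le hs1.le, e2] at h2
    have : 2 / Real.pi * (2 * Real.arcsin s - 2 * Real.arcsin (s * √(ww l s))) =
        4 / Real.pi * (Real.arcsin s - Real.arcsin (s * √(ww l s))) := by ring
    rw [this] at h2; exact h2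
  · rw [e3] at h3
    have : 2 / Real.pi * (Real.pi - 2 * Real.arcsin (√(ww l s))) =
        4 / Real.pi * Real.arccos (√(ww l s)) := by
      unfold Real.arccos; field_simp; ring
    rw [this] at h3; exact h3

end

end Pool.Agent.Run7.h9.JF
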