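import Pool.Agent.Run7.h9.JF.Lo
import Pool.Agent.Run7.h9.TC.Gen

/-! The lower bound for all sequences. -/
set_option autoImplicit false
open MeasureTheory Filter Topology Complex Set
open scoped ContDiff Real Manifold

namespace Pool.Agent.Run7.h9.JF

open Pool.Agent.W745.RW Pool.Agent.TH294.RS Pool.Agent.Y265.HY Pool.Agent.Y265.HY.PS
open Pool.Agent.Y265.HY.JC Pool.Agent.Run7.h9.TC

noncomputable section

variable {Ω : Set ℂ} {lam mu : ℕ → ℝ} {u g : ℕ → ℂ → ℝ}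

/-- transfer from convergent ratios to all ratios in a compact interval: `B` is a continuous
function of the ratio of the frequencies -/
theorem gen (D : JD Ω lam mu u g) (D' : JD Ω mu mu g g) {φ : ℂ → ℝ} (B : ℝ → ℝ)
    (hB : Continuous B)
    (H : ∀ (lam mu : ℕ → ℝ) (u g : ℕ → ℂ → ℝ) (C : ℝ), T3 Ω lam mu mu u g g C → ∀ σ : ℝ,
      Tendsto (sg lam mu) atTop (𝓝 σ) → 0 < σ → σ < 1 → ∀ ε : ℝ, 0 < ε → ∀ᶠ n in atTop,
      B σ * (∫ z, φ z) - ε ≤ ∫ z, φ z * (u n z ^ 2 * g n z ^ 2))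
    {δ ε : ℝ} (hδ : 0 < δ) (hε : 0 < ε) :
    ∀ᶠ n in atTop, δ ≤ mu n / lam n → mu n / lam n ≤ 1 - δ →
      B (√(mu n / lam n)) * (∫ z, φ z) - ε ≤ ∫ z, φ z * (u n z ^ 2 * g n z ^ 2) := by
  by_contra hcon
  rw [Filter.not_eventually] at hcon
  obtain ⟨κ, hκ, hf⟩ := Filter.extraction_of_frequently_atTop hcon
  have hf' : ∀ n, (mu (κ n) / lam (κ n)) ∈ Set.Icc δ (1 - δ) ∧
      ∫ z, φ z * (u (κ n) z ^ 2 * g (κ n) z ^ 2) <
        B (√(mu (κ n) / lam (κ n))) * (∫ z, φ z) - ε := by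
    intro n
    have := hf n
    push Not at this
    exact ⟨⟨this.1, this.2.1⟩, this.2.2⟩
  obtain ⟨r, hr, τ, hτ, hl⟩ := (isCompact_Icc (a := δ) (b := 1 - δ)).tendsto_subseq
    (x := fun n => mu (κ n) / lam (κ n)) fun n => (hf' n).1
  obtain ⟨ι, hι⟩ : ∃ ι : ℕ → ℕ, ι = κ ∘ τ := ⟨_, rfl⟩
  have ιm : Tendsto ι atTop atTop := by
    rw [hι]; exact (hκ.comp hτ).tendsto_atTop
  have hfι : ∀ n, (mu (ι n) / lam (ι n)) ∈ Set.Icc δ (1 - δ) ∧
      ∫ z, φ z * (u (ι n) z ^ 2 * g (ι n) z ^ 2) <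
        B (√(mu (ι n) / lam (ι n))) * (∫ z, φ z) - ε := by
    intro n; rw [hι]; exact hf' (τ n)
  have hlι : Tendsto (fun n => mu (ι n) / lam (ι n)) atTop (𝓝 r) := by rw [hι]; exact hl
  have r0 : 0 < r := lt_of_lt_of_le hδ hr.1
  have r1 : r < 1 := lt_of_le_of_lt hr.2 (by linarith)
  have lp := D.lp
  have mp := D.mp
  have T : T3 Ω (fun n => lam (ι n)) (fun n => mu (ι n)) (fun n => mu (ι n))
      (fun n => u (ι n)) (fun n => g (ι n)) (fun n => g (ι n)) (1 / δ + 1) := by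
    refine ⟨D.cmp ιm, D'.cmp ιm, fun n => ?_, fun n => ?_⟩
    · have h1 := (hfι n).1.1
      rw [le_div_iff₀ (lp _)] at h1
      have h2 : lam (ι n) ≤ 1 / δ * mu (ι n) := by
        rw [one_div, inv_mul_eq_div, le_div_iff₀ hδ]; linarith
      have := mp (ι n)
      linarith
    · have h1 := (hfι n).1.2
      rw [div_le_iff₀ (lp _)] at h1
      have h3 := lp (ι n)
      have h4 : 0 ≤ 1 / δ * lam (ι n) := by positivity
      nlinarith
  have hσ : Tendsto (sg (fun n => lam (ι n)) (fun n => mu (ι n))) atTop (𝓝 (√r)) := by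
    have h1 := hlι.sqrt
    refine h1.congr fun n => ?_
    have h2 := T.sg2 n
    rw [← h2, Real.sqrt_sq (T.sg0 n).le]
  have s0 : 0 < √r := Real.sqrt_pos.2 r0
  have s1 : √r < 1 := by
    rw [show (1 : ℝ) = √1 by simp]
    exact Real.sqrt_lt_sqrt r0.le r1
  have k1 := H _ _ _ _ _ T (√r) hσ s0 s1 (ε / 2) (by positivity)
  have k2 : Tendsto (fun n => B (√(mu (ι n) / lam (ι n))) * (∫ z, φ z)) atTop
      (𝓝 (B (√r) * ∫ z, φ z)) := (((hB.tendsto _).comp hlι.sqrt)).mul_const _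
  have k3 := k2.eventually (gt_mem_nhds (show B (√r) * (∫ z, φ z) <
    B (√r) * (∫ z, φ z) + ε / 2 by linarith))
  obtain ⟨n, n1, n2⟩ := (k1.and k3).exists
  have n3 := (hfι n).2
  linarith

theorem low_gen (D : JD Ω lam mu u g) (D' : JD Ω mu mu g g) {φ : ℂ → ℝ} (hφ : TF Ω φ)
    (h0 : ∀ z, 0 ≤ φ z) {δ ε : ℝ} (hδ : 0 < δ) (hε : 0 < ε) :
    ∀ᶠ n in atTop, δ ≤ mu n / lam n → mu n / lam n ≤ 1 - δ →
      2 / π * Real.arcsin (√(mu n / lam n)) * (∫ z, φ z) - ε ≤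
        ∫ z, φ z * (u n z ^ 2 * g n z ^ 2) :=
  gen D D' (fun σ => 2 / π * Real.arcsin σ) (continuous_const.mul Real.continuous_arcsin)
    (fun _ _ _ _ _ T _ hσ s0 s1 _ hε => low T hφ h0 hσ s0 s1 hε) hδ hε

end

end Pool.Agent.Run7.h9.JF
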