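import Pool.Agent.Run7.h9.JF.Sp3
import Pool.Agent.Run7.h9.JF.Bn
import Pool.Agent.Run7.h9.JF.Ge

/-! The one-parameter family of lower bounds for the joint fourth moment. -/
set_option autoImplicit false
open MeasureTheory Filter Topology Complex Set
open scoped ContDiff Real Manifold

namespace Pool.Agent.Run7.h9.JF

open Pool.Agent.W745.RW Pool.Agent.TH294.RS Pool.Agent.Y265.HY Pool.Agent.Y265.HY.PS
open Pool.Agent.Y265.HY.JC Pool.Agent.Run7.h9.TC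

noncomputable section

/-- the constant of the lower bound, as a function of the ratio of the frequencies -/
def Bl (l s : ℝ) : ℝ := 1 - 2 / π * Real.arccos (1 - l * (1 - s)) -
  4 / π * √((Real.arcsin s - Real.arcsin (s * √(ww l s))) * Real.arccos (√(ww l s)))

variable {Ω : Set ℂ} {lam mu nu : ℕ → ℝ} {u g k : ℕ → ℂ → ℝ} {C : ℝ}

open Polynomial in
/-- the lower bound, when the ratio of the frequencies stays in a compact interval -/
lemma low_in4 (T : T3 Ω lam mu nu u g k C) {φ : ℂ → ℝ} (hφ : TF Ω φ) (h0 : ∀ z, 0 ≤ φ z)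
    {σ a b : ℝ} (ha : 0 < a) (hb : b < 1) (hσ : Tendsto (sg lam mu) atTop (𝓝 σ))
    (hab : ∀ n, sg lam mu n ∈ Set.Icc a b) (σa : σ ∈ Set.Icc a b) {l : ℝ} (hl : 0 ≤ l)
    (hl1 : l < 1) {ε : ℝ} (hε : 0 < ε) :
    ∀ᶠ n in atTop, Bl l σ * (∫ z, φ z) - ε ≤ ∫ z, φ z * (u n z ^ 2 * g n z ^ 2) := by
  have hpi := Real.pi_pos
  have σ0 : 0 < σ := lt_of_lt_of_le ha σa.1
  have σ1 : σ < 1 := lt_of_le_of_lt σa.2 hb
  have w0 := ww_0 σ0 σ1 hl hl1.le
  have w1 := ww_1 σ0 σ1 hl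
  have r1 : √(ww l σ) ≤ 1 := by
    rw [← Real.sqrt_one]; exact Real.sqrt_le_sqrt w1
  have r0 := Real.sqrt_nonneg (ww l σ)
  obtain ⟨I0, hI⟩ : ∃ I0, I0 = ∫ z, φ z := ⟨_, rfl⟩
  have I0n : 0 ≤ I0 := by rw [hI]; exact integral_nonneg h0
  obtain ⟨κ, hκ⟩ : ∃ κ, κ = √(gI TC.PP) := ⟨_, rfl⟩
  have κ0 : 0 ≤ κ := by rw [hκ]; exact Real.sqrt_nonneg _
  obtain ⟨m, hm⟩ : ∃ m, m = Real.arccos (1 - l * (1 - σ)) / π := ⟨_, rfl⟩
  obtain ⟨Mf, hMf⟩ : ∃ Mf, Mf = 4 / π * (Real.arcsin σ - Real.arcsin (σ * √(ww l σ))) := ⟨_, rfl⟩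
  obtain ⟨Mg, hMg⟩ : ∃ Mg, Mg = 4 / π * Real.arccos (√(ww l σ)) := ⟨_, rfl⟩
  have Mf0 : 0 ≤ Real.arcsin σ - Real.arcsin (σ * √(ww l σ)) := by
    have := Real.monotone_arcsin (show σ * √(ww l σ) ≤ σ by nlinarith)
    linarith
  have Mg0 : 0 ≤ Mg := by
    rw [hMg]
    have := Real.arccos_nonneg (√(ww l σ))
    positivity
  obtain ⟨Φ, hΦ⟩ : ∃ Φ : ℝ → ℝ, Φ = fun e => (1 - 2 * (m + 2 * e) -
    √(Mf + e) * √(Mg + 2 * e) - κ * (2 * e)) * I0 := ⟨_, rfl⟩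
  have Φc : Continuous Φ := by rw [hΦ]; fun_prop
  have Φ0 : Φ 0 = Bl l σ * I0 := by
    have e1 : √Mf * √Mg = 4 / π * √((Real.arcsin σ - Real.arcsin (σ * √(ww l σ))) *
        Real.arccos (√(ww l σ))) := by
      rw [← Real.sqrt_mul (by rw [hMf]; positivity), hMf, hMg,
        show 4 / π * (Real.arcsin σ - Real.arcsin (σ * √(ww l σ))) *
          (4 / π * Real.arccos (√(ww l σ))) = (4 / π) ^ 2 *
          ((Real.arcsin σ - Real.arcsin (σ * √(ww l σ))) * Real.arccos (√(ww l σ))) by ring,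
        Real.sqrt_mul (by positivity), Real.sqrt_sq (by positivity)]
    rw [hΦ]
    simp only [mul_zero, add_zero, sub_zero]
    rw [e1, hm]
    unfold Bl
    ring
  obtain ⟨e, ⟨he2, he1⟩, he0⟩ : ∃ e : ℝ, (Φ 0 - ε / 2 < Φ e ∧ e < 1) ∧ 0 < e := by
    have q1 := ((Φc.tendsto 0).eventually (lt_mem_nhds (show Φ 0 - ε / 2 < Φ 0 by
      linarith))).filter_mono (nhdsWithin_le_nhds (s := Set.Ioi 0))
    have q2 : ∀ᶠ e : ℝ in 𝓝[>] 0, e < 1 :=
      (gt_mem_nhds (by norm_num)).filter_mono nhdsWithin_le_nhds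
    have q3 : ∀ᶠ e : ℝ in 𝓝[>] 0, 0 < e := eventually_mem_nhdsWithin
    exact ((q1.and q2).and q3).exists
  obtain ⟨G, H, Tp, hG1, hG2, hG3, hG4⟩ := main5 σ0 σ1 hl hl1 he0 he1.le
  rw [← hm] at hG1
  rw [← hMf] at hG2
  rw [← hMg] at hG3
  obtain ⟨P2, hP2⟩ := kdiv ha hb G
  obtain ⟨P, hPd⟩ : ∃ P : (KK a b)[X], P = QQ ks * Tp.map kst := ⟨_, rfl⟩
  obtain ⟨P3, hP3⟩ : ∃ P3 : (KK a b)[X], P3 = P2 - H.map kst * P := ⟨_, rfl⟩
  have kx : ∀ (x : Set.Icc a b) (q : ℝ[X]), (q.map (kst (a := a) (b := b))).map (evx x) = q := by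
    intro x q
    rw [Polynomial.map_map]
    have : (evx x).comp kst = RingHom.id ℝ := by ext r; rfl
    rw [this, Polynomial.map_id]
  have Pm : ∀ x : Set.Icc a b, P.map (evx x) = QQ x.1 * Tp := by
    intro x
    rw [hPd, Polynomial.map_mul, QQ_map, kx]
    rfl
  have P3m : ∀ x : Set.Icc a b, P3.map (evx x) = P2.map (evx x) - H * (QQ x.1 * Tp) := by
    intro x
    rw [hP3, Polynomial.map_sub, Polynomial.map_mul, kx, Pm]
  obtain ⟨xs, hxs⟩ : ∃ xs : ℕ → Set.Icc a b, ∀ n, (xs n).1 = sg lam mu n :=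
    ⟨fun n => ⟨sg lam mu n, hab n⟩, fun n => rfl⟩
  obtain ⟨x0, hx0⟩ : ∃ x0 : Set.Icc a b, x0.1 = σ := ⟨⟨σ, σa⟩, rfl⟩
  have xl : Tendsto xs atTop (𝓝 x0) := by
    rw [tendsto_subtype_rng, hx0]
    simp only [hxs]
    exact hσ
  have hS : ∀ n, T.S.s.1 n = (xs n).1 := fun n => by rw [hxs]; rfl
  have hrs : rho xs ks = T.S.s := Subtype.ext (funext fun n => (hS n).symm)
  have hc : (rho xs).comp (kst (a := a) (b := b)) = cst := by
    ext r
    rfl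
  have hF : EM T.S.s (((FK ha hb G).map (rho xs)) ^ 2) =
      1 - TC.PP * H.map cst * P.map (rho xs) - TC.PP * P3.map (rho xs) := by
    have h1 := congrArg (Polynomial.map (rho xs)) hP2
    rw [EM_map, Polynomial.map_pow, Polynomial.map_sub, Polynomial.map_one,
      Polynomial.map_mul, PP_map, hrs] at h1
    rw [h1, hP3, Polynomial.map_sub, Polynomial.map_mul, Polynomial.map_map, hc]
    ring
  have c1 : Tendsto (fun n => WI ((FK ha hb G).map (evx (xs n))) (xs n).1) atTop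
      (𝓝 (WI (Fr σ G) σ)) := by
    have := ((WI_x_cont (FK ha hb G)).tendsto x0).comp xl
    rw [FK_map, hx0] at this
    exact this
  have c2 : Tendsto (fun n => gI (Qx P (xs n))) atTop (𝓝 (gI (Qx P x0))) :=
    ((gI_Qx_cont P).tendsto x0).comp xl
  have c3 : Tendsto (fun n => gI (Qx P3 (xs n))) atTop (𝓝 (gI (Qx P3 x0))) :=
    ((gI_Qx_cont P3).tendsto x0).comp xl
  have g2 : gI (Qx P x0) ≤ Mg + e := by
    unfold Qx
    rw [Pm, hx0]
    exact hG3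
  have g3 : gI (Qx P3 x0) ≤ e ^ 2 := by
    have h1 := hp_x ha hb hP2 x0
    rw [hx0] at h1
    have h2 := hG4 _ h1
    unfold Qx
    rw [P3m, hx0]
    exact h2
  have d1 : ∀ᶠ n in atTop, WI (((FK ha hb G).map (rho xs)).map (evn n)) (sg lam mu n) ≤
      m + 2 * e := by
    filter_upwards [c1.eventually (gt_mem_nhds (show WI (Fr σ G) σ < m + 2 * e by
      linarith))] with n hn
    rw [map_rho, ← hxs]
    exact hn.le
  have h2 : √(Mg + 2 * e) ^ 2 = Mg + 2 * e := Real.sq_sqrt (by linarith)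
  have d2 : ∀ᶠ n in atTop, gI ((Rs T.S.s (P.map (rho xs))).map (evn n)) ≤
      √(Mg + 2 * e) ^ 2 := by
    filter_upwards [c2.eventually (gt_mem_nhds (show gI (Qx P x0) < √(Mg + 2 * e) ^ 2 by
      rw [h2]; linarith))] with n hn
    rw [Rs_x hS]
    exact hn.le
  have d3 : ∀ᶠ n in atTop, gI ((Rs T.S.s (P3.map (rho xs))).map (evn n)) ≤ (2 * e) ^ 2 := by
    filter_upwards [c3.eventually (gt_mem_nhds (show gI (Qx P3 x0) < (2 * e) ^ 2 by
      nlinarith))] with n hn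
    rw [Rs_x hS]
    exact hn.le
  have r0 : ∀ x : Set.Icc a b, (QQ x.1 * Tp).eval 0 = 0 := fun x => by
    rw [Polynomial.eval_mul, QQ_ev, zero_mul, zero_mul]
  have r4 : ∀ x : Set.Icc a b, (QQ x.1 * Tp).eval (4 * x.1 ^ 2) = 0 := fun x => by
    rw [Polynomial.eval_mul, QQ_ev, sub_self, mul_zero, zero_mul]
  have w4 : ∀ n, (xs n).1 * (xs n).1 * 4 = 4 * (xs n).1 ^ 2 := fun n => by ring
  have key := fb3 T hφ h0 H _ _ _ hF (fun n => by
      rw [Rs_x hS, Qx_ev, mul_zero, Pm]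
      exact r0 _) (fun n => by
      rw [Rs_x hS, Qx_ev, w4, Pm]
      exact r4 _) (fun n => by
      rw [Rs_x hS, Qx_ev, mul_zero, P3m, Polynomial.eval_sub, Polynomial.eval_mul, r0,
        P0 (pos_of ha _) (lt_of hb _) G _ (hp_x ha hb hP2 _)]
      ring) (fun n => by
      rw [Rs_x hS, Qx_ev, w4, P3m, Polynomial.eval_sub, Polynomial.eval_mul, r4,
        P4 (pos_of ha _) (lt_of hb _) G _ (hp_x ha hb hP2 _)]
      ring) (β := √(Mg + 2 * e)) (δ := 2 * e) (by positivity) (by positivity) d1 d2 d3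
      (ε := ε / 2) (by positivity)
  filter_upwards [key] with n hn
  rw [← hI] at hn ⊢
  rw [← hκ] at hn
  refine le_trans ?_ hn
  rw [← Φ0]
  have h1 : √(gI (TC.PP * H)) ≤ √(Mf + e) := Real.sqrt_le_sqrt hG2
  have h2' : √(gI (TC.PP * H)) * √(Mg + 2 * e) * I0 ≤ √(Mf + e) * √(Mg + 2 * e) * I0 := by gcongr
  have h3 : Φ e = (1 - 2 * (m + 2 * e) - √(Mf + e) * √(Mg + 2 * e) - κ * (2 * e)) * I0 := by
    rw [hΦ]
  have e4 : (1 - 2 * (m + 2 * e) - √(gI (TC.PP * H)) * √(Mg + 2 * e) - κ * (2 * e)) * I0 =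
      Φ e + (√(Mf + e) * √(Mg + 2 * e) * I0 - √(gI (TC.PP * H)) * √(Mg + 2 * e) * I0) := by
    rw [h3]; ring
  rw [e4]
  linarith

/-- the lower bound -/
theorem low4 (T : T3 Ω lam mu nu u g k C) {φ : ℂ → ℝ} (hφ : TF Ω φ) (h0 : ∀ z, 0 ≤ φ z)
    {σ : ℝ} (hσ : Tendsto (sg lam mu) atTop (𝓝 σ)) (σ0 : 0 < σ) (σ1 : σ < 1) {l : ℝ}
    (hl : 0 ≤ l) (hl1 : l < 1) {ε : ℝ}
    (hε : 0 < ε) : ∀ᶠ n in atTop, Bl l σ * (∫ z, φ z) - ε ≤
      ∫ z, φ z * (u n z ^ 2 * g n z ^ 2) := by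
  have h1 : ∀ᶠ n in atTop, sg lam mu n ∈ Set.Icc (σ / 2) ((1 + σ) / 2) :=
    hσ.eventually (Icc_mem_nhds (by linarith) (by linarith))
  obtain ⟨N, hN⟩ := eventually_atTop.1 h1
  have t := tendsto_add_atTop_nat N
  have key := low_in4 (T.cmp t) hφ h0 (σ := σ) (a := σ / 2) (b := (1 + σ) / 2) (by linarith)
    (by linarith) (hσ.comp t) (fun n => hN (n + N) (by omega)) ⟨by linarith, by linarith⟩ hl hl1 hε
  obtain ⟨M, hM⟩ := eventually_atTop.1 key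
  refine eventually_atTop.2 ⟨M + N, fun n hn => ?_⟩
  have := hM (n - N) (by omega)
  simp only [Nat.sub_add_cancel (show N ≤ n by omega)] at this
  exact this

/-- transfer from convergent ratios to all ratios in a compact interval: `B` is a continuous
function of the ratio of the frequencies -/
theorem gen' (D : JD Ω lam mu u g) (D' : JD Ω mu mu g g) {φ : ℂ → ℝ} (B : ℝ → ℝ)
    (hB : ∀ x, 0 < x → x < 1 → ContinuousAt B x)
    (H : ∀ (lam mu : ℕ → ℝ) (u g : ℕ → ℂ → ℝ) (C : ℝ), T3 Ω lam mu mu u g g C → ∀ σ : ℝ,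
      Tendsto (sg lam mu) atTop (𝓝 σ) → 0 < σ → σ < 1 → ∀ ε : ℝ, 0 < ε → ∀ᶠ n in atTop,
      B σ * (∫ z, φ z) - ε ≤ ∫ z, φ z * (u n z ^ 2 * g n z ^ 2))
    {δ ε : ℝ} (hδ : 0 < δ) (hε : 0 < ε) :
    ∀ᶠ n in atTop, δ ≤ mu n / lam n → mu n / lam n ≤ 1 - δ →
      B (√(mu n / lam n)) * (∫ z, φ z) - ε ≤ ∫ z, φ z * (u n z ^ 2 * g n z ^ 2) := by
  by_contra hcon
  rw [Filter.not_eventually] at hcon
  obtain ⟨κ, hκ, hf⟩ := Filter.extraction_of_frequently_atTop hcon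
  have hf' : ∀ n, (mu (κ n) / lam (κ n)) ∈ Set.Icc δ (1 - δ) ∧
      ∫ z, φ z * (u (κ n) z ^ 2 * g (κ n) z ^ 2) <
        B (√(mu (κ n) / lam (κ n))) * (∫ z, φ z) - ε := by
    intro n
    have := hf n
    push Not at this
    exact ⟨⟨this.1, this.2.1⟩, this.2.2⟩
  obtain ⟨r, hr, τ, hτ, hl⟩ := (isCompact_Icc (a := δ) (b := 1 - δ)).tendsto_subseq
    (x := fun n => mu (κ n) / lam (κ n)) fun n => (hf' n).1
  obtain ⟨ι, hι⟩ : ∃ ι : ℕ → ℕ, ι = κ ∘ τ := ⟨_, rfl⟩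
  have ιm : Tendsto ι atTop atTop := by
    rw [hι]; exact (hκ.comp hτ).tendsto_atTop
  have hfι : ∀ n, (mu (ι n) / lam (ι n)) ∈ Set.Icc δ (1 - δ) ∧
      ∫ z, φ z * (u (ι n) z ^ 2 * g (ι n) z ^ 2) <
        B (√(mu (ι n) / lam (ι n))) * (∫ z, φ z) - ε := by
    intro n; rw [hι]; exact hf' (τ n)
  have hlι : Tendsto (fun n => mu (ι n) / lam (ι n)) atTop (𝓝 r) := by rw [hι]; exact hl
  have r0 : 0 < r := lt_of_lt_of_le hδ hr.1
  have r1 : r < 1 := lt_of_le_of_lt hr.2 (by linarith)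
  have lp := D.lp
  have mp := D.mp
  have T : T3 Ω (fun n => lam (ι n)) (fun n => mu (ι n)) (fun n => mu (ι n))
      (fun n => u (ι n)) (fun n => g (ι n)) (fun n => g (ι n)) (1 / δ + 1) := by
    refine ⟨D.cmp ιm, D'.cmp ιm, fun n => ?_, fun n => ?_⟩
    · have h1 := (hfι n).1.1
      rw [le_div_iff₀ (lp _)] at h1
      have h2 : lam (ι n) ≤ 1 / δ * mu (ι n) := by
        rw [one_div, inv_mul_eq_div, le_div_iff₀ hδ]; linarith
      have := mp (ι n)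
      linarith
    · have h1 := (hfι n).1.2
      rw [div_le_iff₀ (lp _)] at h1
      have h3 := lp (ι n)
      have h4 : 0 ≤ 1 / δ * lam (ι n) := by positivity
      nlinarith
  have hσ : Tendsto (sg (fun n => lam (ι n)) (fun n => mu (ι n))) atTop (𝓝 (√r)) := by
    have h1 := hlι.sqrt
    refine h1.congr fun n => ?_
    have h2 := T.sg2 n
    rw [← h2, Real.sqrt_sq (T.sg0 n).le]
  have s0 : 0 < √r := Real.sqrt_pos.2 r0
  have s1 : √r < 1 := by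
    rw [show (1 : ℝ) = √1 by simp]
    exact Real.sqrt_lt_sqrt r0.le r1
  have k1 := H _ _ _ _ _ T (√r) hσ s0 s1 (ε / 2) (by positivity)
  have k2 : Tendsto (fun n => B (√(mu (ι n) / lam (ι n))) * (∫ z, φ z)) atTop
      (𝓝 (B (√r) * ∫ z, φ z)) := (((hB _ s0 s1).tendsto.comp hlι.sqrt)).mul_const _
  have k3 := k2.eventually (gt_mem_nhds (show B (√r) * (∫ z, φ z) <
    B (√r) * (∫ z, φ z) + ε / 2 by linarith))
  obtain ⟨n, n1, n2⟩ := (k1.and k3).exists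
  have n3 := (hfι n).2
  linarith

theorem Bl_co {l : ℝ} (hl : 0 ≤ l) {x : ℝ} (hx : 0 < x) (hx1 : x < 1) :
    ContinuousAt (Bl l) x := by
  have hw : ContinuousAt (ww l) x := by
    unfold ww
    exact ContinuousAt.div (by fun_prop) (by fun_prop) (ww_den hx hx1 hl).ne'
  have hr : ContinuousAt (fun s => √(ww l s)) x := hw.sqrt
  have ac := Real.continuous_arccos
  have as := Real.continuous_arcsin
  have c1 : ContinuousAt (fun s : ℝ => Real.arccos (1 - l * (1 - s))) x :=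
    (ac.comp (by fun_prop : Continuous fun s : ℝ => 1 - l * (1 - s))).continuousAt
  have c2 : ContinuousAt (fun s : ℝ => Real.arcsin (s * √(ww l s))) x :=
    ContinuousAt.comp (f := fun s : ℝ => s * √(ww l s)) as.continuousAt (continuousAt_id.mul hr)
  have c3 : ContinuousAt (fun s : ℝ => Real.arccos (√(ww l s))) x :=
    ContinuousAt.comp (f := fun s : ℝ => √(ww l s)) ac.continuousAt hr
  unfold Bl
  exact (continuousAt_const.sub (c1.const_mul _)).sub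
    (((as.continuousAt.sub c2).mul c3).sqrt.const_mul _)

theorem low_gen4 (D : JD Ω lam mu u g) (D' : JD Ω mu mu g g) {φ : ℂ → ℝ} (hφ : TF Ω φ)
    (h0 : ∀ z, 0 ≤ φ z) {l : ℝ} (hl : 0 ≤ l) (hl1 : l < 1) {δ ε : ℝ} (hδ : 0 < δ) (hε : 0 < ε) :
    ∀ᶠ n in atTop, δ ≤ mu n / lam n → mu n / lam n ≤ 1 - δ →
      Bl l (√(mu n / lam n)) * (∫ z, φ z) - ε ≤ ∫ z, φ z * (u n z ^ 2 * g n z ^ 2) :=
  gen' D D' (Bl l) (fun _ => Bl_co hl)
    (fun _ _ _ _ _ T _ hσ s0 s1 _ hε => low4 T hφ h0 hσ s0 s1 hl hl1 hε) hδ hε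

end

end Pool.Agent.Run7.h9.JF
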