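import Pool.Agent.Run7.h9.JF.Sp

/-! The lower bound, abstract form. -/
set_option autoImplicit false
open MeasureTheory Filter Topology Complex Set
open scoped ContDiff Real Manifold

namespace Pool.Agent.Run7.h9.JF

open Pool.Agent.W745.RW Pool.Agent.TH294.RS Pool.Agent.Y265.HY Pool.Agent.Y265.HY.PS
open Pool.Agent.Y265.HY.JC Pool.Agent.R314.JN AddMonoidAlgebra Pool.Agent.Run7.h9.TC

noncomputable section

variable {Ω : Set ℂ} {lam mu nu : ℕ → ℝ} {u g k : ℕ → ℂ → ℝ} {C : ℝ}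

open Polynomial in
theorem fb (T : T3 Ω lam mu nu u g k C) {φ : ℂ → ℝ} (hφ : TF Ω φ) (h0 : ∀ z, 0 ≤ φ z)
    (F P2 : Rb[X]) (hP : EM T.S.s (F ^ 2) = 1 - TC.PP * P2)
    (z0 : ∀ n, ((Rs T.S.s P2).map (evn n)).eval 0 = 0)
    (z4 : ∀ n, ((Rs T.S.s P2).map (evn n)).eval 4 = 0) {A δ : ℝ} (hδ0 : 0 ≤ δ)
    (hA : ∀ᶠ n in atTop, WI (F.map (evn n)) (sg lam mu n) ≤ A)
    (hδ : ∀ᶠ n in atTop, gI ((Rs T.S.s P2).map (evn n)) ≤ δ ^ 2) {ε : ℝ} (hε : 0 < ε) :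
    ∀ᶠ n in atTop, (1 - 2 * A - √(gI TC.PP) * δ) * (∫ z, φ z) - ε ≤
      ∫ z, φ z * (u n z ^ 2 * g n z ^ 2) := by
  obtain ⟨I0, hI⟩ : ∃ I0, I0 = ∫ z, φ z := ⟨_, rfl⟩
  have I0n : 0 ≤ I0 := by rw [hI]; exact integral_nonneg h0
  obtain ⟨X, hX⟩ : ∃ X : ℕ → ℝ, ∀ n, X n = ∫ z, φ z * PF TC.PP (hh lam n) (u n) z ^ 2 :=
    ⟨_, fun _ => rfl⟩
  obtain ⟨Q, hQ⟩ : ∃ Q : ℕ → Polynomial ℝ, ∀ n, Q n = (Rs T.S.s P2).map (evn n) := ⟨_, fun _ => rfl⟩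
  obtain ⟨Y, hY⟩ : ∃ Y : ℕ → ℝ, ∀ n, Y n =
    ∫ z, φ z * PF (Q n) (hh mu n) (g n) z ^ 2 := ⟨_, fun _ => rfl⟩
  obtain ⟨Z, hZ⟩ : ∃ Z : ℕ → ℝ, ∀ n, Z n =
    ∫ z, φ z * ER F (hh lam) u g n z ^ 2 := ⟨_, fun _ => rfl⟩
  obtain ⟨W, hW⟩ : ∃ W : ℕ → ℝ, ∀ n, W n = ∫ z, φ z * (PF TC.PP (hh lam n) (u n) z *
    PF (Q n) (hh mu n) (g n) z) := ⟨_, fun _ => rfl⟩
  have x1 : Tendsto X atTop (𝓝 (gI TC.PP * I0)) := by
    have := T.D.f1 hφ TC.PP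
    rw [TC.PP0, TC.PP4] at this
    simp only [← hI, ← hX] at this
    simpa using this
  have y1 : Tendsto (fun n => Y n - gI (Q n) * I0) atTop (𝓝 0) := by
    have k1 := f1R T.D' hφ (Rs T.S.s P2) z0 z4
    simp only [← hI, ← hQ, ← hY] at k1
    exact k1
  have sp := spec2_re T hφ F P2 hP
  simp only [← hI, ← hQ, ← hW, ← hZ] at sp
  -- the product of the norms
  have q1 : Tendsto (fun n => √(X n) * √(δ ^ 2 * I0 + |Y n - gI (Q n) * I0|)) atTop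
      (𝓝 (√(gI TC.PP) * δ * I0)) := by
    have k1 := x1.sqrt.mul ((y1.abs.const_add (δ ^ 2 * I0)).sqrt)
    have e : √(gI TC.PP * I0) * √(δ ^ 2 * I0 + |0|) = √(gI TC.PP) * δ * I0 := by
      rw [abs_zero, add_zero, Real.sqrt_mul (gI_nonneg _), Real.sqrt_mul (sq_nonneg _),
        Real.sqrt_sq hδ0]
      have := Real.mul_self_sqrt I0n
      linear_combination (√(gI TC.PP) * δ) * this
    rw [e] at k1
    exact k1
  have q2 := q1.eventually (gt_mem_nhds (show √(gI TC.PP) * δ * I0 <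
    √(gI TC.PP) * δ * I0 + ε / 2 by linarith))
  have q3 := sp.eventually (gt_mem_nhds (show (0 : ℝ) < ε / 2 by linarith))
  rw [← hI]
  filter_upwards [q2, q3, hA, hδ] with n n2 n3 nA nδ
  rw [← hQ] at nδ
  have Z0 : 0 ≤ Z n := by
    rw [hZ]; exact integral_nonneg fun z => mul_nonneg (h0 z) (sq_nonneg _)
  have X0 : 0 ≤ X n := by
    rw [hX]; exact integral_nonneg fun z => mul_nonneg (h0 z) (sq_nonneg _)
  have cs1 := cs T.D.op hφ h0 (T.D.PFc TC.PP n) (T.D'.PFc (Q n) n)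
  rw [← hX, ← hY, ← hW] at cs1
  have Yle : Y n ≤ δ ^ 2 * I0 + |Y n - gI (Q n) * I0| := by
    have h1 := le_abs_self (Y n - gI (Q n) * I0)
    have h2 : gI (Q n) * I0 ≤ δ ^ 2 * I0 := mul_le_mul_of_nonneg_right nδ I0n
    linarith
  have h1 : -W n ≤ √(X n) * √(δ ^ 2 * I0 + |Y n - gI (Q n) * I0|) := by
    have h2 : |W n| ≤ √(X n) * √(Y n) := by
      rw [← Real.sqrt_mul X0]
      exact Real.abs_le_sqrt cs1
    have h3 : √(Y n) ≤ √(δ ^ 2 * I0 + |Y n - gI (Q n) * I0|) := Real.sqrt_le_sqrt Yle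
    calc -W n ≤ |W n| := neg_le_abs _
      _ ≤ √(X n) * √(Y n) := h2
      _ ≤ _ := mul_le_mul_of_nonneg_left h3 (Real.sqrt_nonneg _)
  have h4 : I0 * WI (F.map (evn n)) (sg lam mu n) ≤ I0 * A := mul_le_mul_of_nonneg_left nA I0n
  nlinarith

end

end Pool.Agent.Run7.h9.JF
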