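import Pool.Agent.Run7.h9.JF.Po

/-! The test function of the lower bound. -/
set_option autoImplicit false
open MeasureTheory Filter Topology Polynomial

namespace Pool.Agent.Run7.h9.JF

open Pool.Agent.Y265.HY.JC (gI cnt)
open Pool.Agent.Run7.h9.TC

noncomputable section

/-- truncation -/
def clp (t : ℝ) : ℝ := max (-1) (min 1 t)

lemma clp_neg (t : ℝ) : clp (-t) = -clp t := by
  unfold clp
  rcases le_total t (-1) with h | h
  · rw [min_eq_left (by linarith : (1 : ℝ) ≤ -t), min_eq_right (by linarith : t ≤ 1),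
      max_eq_right (by norm_num), max_eq_left h]
    norm_num
  · rcases le_total t 1 with h2 | h2
    · rw [min_eq_right (by linarith : -t ≤ 1), min_eq_right h2,
        max_eq_right (by linarith), max_eq_right h]
    · rw [min_eq_right (by linarith : -t ≤ 1), min_eq_left h2,
        max_eq_left (by linarith), max_eq_right (by norm_num)]

lemma clp_l (t : ℝ) : -1 ≤ clp t := le_max_left _ _
lemma clp_u (t : ℝ) : clp t ≤ 1 := max_le (by norm_num) (min_le_left _ _)
lemma clp_cont : Continuous clp := continuous_const.max (continuous_const.min continuous_id)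
lemma clp_lo {t : ℝ} (h : t ≤ -1) : clp t = -1 := by
  unfold clp
  rw [min_eq_right (by linarith), max_eq_left h]
lemma clp_hi {t : ℝ} (h : 1 ≤ t) : clp t = 1 := by
  unfold clp
  rw [min_eq_left h, max_eq_right (by norm_num)]
lemma clp_mid {t : ℝ} (h : -1 ≤ t) (h' : t ≤ 1) : clp t = t := by
  unfold clp
  rw [min_eq_right h', max_eq_right h]

/-- the weight -/
def ph (c η z : ℝ) : ℝ := (1 - clp (Real.log (z / c) / η)) / 2

lemma ph_0 (c η z : ℝ) : 0 ≤ ph c η z := by
  have := clp_u (Real.log (z / c) / η)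
  unfold ph; linarith

lemma ph_1 (c η z : ℝ) : ph c η z ≤ 1 := by
  have := clp_l (Real.log (z / c) / η)
  unfold ph; linarith

lemma ph_sum {c η z z' : ℝ} (hc : 0 < c) (hz : 0 < z) (hz' : 0 < z') (h : z * z' = c ^ 2) :
    ph c η z + ph c η z' = 1 := by
  have e : z' / c = (z / c)⁻¹ := by
    field_simp
    linear_combination h
  unfold ph
  rw [e, Real.log_inv, neg_div, clp_neg]
  ring

section pts

variable {s η : ℝ}

lemma lg_cont {c z : ℝ} (hc : 0 < c) (hz : 0 < z) : ContinuousAt (fun z => Real.log (z / c) / η) z :=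
  ((continuousAt_id.div_const c).log (by positivity)).div_const η

lemma ph_contAt {c z : ℝ} (hc : 0 < c) (hz : 0 < z) : ContinuousAt (ph c η) z := by
  unfold ph
  exact ((continuousAt_const.sub (clp_cont.continuousAt.comp (lg_cont hc hz)))).div_const 2

lemma Lam {s : ℝ} (hs : 0 < s) (hs1 : s < 1) :
    Real.log ((1 - s) ^ 2 / (1 - s ^ 2)) = -Real.log ((1 + s) / (1 - s)) ∧
    Real.log ((1 + s) ^ 2 / (1 - s ^ 2)) = Real.log ((1 + s) / (1 - s)) := by
  have h1 : (1 - s) ≠ 0 := by linarith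
  have h2 : (1 + s) ≠ 0 := by linarith
  have e : 1 - s ^ 2 = (1 - s) * (1 + s) := by ring
  constructor
  · rw [← Real.log_inv, e]
    congr 1
    field_simp
  · rw [e]
    congr 1
    field_simp

lemma ph_m (hs : 0 < s) (hs1 : s < 1) (hη : 0 < η) (hη1 : η < Real.log ((1 + s) / (1 - s))) :
    ∀ᶠ z in 𝓝 ((1 - s) ^ 2), ph (1 - s ^ 2) η z = 1 := by
  have hc : 0 < 1 - s ^ 2 := by nlinarith
  have h1 : (0 : ℝ) < (1 - s) ^ 2 := by
    have : 0 < 1 - s := by linarith
    positivity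
  have h2 : Real.log ((1 - s) ^ 2 / (1 - s ^ 2)) / η < -1 := by
    rw [(Lam hs hs1).1, neg_div, neg_lt_neg_iff, lt_div_iff₀ hη, one_mul]
    exact hη1
  filter_upwards [(lg_cont (η := η) hc h1).eventually (gt_mem_nhds h2)] with z hz
  unfold ph
  rw [clp_lo hz.le]; norm_num

lemma ph_p (hs : 0 < s) (hs1 : s < 1) (hη : 0 < η) (hη1 : η < Real.log ((1 + s) / (1 - s))) :
    ∀ᶠ z in 𝓝 ((1 + s) ^ 2), ph (1 - s ^ 2) η z = 0 := by
  have hc : 0 < 1 - s ^ 2 := by nlinarith
  have h1 : (0 : ℝ) < (1 + s) ^ 2 := by positivity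
  have h2 : 1 < Real.log ((1 + s) ^ 2 / (1 - s ^ 2)) / η := by
    rw [(Lam hs hs1).2, lt_div_iff₀ hη, one_mul]
    exact hη1
  filter_upwards [(lg_cont (η := η) hc h1).eventually (lt_mem_nhds h2)] with z hz
  unfold ph
  rw [clp_hi hz.le]; norm_num

lemma ph_c {c : ℝ} (hc : 0 < c) :
    ∀ᶠ z in 𝓝 c, ph c η z = (1 - Real.log (z / c) / η) / 2 := by
  have h0 : Real.log (c / c) / η = 0 := by rw [div_self hc.ne', Real.log_one, zero_div]
  have h1 : Real.log (c / c) / η < 1 := by rw [h0]; norm_num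
  have h2 : -1 < Real.log (c / c) / η := by rw [h0]; norm_num
  filter_upwards [(lg_cont (η := η) hc hc).eventually (gt_mem_nhds h1),
    (lg_cont (η := η) hc hc).eventually (lt_mem_nhds h2)] with z hz hz2
  unfold ph
  rw [clp_mid hz2.le hz.le]

end pts

/-- the interpolation part -/
def Lp (s z : ℝ) : ℝ := ca s * (z ^ 2 - (1 - s ^ 2) ^ 2) +
    cb s * ((z - (1 + s) ^ 2) * (z + (1 - s ^ 2))) + cd s * ((z - (1 + s) ^ 2) * (z - (1 - s ^ 2)))

/-- the quotient of order two -/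
def kp (s η z : ℝ) : ℝ := (√(ph (1 - s ^ 2) η z) - 1) / (z - (1 - s) ^ 2) ^ 2

/-- the difference -/
def N0 (s η z : ℝ) : ℝ := kp s η z - Lp s z

theorem approx {s η : ℝ} (hs : 0 < s) (hs1 : s < 1) (hη : 0 < η)
    (hη1 : η < Real.log ((1 + s) / (1 - s))) {ε : ℝ} (hε : 0 < ε) : ∃ G : ℝ[X],
    ∀ z ∈ Set.Icc ((1 - s) ^ 2) ((1 + s) ^ 2), |(Fr s G).eval z - √(ph (1 - s ^ 2) η z)| ≤
      ε * |(z - (1 - s) ^ 2) ^ 2 * (z - (1 + s) ^ 2) * (z ^ 2 - (1 - s ^ 2) ^ 2)| := by
  have hc : 0 < 1 - s ^ 2 := by nlinarith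
  have hm : (0 : ℝ) < (1 - s) ^ 2 := by
    have : 0 < 1 - s := by linarith
    positivity
  have hp : (0 : ℝ) < (1 + s) ^ 2 := by positivity
  have mc : (1 - s) ^ 2 < 1 - s ^ 2 := by nlinarith
  have cp : 1 - s ^ 2 < (1 + s) ^ 2 := by nlinarith
  have m1 := ph_m hs hs1 hη hη1
  have p1 := ph_p hs hs1 hη hη1
  have c1 := ph_c (η := η) hc
  have U : Set.Ioi (0 : ℝ) ∈ 𝓝 ((1 + s) ^ 2) := Ioi_mem_nhds hp
  have Uc : Set.Ioi (0 : ℝ) ∈ 𝓝 (1 - s ^ 2) := Ioi_mem_nhds hc
  -- continuity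
  have kc : ContinuousOn (kp s η) (Set.Ioi 0) := by
    intro z hz
    refine ContinuousAt.continuousWithinAt ?_
    by_cases h : z = (1 - s) ^ 2
    · rw [h]
      refine ContinuousAt.congr (f := fun _ => (0 : ℝ)) continuousAt_const ?_
      filter_upwards [m1] with w hw
      unfold kp
      rw [hw]; simp
    · unfold kp
      refine ContinuousAt.div ?_ ?_ ?_
      · exact ((ph_contAt hc hz).sqrt).sub continuousAt_const
      · fun_prop
      · have : z - (1 - s) ^ 2 ≠ 0 := sub_ne_zero.2 h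
        positivity
  have Lc : Continuous (Lp s) := by unfold Lp; fun_prop
  have Ld : Differentiable ℝ (Lp s) := by unfold Lp; fun_prop
  have Nc : ContinuousOn (N0 s η) (Set.Ioi 0) := kc.sub Lc.continuousOn
  -- differentiability
  have Dp : DifferentiableAt ℝ (N0 s η) ((1 + s) ^ 2) := by
    refine DifferentiableAt.sub ?_ (Ld _)
    have : kp s η =ᶠ[𝓝 ((1 + s) ^ 2)] fun z => (-1) / (z - (1 - s) ^ 2) ^ 2 := by
      filter_upwards [p1] with w hw
      unfold kp
      rw [hw]; simp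
    refine DifferentiableAt.congr_of_eventuallyEq ?_ this
    refine (differentiableAt_const _).div (by fun_prop) ?_
    have : (1 + s) ^ 2 - (1 - s) ^ 2 ≠ 0 := by nlinarith
    positivity
  have Dc : DifferentiableAt ℝ (N0 s η) (1 - s ^ 2) := by
    refine DifferentiableAt.sub ?_ (Ld _)
    have : kp s η =ᶠ[𝓝 (1 - s ^ 2)] fun z =>
        (√((1 - Real.log (z / (1 - s ^ 2)) / η) / 2) - 1) / (z - (1 - s) ^ 2) ^ 2 := by
      filter_upwards [c1] with w hw
      unfold kp
      rw [hw]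
    refine DifferentiableAt.congr_of_eventuallyEq ?_ this
    have d1 : DifferentiableAt ℝ (fun z : ℝ => Real.log (z / (1 - s ^ 2))) (1 - s ^ 2) :=
      (differentiableAt_id.div_const _).log (by simpa using hc.ne')
    have d2 : DifferentiableAt ℝ (fun z : ℝ => √((1 - Real.log (z / (1 - s ^ 2)) / η) / 2))
        (1 - s ^ 2) := by
      refine DifferentiableAt.sqrt (((d1.div_const η).const_sub 1).div_const 2) ?_
      rw [div_self hc.ne', Real.log_one]; norm_num
    refine (d2.sub_const 1).div (by fun_prop) ?_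
    have : 1 - s ^ 2 - (1 - s) ^ 2 ≠ 0 := by linarith
    positivity
  -- values
  have h1s : (1 + s) ≠ 0 := by linarith
  have h2s : (1 - s) ≠ 0 := by linarith
  have Vp : N0 s η ((1 + s) ^ 2) = 0 := by
    have e : ph (1 - s ^ 2) η ((1 + s) ^ 2) = 0 := p1.self_of_nhds
    unfold N0 kp Lp ca
    rw [e, Real.sqrt_zero]
    have : (1 + s) ^ 2 - (1 - s) ^ 2 = 4 * s := by ring
    rw [this]
    field_simp
    ring
  have Vc : N0 s η (1 - s ^ 2) = 0 := by
    have e : ph (1 - s ^ 2) η (1 - s ^ 2) = 1 / 2 := by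
      have := c1.self_of_nhds
      rw [this, div_self hc.ne', Real.log_one]; norm_num
    unfold N0 kp Lp cb
    rw [e]
    have : 1 - s ^ 2 - (1 - s) ^ 2 = 2 * s * (1 - s) := by ring
    rw [this]
    field_simp
    ring
  obtain ⟨k0, hk0⟩ : ∃ k0, k0 = dslope (N0 s η) ((1 + s) ^ 2) := ⟨_, rfl⟩
  have k0c : ContinuousOn k0 (Set.Ioi 0) := by
    rw [hk0]; exact (continuousOn_dslope U).2 ⟨Nc, Dp⟩
  have k0d : DifferentiableAt ℝ k0 (1 - s ^ 2) := by
    rw [hk0]; exact (differentiableAt_dslope_of_ne cp.ne).2 Dc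
  have e0 : ∀ z, N0 s η z = (z - (1 + s) ^ 2) * k0 z := by
    intro z
    have := sub_smul_dslope (N0 s η) ((1 + s) ^ 2) z
    rw [smul_eq_mul, Vp, sub_zero, ← hk0] at this
    exact this.symm
  have V0 : k0 (1 - s ^ 2) = 0 := by
    have := e0 (1 - s ^ 2)
    rw [Vc] at this
    exact (mul_eq_zero.1 this.symm).resolve_left (by linarith)
  obtain ⟨k1, hk1⟩ : ∃ k1, k1 = dslope k0 (1 - s ^ 2) := ⟨_, rfl⟩
  have k1c : ContinuousOn k1 (Set.Ioi 0) := by
    rw [hk1]; exact (continuousOn_dslope Uc).2 ⟨k0c, k0d⟩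
  have e1 : ∀ z, k0 z = (z - (1 - s ^ 2)) * k1 z := by
    intro z
    have := sub_smul_dslope k0 (1 - s ^ 2) z
    rw [smul_eq_mul, V0, sub_zero, ← hk1] at this
    exact this.symm
  have Gc : ContinuousOn (fun z => k1 z / (z + (1 - s ^ 2)))
      (Set.Icc ((1 - s) ^ 2) ((1 + s) ^ 2)) := by
    refine ContinuousOn.div (k1c.mono fun z hz => lt_of_lt_of_le hm hz.1) (by fun_prop)
      fun z hz => ?_
    have := hz.1
    have : 0 < z := lt_of_lt_of_le hm this
    positivity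
  obtain ⟨G, hG⟩ := exists_polynomial_near_of_continuousOn _ _ _ Gc ε hε
  refine ⟨G, fun z hz => ?_⟩
  have z0 : 0 < z := lt_of_lt_of_le hm hz.1
  have zc : z + (1 - s ^ 2) ≠ 0 := by positivity
  have hχ : √(ph (1 - s ^ 2) η z) = 1 + (z - (1 - s) ^ 2) ^ 2 * kp s η z := by
    by_cases h : z = (1 - s) ^ 2
    · have e : ph (1 - s ^ 2) η z = 1 := by rw [h]; exact m1.self_of_nhds
      rw [e, Real.sqrt_one, h]; ring
    · unfold kp
      have : z - (1 - s) ^ 2 ≠ 0 := sub_ne_zero.2 h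
      field_simp
      ring
  have key : (Fr s G).eval z - √(ph (1 - s ^ 2) η z) =
      (G.eval z - k1 z / (z + (1 - s ^ 2))) *
      ((z - (1 - s) ^ 2) ^ 2 * (z - (1 + s) ^ 2) * (z ^ 2 - (1 - s ^ 2) ^ 2)) := by
    have h1 : (Fr s G).eval z = 1 + (z - (1 - s) ^ 2) ^ 2 * (Lp s z +
        (z - (1 + s) ^ 2) * (z ^ 2 - (1 - s ^ 2) ^ 2) * G.eval z) := by
      unfold Fr Lp; rw [FF_ev]
    have h2 : kp s η z = Lp s z + (z - (1 + s) ^ 2) * ((z - (1 - s ^ 2)) * k1 z) := by
      have := e0 z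
      rw [e1] at this
      unfold N0 at this
      linarith
    rw [h1, hχ, h2]
    field_simp
    ring
  rw [key, abs_mul]
  exact mul_le_mul_of_nonneg_right (hG z hz).le (abs_nonneg _)

end

end Pool.Agent.Run7.h9.JF
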