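import Pool.Agent.Run7.h9.JF.Es

/-! Test functions concentrated at the exceptional frequencies. -/
set_option autoImplicit false
open MeasureTheory Filter Topology Polynomial

namespace Pool.Agent.Run7.h9.JF

open Pool.Agent.Y265.HY.JC (gI cnt)
open Pool.Agent.Run7.h9.TC

noncomputable section

variable {s η δ : ℝ} {χ : ℝ → ℝ}

/-- the conditions on the function to be approximated -/
structure Chi (s : ℝ) (χ : ℝ → ℝ) : Prop where
  co : ContinuousOn χ (Set.Ioi 0)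
  m : ∀ᶠ z in 𝓝 ((1 - s) ^ 2), χ z = 1
  p : ∀ᶠ z in 𝓝 ((1 + s) ^ 2), χ z = 0
  v : χ (1 - s ^ 2) = √(1 / 2)
  d : DifferentiableAt ℝ χ (1 - s ^ 2)

/-- the quotient of order two -/
def kq (χ : ℝ → ℝ) (s z : ℝ) : ℝ := (χ z - 1) / (z - (1 - s) ^ 2) ^ 2

/-- the difference -/
def N1 (χ : ℝ → ℝ) (s z : ℝ) : ℝ := kq χ s z - Lp s z

theorem approxG (hs : 0 < s) (hs1 : s < 1) (hχ : Chi s χ) {ε : ℝ} (hε : 0 < ε) : ∃ G : ℝ[X],
    ∀ z ∈ Set.Icc ((1 - s) ^ 2) ((1 + s) ^ 2), |(Fr s G).eval z - χ z| ≤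
      ε * |(z - (1 - s) ^ 2) ^ 2 * (z - (1 + s) ^ 2) * (z ^ 2 - (1 - s ^ 2) ^ 2)| := by
  have hc : 0 < 1 - s ^ 2 := by nlinarith
  have hm : (0 : ℝ) < (1 - s) ^ 2 := by
    have : 0 < 1 - s := by linarith
    positivity
  have hp : (0 : ℝ) < (1 + s) ^ 2 := by positivity
  have mc : (1 - s) ^ 2 < 1 - s ^ 2 := by nlinarith
  have cp : 1 - s ^ 2 < (1 + s) ^ 2 := by nlinarith
  have U : Set.Ioi (0 : ℝ) ∈ 𝓝 ((1 + s) ^ 2) := Ioi_mem_nhds hp
  have Uc : Set.Ioi (0 : ℝ) ∈ 𝓝 (1 - s ^ 2) := Ioi_mem_nhds hc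
  -- continuity
  have kc : ContinuousOn (kq χ s) (Set.Ioi 0) := by
    intro z hz
    refine ContinuousAt.continuousWithinAt ?_
    by_cases h : z = (1 - s) ^ 2
    · rw [h]
      refine ContinuousAt.congr (f := fun _ => (0 : ℝ)) continuousAt_const ?_
      filter_upwards [hχ.m] with w hw
      unfold kq
      rw [hw]; simp
    · unfold kq
      refine ContinuousAt.div ?_ ?_ ?_
      · exact (hχ.co.continuousAt (Ioi_mem_nhds hz)).sub continuousAt_const
      · fun_prop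
      · have : z - (1 - s) ^ 2 ≠ 0 := sub_ne_zero.2 h
        positivity
  have Lc : Continuous (Lp s) := by unfold Lp; fun_prop
  have Ld : Differentiable ℝ (Lp s) := by unfold Lp; fun_prop
  have Nc : ContinuousOn (N1 χ s) (Set.Ioi 0) := kc.sub Lc.continuousOn
  -- differentiability
  have Dp : DifferentiableAt ℝ (N1 χ s) ((1 + s) ^ 2) := by
    refine DifferentiableAt.sub ?_ (Ld _)
    have : kq χ s =ᶠ[𝓝 ((1 + s) ^ 2)] fun z => (-1) / (z - (1 - s) ^ 2) ^ 2 := by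
      filter_upwards [hχ.p] with w hw
      unfold kq
      rw [hw]; simp
    refine DifferentiableAt.congr_of_eventuallyEq ?_ this
    refine (differentiableAt_const _).div (by fun_prop) ?_
    have : (1 + s) ^ 2 - (1 - s) ^ 2 ≠ 0 := by nlinarith
    positivity
  have Dc : DifferentiableAt ℝ (N1 χ s) (1 - s ^ 2) := by
    refine DifferentiableAt.sub ?_ (Ld _)
    refine (hχ.d.sub_const 1).div (by fun_prop) ?_
    have : 1 - s ^ 2 - (1 - s) ^ 2 ≠ 0 := by linarith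
    positivity
  -- values
  have h1s : (1 + s) ≠ 0 := by linarith
  have h2s : (1 - s) ≠ 0 := by linarith
  have Vp : N1 χ s ((1 + s) ^ 2) = 0 := by
    have e : χ ((1 + s) ^ 2) = 0 := hχ.p.self_of_nhds
    unfold N1 kq Lp ca
    rw [e]
    have : (1 + s) ^ 2 - (1 - s) ^ 2 = 4 * s := by ring
    rw [this]
    field_simp
    ring
  have Vc : N1 χ s (1 - s ^ 2) = 0 := by
    unfold N1 kq Lp cb
    rw [hχ.v]
    have : 1 - s ^ 2 - (1 - s) ^ 2 = 2 * s * (1 - s) := by ring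
    rw [this]
    field_simp
    ring
  obtain ⟨k0, hk0⟩ : ∃ k0, k0 = dslope (N1 χ s) ((1 + s) ^ 2) := ⟨_, rfl⟩
  have k0c : ContinuousOn k0 (Set.Ioi 0) := by
    rw [hk0]; exact (continuousOn_dslope U).2 ⟨Nc, Dp⟩
  have k0d : DifferentiableAt ℝ k0 (1 - s ^ 2) := by
    rw [hk0]; exact (differentiableAt_dslope_of_ne cp.ne).2 Dc
  have e0 : ∀ z, N1 χ s z = (z - (1 + s) ^ 2) * k0 z := by
    intro z
    have := sub_smul_dslope (N1 χ s) ((1 + s) ^ 2) z
    rw [smul_eq_mul, Vp, sub_zero, ← hk0] at this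
    exact this.symm
  have V0 : k0 (1 - s ^ 2) = 0 := by
    have := e0 (1 - s ^ 2)
    rw [Vc] at this
    exact (mul_eq_zero.1 this.symm).resolve_left (by linarith)
  obtain ⟨k1, hk1⟩ : ∃ k1, k1 = dslope k0 (1 - s ^ 2) := ⟨_, rfl⟩
  have k1c : ContinuousOn k1 (Set.Ioi 0) := by
    rw [hk1]; exact (continuousOn_dslope Uc).2 ⟨k0c, k0d⟩
  have e1 : ∀ z, k0 z = (z - (1 - s ^ 2)) * k1 z := by
    intro z
    have := sub_smul_dslope k0 (1 - s ^ 2) z
    rw [smul_eq_mul, V0, sub_zero, ← hk1] at this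
    exact this.symm
  have Gc : ContinuousOn (fun z => k1 z / (z + (1 - s ^ 2)))
      (Set.Icc ((1 - s) ^ 2) ((1 + s) ^ 2)) := by
    refine ContinuousOn.div (k1c.mono fun z hz => lt_of_lt_of_le hm hz.1) (by fun_prop)
      fun z hz => ?_
    have := hz.1
    have : 0 < z := lt_of_lt_of_le hm this
    positivity
  obtain ⟨G, hG⟩ := exists_polynomial_near_of_continuousOn _ _ _ Gc ε hε
  refine ⟨G, fun z hz => ?_⟩
  have z0 : 0 < z := lt_of_lt_of_le hm hz.1
  have zc : z + (1 - s ^ 2) ≠ 0 := by positivity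
  have hχ' : χ z = 1 + (z - (1 - s) ^ 2) ^ 2 * kq χ s z := by
    by_cases h : z = (1 - s) ^ 2
    · have e : χ z = 1 := by rw [h]; exact hχ.m.self_of_nhds
      rw [e, h]; ring
    · unfold kq
      have : z - (1 - s) ^ 2 ≠ 0 := sub_ne_zero.2 h
      field_simp
      ring
  have key : (Fr s G).eval z - χ z =
      (G.eval z - k1 z / (z + (1 - s ^ 2))) *
      ((z - (1 - s) ^ 2) ^ 2 * (z - (1 + s) ^ 2) * (z ^ 2 - (1 - s ^ 2) ^ 2)) := by
    have h1 : (Fr s G).eval z = 1 + (z - (1 - s) ^ 2) ^ 2 * (Lp s z +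
        (z - (1 + s) ^ 2) * (z ^ 2 - (1 - s ^ 2) ^ 2) * G.eval z) := by
      unfold Fr Lp; rw [FF_ev]
    have h2 : kq χ s z = Lp s z + (z - (1 + s) ^ 2) * ((z - (1 - s ^ 2)) * k1 z) := by
      have := e0 z
      rw [e1] at this
      unfold N1 at this
      linarith
    rw [h1, hχ', h2]
    field_simp
    ring
  rw [key, abs_mul]
  exact mul_le_mul_of_nonneg_right (hG z hz).le (abs_nonneg _)

lemma sq_closeG (hs : 0 < s) (hs1 : s < 1) (hδ : 0 ≤ δ) (hδ1 : δ ≤ 1 / 1024) {F z x : ℝ}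
    (x0 : 0 ≤ x) (x1 : x ≤ 1)
    (h1 : |F - x| ≤ δ * |(z - (1 - s) ^ 2) ^ 2 * (z - (1 + s) ^ 2) * (z ^ 2 - (1 - s ^ 2) ^ 2)|)
    (hz : z ∈ Set.Icc ((1 - s) ^ 2) ((1 + s) ^ 2)) :
    |F ^ 2 - x ^ 2| ≤ 192 * δ * |(z - (1 - s) ^ 2) * (z - (1 + s) ^ 2)| := by
  obtain ⟨P, hP⟩ : ∃ P, P = |(z - (1 - s) ^ 2) * (z - (1 + s) ^ 2)| := ⟨_, rfl⟩
  have P0 : 0 ≤ P := by rw [hP]; exact abs_nonneg _
  have z0 : 0 ≤ z := (sq_nonneg _).trans hz.1
  have z4 : z ≤ 4 := hz.2.trans (by nlinarith)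
  have m0 : 0 ≤ (1 - s) ^ 2 := sq_nonneg _
  have p4 : (1 + s) ^ 2 ≤ 4 := by nlinarith
  have a1 : |z - (1 - s) ^ 2| ≤ 4 := by rw [abs_le]; constructor <;> linarith [hz.1]
  have a2 : |z ^ 2 - (1 - s ^ 2) ^ 2| ≤ 16 := by
    have : (1 - s ^ 2) ^ 2 ≤ 16 := by nlinarith
    have : z ^ 2 ≤ 16 := by nlinarith
    rw [abs_le]; constructor <;> nlinarith [sq_nonneg z, sq_nonneg (1 - s ^ 2)]
  have a3 : |z - (1 + s) ^ 2| ≤ 4 := by rw [abs_le]; constructor <;> linarith [hz.2]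
  have e1 : |(z - (1 - s) ^ 2) ^ 2 * (z - (1 + s) ^ 2) * (z ^ 2 - (1 - s ^ 2) ^ 2)| =
      P * (|z - (1 - s) ^ 2| * |z ^ 2 - (1 - s ^ 2) ^ 2|) := by
    rw [hP, ← abs_mul, ← abs_mul]; congr 1; ring
  have b1 : |z - (1 - s) ^ 2| * |z ^ 2 - (1 - s ^ 2) ^ 2| ≤ 64 := by
    calc _ ≤ 4 * 16 := mul_le_mul a1 a2 (abs_nonneg _) (by norm_num)
      _ = 64 := by norm_num
  have P16 : P ≤ 16 := by
    rw [hP, abs_mul]
    calc _ ≤ 4 * 4 := mul_le_mul a1 a3 (abs_nonneg _) (by norm_num)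
      _ = 16 := by norm_num
  have c1 : |F - x| ≤ 64 * δ * P := by
    rw [e1] at h1
    calc |F - x| ≤ δ * (P * (|z - (1 - s) ^ 2| * |z ^ 2 - (1 - s ^ 2) ^ 2|)) := h1
      _ ≤ δ * (P * 64) := by gcongr
      _ = 64 * δ * P := by ring
  have c2 : |F - x| ≤ 1 := by
    calc |F - x| ≤ 64 * δ * P := c1
      _ ≤ 64 * (1 / 1024) * 16 := by gcongr
      _ = 1 := by norm_num
  have c3 : |F + x| ≤ 3 := by
    have e : F + x = (F - x) + 2 * x := by ring
    rw [e]
    calc |F - x + 2 * x| ≤ |F - x| + |2 * x| := abs_add_le _ _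
      _ ≤ 1 + 2 := by
          refine add_le_add c2 ?_
          rw [abs_of_nonneg (by linarith)]; linarith
      _ = 3 := by norm_num
  rw [← hP]
  have e : F ^ 2 - x ^ 2 = (F - x) * (F + x) := by ring
  rw [e, abs_mul]
  calc |F - x| * |F + x| ≤ (64 * δ * P) * 3 := mul_le_mul c1 c3 (abs_nonneg _) (by positivity)
    _ = 192 * δ * P := by ring

/-- the bump -/
def bmp (t : ℝ) : ℝ := max 0 (min 1 (2 - |t|))

lemma bmp_0 (t : ℝ) : 0 ≤ bmp t := le_max_left _ _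
lemma bmp_1 (t : ℝ) : bmp t ≤ 1 := max_le (by norm_num) (min_le_left _ _)
lemma bmp_cont : Continuous bmp := by unfold bmp; fun_prop
lemma bmp_in {t : ℝ} (h : |t| ≤ 1) : bmp t = 1 := by
  unfold bmp
  rw [min_eq_left (by linarith), max_eq_right (by norm_num)]
lemma bmp_out {t : ℝ} (h : 2 ≤ |t|) : bmp t = 0 := by
  unfold bmp
  rw [min_eq_right (by linarith), max_eq_left (by linarith)]
lemma bmp_neg (t : ℝ) : bmp (-t) = bmp t := by unfold bmp; rw [abs_neg]

/-- the logarithmic size of the spectral interval -/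
def La (s : ℝ) : ℝ := Real.log ((1 + s) / (1 - s))

/-- the weight -/
def f0 (s η z : ℝ) : ℝ := bmp ((Real.log (z / (1 - s ^ 2)) + La s) / η) +
  1 / 2 * bmp (Real.log (z / (1 - s ^ 2)) / η)

lemma f0_0 (s η z : ℝ) : 0 ≤ f0 s η z := by
  have h1 := bmp_0 ((Real.log (z / (1 - s ^ 2)) + La s) / η)
  have h2 := bmp_0 (Real.log (z / (1 - s ^ 2)) / η)
  unfold f0; linarith

lemma disj {η l : ℝ} (hη : 0 < η) (h4 : 4 * η < La s) :
    bmp ((l + La s) / η) + bmp (l / η) ≤ 1 := by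
  by_cases h : 2 ≤ |l / η|
  · rw [bmp_out h, add_zero]; exact bmp_1 _
  · have h1 : |l| < 2 * η := by
      push Not at h
      rw [abs_div, abs_of_pos hη, div_lt_iff₀ hη] at h
      exact h
    have h2 := (abs_lt.1 h1).1
    have h3 : 2 ≤ |(l + La s) / η| := by
      refine le_trans ?_ (le_abs_self _)
      rw [le_div_iff₀ hη]; linarith
    rw [bmp_out h3, zero_add]; exact bmp_1 _

lemma f0_1 (hη : 0 < η) (h4 : 4 * η < La s) (z : ℝ) : f0 s η z ≤ 1 := by
  have h1 := disj hη h4 (l := Real.log (z / (1 - s ^ 2)))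
  have h2 := bmp_0 (Real.log (z / (1 - s ^ 2)) / η)
  unfold f0; linarith

lemma lgc {c z : ℝ} (hc : 0 < c) (hz : 0 < z) : ContinuousAt (fun z => Real.log (z / c)) z :=
  (continuousAt_id.div_const c).log (by positivity)

lemma f0_co (hs : 0 < s) (hs1 : s < 1) : ContinuousOn (f0 s η) (Set.Ioi 0) := by
  have hc : 0 < 1 - s ^ 2 := by nlinarith
  intro z hz
  refine ContinuousAt.continuousWithinAt ?_
  have h := lgc hc hz
  unfold f0
  exact (bmp_cont.continuousAt.comp ((h.add_const _).div_const η)).add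
    ((bmp_cont.continuousAt.comp (h.div_const η)).const_mul _)

theorem f0_chi (hs : 0 < s) (hs1 : s < 1) (hη : 0 < η) (h4 : 4 * η < La s) :
    Chi s (fun z => √(f0 s η z)) := by
  have hc : 0 < 1 - s ^ 2 := by nlinarith
  have hm : (0 : ℝ) < (1 - s) ^ 2 := by
    have : 0 < 1 - s := by linarith
    positivity
  have hp : (0 : ℝ) < (1 + s) ^ 2 := by positivity
  have hL := Lam hs hs1
  have near : ∀ᶠ z in 𝓝 (1 - s ^ 2), f0 s η z = 1 / 2 := by
    have h0 : Real.log ((1 - s ^ 2) / (1 - s ^ 2)) = 0 := by rw [div_self hc.ne', Real.log_one]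
    have h1 := (lgc hc hc).eventually (Metric.ball_mem_nhds _ hη)
    filter_upwards [h1] with z hz
    rw [h0, dist_zero_right, Real.norm_eq_abs] at hz
    have e1 : bmp (Real.log (z / (1 - s ^ 2)) / η) = 1 := by
      refine bmp_in ?_
      rw [abs_div, abs_of_pos hη, div_le_one hη]; exact hz.le
    have e2 : bmp ((Real.log (z / (1 - s ^ 2)) + La s) / η) = 0 := by
      refine bmp_out (le_trans ?_ (le_abs_self _))
      rw [le_div_iff₀ hη]
      have := (abs_lt.1 hz).1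
      linarith
    unfold f0
    rw [e1, e2]; norm_num
  refine ⟨(f0_co hs hs1).sqrt, ?_, ?_, ?_, ?_⟩
  · have h1 := (lgc hc hm).eventually (Metric.ball_mem_nhds _ hη)
    filter_upwards [h1] with z hz
    rw [hL.1, Real.dist_eq, sub_neg_eq_add] at hz
    have hz' : |Real.log (z / (1 - s ^ 2)) + La s| < η := hz
    have e1 : bmp ((Real.log (z / (1 - s ^ 2)) + La s) / η) = 1 := by
      refine bmp_in ?_
      rw [abs_div, abs_of_pos hη, div_le_one hη]; exact hz'.le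
    have e2 : bmp (Real.log (z / (1 - s ^ 2)) / η) = 0 := by
      refine bmp_out (le_abs.2 (Or.inr ?_))
      rw [← neg_div, le_div_iff₀ hη]
      have := (abs_lt.1 hz').2
      linarith
    have : f0 s η z = 1 := by unfold f0; rw [e1, e2]; norm_num
    simp only [this, Real.sqrt_one]
  · have h1 := (lgc hc hp).eventually (Metric.ball_mem_nhds _ hη)
    filter_upwards [h1] with z hz
    rw [hL.2, Real.dist_eq] at hz
    have hz' : |Real.log (z / (1 - s ^ 2)) - La s| < η := hz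
    have h2 := (abs_lt.1 hz').1
    have e1 : bmp ((Real.log (z / (1 - s ^ 2)) + La s) / η) = 0 := by
      refine bmp_out (le_trans ?_ (le_abs_self _))
      rw [le_div_iff₀ hη]; linarith
    have e2 : bmp (Real.log (z / (1 - s ^ 2)) / η) = 0 := by
      refine bmp_out (le_trans ?_ (le_abs_self _))
      rw [le_div_iff₀ hη]; linarith
    have : f0 s η z = 0 := by unfold f0; rw [e1, e2]; norm_num
    simp only [this, Real.sqrt_zero]
  · simp only [near.self_of_nhds]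
  · refine DifferentiableAt.congr_of_eventuallyEq (f := fun _ => √(1 / 2)) (by fun_prop) ?_
    filter_upwards [near] with z hz
    simp only [hz]

end

end Pool.Agent.Run7.h9.JF
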