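import Pool.Agent.Run7.h9.JF.An3

/-! The estimates for the test functions concentrated at the exceptional frequencies. -/
set_option autoImplicit false
open MeasureTheory Filter Topology Polynomial

namespace Pool.Agent.Run7.h9.JF

open Pool.Agent.Y265.HY.JC (gI cnt)
open Pool.Agent.Run7.h9.TC

noncomputable section

variable {s η δ : ℝ}

/-- the smaller frequency over `X` -/
def zm (s X : ℝ) : ℝ := (2 + 2 * s ^ 2 - X - √((4 - X) * (4 * s ^ 2 - X))) / 2

lemma zm_c : Continuous (zm s) := by unfold zm; fun_prop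

lemma zm_eq {x y Y : ℝ} (h1 : x + y = 2 + 2 * s ^ 2 - Y) (h2 : x * y = (1 - s ^ 2) ^ 2)
    (h : x ≤ y) : x = zm s Y := by
  have e : (4 - Y) * (4 * s ^ 2 - Y) = (y - x) ^ 2 := by
    have : (y - x) ^ 2 = (x + y) ^ 2 - 4 * (x * y) := by ring
    rw [this, h1, h2]; ring
  unfold zm
  rw [e, Real.sqrt_sq (by linarith)]
  linarith

lemma zm_0 (hs : 0 < s) : zm s 0 = (1 - s) ^ 2 :=
  (zm_eq (x := (1 - s) ^ 2) (y := (1 + s) ^ 2) (by ring) (by ring) (by nlinarith)).symm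

lemma zm_4 : zm s (4 * s ^ 2) = 1 - s ^ 2 :=
  (zm_eq (x := 1 - s ^ 2) (y := 1 - s ^ 2) (by ring) (by ring) le_rfl).symm

lemma zm_pos (hs : 0 < s) (hs1 : s < 1) {X : ℝ} (hX : X ∈ Set.Icc 0 (4 * s ^ 2)) :
    0 < zm s X := by
  obtain ⟨x, y, h1, h2, x1, x2, y1, y2, px, py⟩ := roots2 hs hs1 hX.1 hX.2
  rw [← zm_eq h1 h2 (by linarith)]
  have : 0 < 1 - s := by linarith
  exact lt_of_lt_of_le (by positivity) x1

/-- the remaining weight -/
def vz (s η X : ℝ) : ℝ := 1 - bmp ((Real.log (zm s X / (1 - s ^ 2)) + La s) / η) -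
  bmp (Real.log (zm s X / (1 - s ^ 2)) / η)

lemma vz_0 (hη : 0 < η) (h4 : 4 * η < La s) (X : ℝ) : 0 ≤ vz s η X := by
  have := disj hη h4 (l := Real.log (zm s X / (1 - s ^ 2)))
  unfold vz; linarith

lemma vz_1 (X : ℝ) : vz s η X ≤ 1 := by
  have h1 := bmp_0 ((Real.log (zm s X / (1 - s ^ 2)) + La s) / η)
  have h2 := bmp_0 (Real.log (zm s X / (1 - s ^ 2)) / η)
  unfold vz; linarith

lemma lz_c (hc : 0 < 1 - s ^ 2) {X : ℝ} (h : 0 < zm s X) :
    ContinuousAt (fun X => Real.log (zm s X / (1 - s ^ 2))) X :=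
  (zm_c.continuousAt.div_const _).log (by positivity)

lemma vz_c (hc : 0 < 1 - s ^ 2) {X : ℝ} (h : 0 < zm s X) : ContinuousAt (vz s η) X := by
  have h1 := lz_c hc h
  unfold vz
  exact (continuousAt_const.sub (bmp_cont.continuousAt.comp ((h1.add_const _).div_const η))).sub
    (bmp_cont.continuousAt.comp (h1.div_const η))

lemma vz_near0 (hs : 0 < s) (hs1 : s < 1) (hη : 0 < η) (h4 : 4 * η < La s) :
    ∀ᶠ X in 𝓝 0, vz s η X = 0 := by
  have hc : 0 < 1 - s ^ 2 := by nlinarith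
  have hm : (0 : ℝ) < (1 - s) ^ 2 := by
    have : 0 < 1 - s := by linarith
    positivity
  have hz : 0 < zm s 0 := by rw [zm_0 hs]; exact hm
  have h1 := (lz_c hc hz).eventually (Metric.ball_mem_nhds _ hη)
  filter_upwards [h1] with X hX
  rw [zm_0 hs, (Lam hs hs1).1, Real.dist_eq, sub_neg_eq_add] at hX
  have hX' : |Real.log (zm s X / (1 - s ^ 2)) + La s| < η := hX
  have e1 : bmp ((Real.log (zm s X / (1 - s ^ 2)) + La s) / η) = 1 := by
    refine bmp_in ?_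
    rw [abs_div, abs_of_pos hη, div_le_one hη]; exact hX'.le
  have e2 : bmp (Real.log (zm s X / (1 - s ^ 2)) / η) = 0 := by
    refine bmp_out (le_abs.2 (Or.inr ?_))
    rw [← neg_div, le_div_iff₀ hη]
    have := (abs_lt.1 hX').2
    linarith
  unfold vz; rw [e1, e2]; norm_num

lemma vz_near4 (hs : 0 < s) (hs1 : s < 1) (hη : 0 < η) (h4 : 4 * η < La s) :
    ∀ᶠ X in 𝓝 (4 * s ^ 2), vz s η X = 0 := by
  have hc : 0 < 1 - s ^ 2 := by nlinarith
  have hz : 0 < zm s (4 * s ^ 2) := by rw [zm_4]; exact hc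
  have h1 := (lz_c hc hz).eventually (Metric.ball_mem_nhds _ hη)
  filter_upwards [h1] with X hX
  rw [zm_4, div_self hc.ne', Real.log_one, dist_zero_right, Real.norm_eq_abs] at hX
  have e1 : bmp (Real.log (zm s X / (1 - s ^ 2)) / η) = 1 := by
    refine bmp_in ?_
    rw [abs_div, abs_of_pos hη, div_le_one hη]; exact hX.le
  have e2 : bmp ((Real.log (zm s X / (1 - s ^ 2)) + La s) / η) = 0 := by
    refine bmp_out (le_trans ?_ (le_abs_self _))
    rw [le_div_iff₀ hη]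
    have := (abs_lt.1 hX).1
    linarith
  unfold vz; rw [e1, e2]; norm_num

/-- `G` is admissible -/
def Adm0 (s η δ : ℝ) (G : ℝ[X]) : Prop :=
  ∀ z ∈ Set.Icc ((1 - s) ^ 2) ((1 + s) ^ 2), |(Fr s G).eval z - √(f0 s η z)| ≤
      δ * |(z - (1 - s) ^ 2) ^ 2 * (z - (1 + s) ^ 2) * (z ^ 2 - (1 - s ^ 2) ^ 2)|

lemma sq_close0 (hs : 0 < s) (hs1 : s < 1) (hη : 0 < η) (h4 : 4 * η < La s) (hδ : 0 ≤ δ)
    (hδ1 : δ ≤ 1 / 1024) {G : ℝ[X]} (h : Adm0 s η δ G) {z : ℝ}
    (hz : z ∈ Set.Icc ((1 - s) ^ 2) ((1 + s) ^ 2)) :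
    |(Fr s G).eval z ^ 2 - f0 s η z| ≤ 192 * δ * |(z - (1 - s) ^ 2) * (z - (1 + s) ^ 2)| := by
  have h0 := f0_0 s η z
  have x1 : √(f0 s η z) ≤ 1 := by
    rw [← Real.sqrt_one]
    exact Real.sqrt_le_sqrt (f0_1 hη h4 z)
  have := sq_closeG hs hs1 hδ hδ1 (Real.sqrt_nonneg _) x1 (h z hz) hz
  rwa [Real.sq_sqrt h0] at this

lemma p_close (hs : 0 < s) (hs1 : s < 1) (hη : 0 < η) (h4 : 4 * η < La s) (hδ : 0 ≤ δ)
    (hδ1 : δ ≤ 1 / 1024) {G p : ℝ[X]} (h : Adm0 s η δ G)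
    (hp : EM s (Fr s G ^ 2) = 1 - PP * p) {Y : ℝ} (hY0 : 0 < Y) (hY : Y ≤ 4 * s ^ 2) :
    |p.eval Y - vz s η Y / (Y * (4 - Y))| ≤ 1536 * δ / (4 - 4 * s ^ 2) := by
  have hc : 0 < 1 - s ^ 2 := by nlinarith
  obtain ⟨x, y, h1, h2, x1, x2, y1, y2, px, py⟩ := roots2 hs hs1 hY0.le hY
  have hm : (0 : ℝ) < (1 - s) ^ 2 := by
    have : 0 < 1 - s := by linarith
    positivity
  have x0 : 0 < x := by linarith
  have y0 : 0 < y := by linarith
  have x4 : x ≤ 4 := by nlinarith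
  have y4 : y ≤ 4 := by nlinarith
  have k1 := sq_close0 hs hs1 hη h4 hδ hδ1 h (z := x) ⟨x1, by linarith⟩
  have k2 := sq_close0 hs hs1 hη h4 hδ hδ1 h (z := y) ⟨by linarith, y2⟩
  rw [px, abs_neg, abs_of_nonneg (show 0 ≤ Y * x by positivity)] at k1
  rw [py, abs_neg, abs_of_nonneg (show 0 ≤ Y * y by positivity)] at k2
  have hx := zm_eq h1 h2 (by linarith : x ≤ y)
  have hsum : f0 s η x + f0 s η y = 1 - vz s η Y := by
    have e : y / (1 - s ^ 2) = (x / (1 - s ^ 2))⁻¹ := by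
      field_simp
      linear_combination h2
    have l0 : Real.log (x / (1 - s ^ 2)) ≤ 0 := by
      refine Real.log_nonpos (by positivity) ?_
      rw [div_le_one hc]; exact x2
    have e2 : bmp ((-Real.log (x / (1 - s ^ 2)) + La s) / η) = 0 := by
      refine bmp_out (le_trans ?_ (le_abs_self _))
      rw [le_div_iff₀ hη]
      linarith
    unfold vz f0
    rw [← hx, e, Real.log_inv, e2, neg_div, bmp_neg]
    ring
  have hR : Y * (4 - Y) * p.eval Y = 1 - (Fr s G).eval x ^ 2 - (Fr s G).eval y ^ 2 := by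
    rw [← R_ev G h1 h2, hp]
    unfold PP
    have c4 : (4 : ℝ[X]) = C 4 := (map_ofNat C 4).symm
    rw [c4]
    simp
  have e : Y * (4 - Y) * p.eval Y - vz s η Y = -((Fr s G).eval x ^ 2 - f0 s η x) -
      ((Fr s G).eval y ^ 2 - f0 s η y) := by
    rw [hR]; linarith
  have h3 : |Y * (4 - Y) * p.eval Y - vz s η Y| ≤ 192 * δ * (Y * x) + 192 * δ * (Y * y) := by
    rw [e]
    have := abs_sub (-((Fr s G).eval x ^ 2 - f0 s η x)) ((Fr s G).eval y ^ 2 - f0 s η y)
    rw [abs_neg] at this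
    linarith
  have h5 : 0 < 4 - 4 * s ^ 2 := by linarith
  have h6 : 4 - 4 * s ^ 2 ≤ 4 - Y := by linarith
  have h7 : 0 < 4 - Y := by linarith
  have e3 : p.eval Y - vz s η Y / (Y * (4 - Y)) =
      (Y * (4 - Y) * p.eval Y - vz s η Y) / (Y * (4 - Y)) := by
    field_simp
  rw [e3, abs_div, abs_of_pos (mul_pos hY0 h7), div_le_div_iff₀ (mul_pos hY0 h7) h5]
  calc _ ≤ (192 * δ * (Y * x) + 192 * δ * (Y * y)) * (4 - 4 * s ^ 2) := by gcongr
    _ ≤ (192 * δ * (Y * 4) + 192 * δ * (Y * 4)) * (4 - Y) := by gcongr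
    _ = 1536 * δ * (Y * (4 - Y)) := by ring

/-- from the half-open interval to the closed one, and the integral -/
lemma gI_of {q : ℝ[X]} (hs : 0 < s) {B : ℝ} (hB : 0 ≤ B)
    (h : ∀ Y ∈ Set.Ioc 0 (4 * s ^ 2), |q.eval Y| ≤ B) : gI (q.comp (C (s * s) * X)) ≤ 2 * B ^ 2 := by
  have h' : ∀ Y ∈ Set.Icc 0 (4 * s ^ 2), |q.eval Y| ≤ B := by
    intro Y hY
    rcases hY.1.eq_or_lt with h0 | h0
    · rw [← h0]
      have l1 : Tendsto (fun Y : ℝ => |q.eval Y|) (𝓝[>] 0) (𝓝 |q.eval 0|) :=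
        (q.continuous.abs.tendsto 0).mono_left nhdsWithin_le_nhds
      refine le_of_tendsto l1 ?_
      have : Set.Ioc (0 : ℝ) (4 * s ^ 2) ∈ 𝓝[>] (0 : ℝ) := Ioc_mem_nhdsGT (by positivity)
      filter_upwards [this] with Y hY
      exact h Y hY
    · exact h Y ⟨h0, hY.2⟩
  have key : ∀ θ : ℝ, (q.comp (C (s * s) * X)).eval (2 - 2 * Real.cos θ) ^ 2 ≤ B ^ 2 := by
    intro θ
    have c1 := Real.cos_le_one θ
    have c2 := Real.neg_one_le_cos θ
    have e : (q.comp (C (s * s) * X)).eval (2 - 2 * Real.cos θ) =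
        q.eval (s * s * (2 - 2 * Real.cos θ)) := by
      simp only [Polynomial.eval_comp, Polynomial.eval_mul, Polynomial.eval_X, Polynomial.eval_C]
    rw [e, ← sq_abs]
    exact pow_le_pow_left₀ (abs_nonneg _) (h' _ ⟨mul_nonneg (by positivity) (by linarith),
      by nlinarith [mul_pos hs hs]⟩) 2
  unfold gI
  have i1 : IntervalIntegrable (fun θ : ℝ => (q.comp (C (s * s) * X)).eval
      (2 - 2 * Real.cos θ) ^ 2) volume 0 (2 * Real.pi) :=
    (((q.comp (C (s * s) * X)).continuous.comp (by fun_prop :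
      Continuous fun θ : ℝ => 2 - 2 * Real.cos θ)).pow 2).intervalIntegrable _ _
  have i2 : IntervalIntegrable (fun _ : ℝ => B ^ 2) volume 0 (2 * Real.pi) :=
    continuous_const.intervalIntegrable _ _
  have h1 := intervalIntegral.integral_mono_on (by positivity : (0 : ℝ) ≤ 2 * Real.pi) i1 i2
    fun θ _ => key θ
  rw [intervalIntegral.integral_const, smul_eq_mul, sub_zero] at h1
  have hpi := Real.pi_pos
  calc 1 / Real.pi * _ ≤ 1 / Real.pi * (2 * Real.pi * B ^ 2) := by gcongr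
    _ = 2 * B ^ 2 := by field_simp

lemma f0_zc (hs : 0 < s) (hs1 : s < 1) :
    Continuous fun θ : ℝ => f0 s η (1 + s ^ 2 + 2 * s * Real.cos θ) := by
  rw [continuous_iff_continuousAt]
  intro θ
  have h1 := (zr s θ).resolve_right (by linarith)
  have hm : (0 : ℝ) < (1 - s) ^ 2 := by
    have : 0 < 1 - s := by linarith
    positivity
  have h2 : ContinuousAt (f0 s η) (1 + s ^ 2 + 2 * s * Real.cos θ) :=
    (f0_co hs hs1).continuousAt (Ioi_mem_nhds (lt_of_lt_of_le hm h1.1))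
  exact ContinuousAt.comp (f := fun θ : ℝ => 1 + s ^ 2 + 2 * s * Real.cos θ) h2
    (by fun_prop)

lemma WI_bd0 (hs : 0 < s) (hs1 : s < 1) (hη : 0 < η) (h4 : 4 * η < La s) (hδ : 0 ≤ δ)
    (hδ1 : δ ≤ 1 / 1024) {G : ℝ[X]} (h : Adm0 s η δ G) : WI (Fr s G) s ≤ 1 / (2 * Real.pi) *
      (∫ θ in (0 : ℝ)..(2 * Real.pi), f0 s η (1 + s ^ 2 + 2 * s * Real.cos θ)) +
      3072 * δ := by
  have hpi := Real.pi_pos
  have i1 : IntervalIntegrable (fun θ : ℝ => (Fr s G).eval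
      (1 + s ^ 2 + 2 * s * Real.cos θ) ^ 2) volume 0 (2 * Real.pi) :=
    (((Fr s G).continuous.comp (by fun_prop :
      Continuous fun θ : ℝ => 1 + s ^ 2 + 2 * s * Real.cos θ)).pow 2).intervalIntegrable _ _
  have i2 : IntervalIntegrable (fun θ : ℝ => f0 s η (1 + s ^ 2 + 2 * s * Real.cos θ))
      volume 0 (2 * Real.pi) := (f0_zc hs hs1).intervalIntegrable _ _
  have i3 : IntervalIntegrable (fun _ : ℝ => 3072 * δ) volume 0 (2 * Real.pi) :=
    continuous_const.intervalIntegrable _ _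
  have key : ∀ θ : ℝ, (Fr s G).eval (1 + s ^ 2 + 2 * s * Real.cos θ) ^ 2 ≤
      f0 s η (1 + s ^ 2 + 2 * s * Real.cos θ) + 3072 * δ := by
    intro θ
    have h1 := (zr s θ).resolve_right (by linarith)
    have h2 := sq_close0 hs hs1 hη h4 hδ hδ1 h h1
    obtain ⟨z, hz⟩ : ∃ z, z = 1 + s ^ 2 + 2 * s * Real.cos θ := ⟨_, rfl⟩
    rw [← hz] at h1 h2 ⊢
    have z0 : 0 ≤ z := (sq_nonneg _).trans h1.1
    have z4 : z ≤ 4 := h1.2.trans (by nlinarith)
    have m0 : 0 ≤ (1 - s) ^ 2 := sq_nonneg _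
    have p4 : (1 + s) ^ 2 ≤ 4 := by nlinarith
    have a1 : |z - (1 - s) ^ 2| ≤ 4 := by rw [abs_le]; constructor <;> linarith [h1.1]
    have a3 : |z - (1 + s) ^ 2| ≤ 4 := by rw [abs_le]; constructor <;> linarith [h1.2]
    have P16 : |(z - (1 - s) ^ 2) * (z - (1 + s) ^ 2)| ≤ 16 := by
      rw [abs_mul]
      calc _ ≤ 4 * 4 := mul_le_mul a1 a3 (abs_nonneg _) (by norm_num)
        _ = 16 := by norm_num
    have h3 : 192 * δ * |(z - (1 - s) ^ 2) * (z - (1 + s) ^ 2)| ≤ 192 * δ * 16 := by gcongr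
    have h4 := le_abs_self ((Fr s G).eval z ^ 2 - f0 s η z)
    linarith
  have h1 := intervalIntegral.integral_mono_on (by positivity : (0 : ℝ) ≤ 2 * Real.pi) i1
    (i2.add i3) fun θ _ => key θ
  rw [intervalIntegral.integral_add i2 i3, intervalIntegral.integral_const, smul_eq_mul,
    sub_zero] at h1
  unfold WI
  calc 1 / (2 * Real.pi) * _ ≤ 1 / (2 * Real.pi) * _ := mul_le_mul_of_nonneg_left h1 (by positivity)
    _ = _ := by field_simp

/-- the Gaussian mass of the weight is small -/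
lemma f0_int (hs : 0 < s) (hs1 : s < 1) : Tendsto (fun η : ℝ =>
    ∫ θ in (0 : ℝ)..(2 * Real.pi), f0 s η (1 + s ^ 2 + 2 * s * Real.cos θ)) (𝓝[>] 0) (𝓝 0) := by
  have hc : 0 < 1 - s ^ 2 := by nlinarith
  have hm : (0 : ℝ) < (1 - s) ^ 2 := by
    have : 0 < 1 - s := by linarith
    positivity
  have e0 : (∫ _θ in (0 : ℝ)..(2 * Real.pi), (0 : ℝ)) = 0 := by simp
  suffices hs' : Tendsto (fun η : ℝ =>
      ∫ θ in (0 : ℝ)..(2 * Real.pi), f0 s η (1 + s ^ 2 + 2 * s * Real.cos θ)) (𝓝[>] 0)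
      (𝓝 (∫ _θ in (0 : ℝ)..(2 * Real.pi), (0 : ℝ))) by rw [e0] at hs'; exact hs'
  refine intervalIntegral.tendsto_integral_filter_of_dominated_convergence (fun _ => 2)
    (Eventually.of_forall fun η => (f0_zc hs hs1).aestronglyMeasurable)
    (Eventually.of_forall fun η => Eventually.of_forall fun θ _ => ?_)
    ((continuous_const (y := (2 : ℝ))).intervalIntegrable (μ := volume) _ _) ?_
  · rw [Real.norm_eq_abs, abs_of_nonneg (f0_0 _ _ _)]
    have h1 := bmp_1 ((Real.log ((1 + s ^ 2 + 2 * s * Real.cos θ) / (1 - s ^ 2)) + La s) / η)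
    have h2 := bmp_1 (Real.log ((1 + s ^ 2 + 2 * s * Real.cos θ) / (1 - s ^ 2)) / η)
    unfold f0; linarith
  · have n1 : ∀ᵐ θ : ℝ, Real.cos θ ≠ -s := by
      have := (cnt (-s)).ae_notMem (volume : Measure ℝ)
      filter_upwards [this] with θ hθ h
      exact hθ h
    have n2 : ∀ᵐ θ : ℝ, Real.cos θ ≠ -1 := by
      have := (cnt (-1)).ae_notMem (volume : Measure ℝ)
      filter_upwards [this] with θ hθ h
      exact hθ h
    filter_upwards [n1, n2] with θ h1 h2 _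
    obtain ⟨z, hz⟩ : ∃ z, z = 1 + s ^ 2 + 2 * s * Real.cos θ := ⟨_, rfl⟩
    have hz1 := (zr s θ).resolve_right (by linarith)
    rw [← hz] at hz1 ⊢
    have z0 : 0 < z := lt_of_lt_of_le hm hz1.1
    have zc : z ≠ 1 - s ^ 2 := by
      intro h
      apply h1
      have : 2 * s * (Real.cos θ + s) = 0 := by rw [hz] at h; linarith
      have := (mul_eq_zero.1 this).resolve_left (by positivity)
      linarith
    have zm' : z ≠ (1 - s) ^ 2 := by
      intro h
      apply h2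
      have : 2 * s * (Real.cos θ + 1) = 0 := by rw [hz] at h; linarith
      have := (mul_eq_zero.1 this).resolve_left (by positivity)
      linarith
    have l1 : Real.log (z / (1 - s ^ 2)) ≠ 0 := by
      refine Real.log_ne_zero_of_pos_of_ne_one (by positivity) ?_
      rw [Ne, div_eq_one_iff_eq hc.ne']; exact zc
    have l2 : Real.log (z / (1 - s ^ 2)) + La s ≠ 0 := by
      intro h
      have e : Real.log (z / (1 - s ^ 2)) = Real.log ((1 - s) ^ 2 / (1 - s ^ 2)) := by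
        rw [(Lam hs hs1).1]
        have : La s = Real.log ((1 + s) / (1 - s)) := rfl
        linarith
      have e2 := Real.log_injOn_pos (show 0 < z / (1 - s ^ 2) by positivity)
        (show 0 < (1 - s) ^ 2 / (1 - s ^ 2) by positivity) e
      rw [div_left_inj' hc.ne'] at e2
      exact zm' e2
    have big : ∀ l : ℝ, l ≠ 0 → ∀ᶠ η : ℝ in 𝓝[>] 0, bmp (l / η) = 0 := by
      intro l hl
      have h1 : ∀ᶠ η : ℝ in 𝓝[>] 0, η < |l| / 2 :=
        (gt_mem_nhds (show (0 : ℝ) < |l| / 2 by positivity)).filter_mono nhdsWithin_le_nhds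
      have h2 : ∀ᶠ η : ℝ in 𝓝[>] 0, 0 < η := eventually_mem_nhdsWithin
      filter_upwards [h1, h2] with η h3 h4
      refine bmp_out ?_
      rw [abs_div, abs_of_pos h4, le_div_iff₀ h4]
      linarith
    refine tendsto_const_nhds.congr' ?_
    filter_upwards [big _ l1, big _ l2] with η h3 h4
    unfold f0
    rw [h3, h4]; norm_num

end

end Pool.Agent.Run7.h9.JF
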