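import Pool.Agent.Run7.h9.JF.Mn

/-! A one-parameter family of test functions between the two bounds. -/
set_option autoImplicit false
open MeasureTheory Filter Topology Polynomial

namespace Pool.Agent.Run7.h9.JF

open Pool.Agent.Y265.HY.JC (gI cnt)
open Pool.Agent.Run7.h9.TC

noncomputable section

variable {s η δ κ ρ : ℝ}

/-- the cutoff: one below `κ`, zero above `κ + ρ` -/
def cut (κ ρ z : ℝ) : ℝ := max 0 (min 1 ((κ + ρ - z) / ρ))

lemma cut_0 (κ ρ z : ℝ) : 0 ≤ cut κ ρ z := le_max_left _ _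
lemma cut_1 (κ ρ z : ℝ) : cut κ ρ z ≤ 1 := max_le zero_le_one (min_le_left _ _)
lemma cut_c (κ ρ : ℝ) : Continuous (cut κ ρ) := by unfold cut; fun_prop
lemma cut_hi {z : ℝ} (hρ : 0 < ρ) (h : κ + ρ ≤ z) : cut κ ρ z = 0 := by
  have h1 : (κ + ρ - z) / ρ ≤ 0 := div_nonpos_of_nonpos_of_nonneg (by linarith) hρ.le
  unfold cut
  rw [max_eq_left ((min_le_right _ _).trans h1)]
lemma cut_lo {z : ℝ} (hρ : 0 < ρ) (h : z ≤ κ) : cut κ ρ z = 1 := by
  have h1 : 1 ≤ (κ + ρ - z) / ρ := by rw [le_div_iff₀ hρ]; linarith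
  unfold cut
  rw [min_eq_left h1, max_eq_right zero_le_one]

/-- the remaining weight as a function of the frequency -/
def uu (s η z : ℝ) : ℝ := 1 - bmp ((Real.log (z / (1 - s ^ 2)) + La s) / η) -
  bmp (Real.log (z / (1 - s ^ 2)) / η)

lemma uu_0 (hη : 0 < η) (h4 : 4 * η < La s) (z : ℝ) : 0 ≤ uu s η z := by
  have := disj hη h4 (l := Real.log (z / (1 - s ^ 2)))
  unfold uu; linarith

lemma uu_1 (z : ℝ) : uu s η z ≤ 1 := by
  have h1 := bmp_0 ((Real.log (z / (1 - s ^ 2)) + La s) / η)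
  have h2 := bmp_0 (Real.log (z / (1 - s ^ 2)) / η)
  unfold uu; linarith

/-- the weight -/
def f1 (s η κ ρ z : ℝ) : ℝ := f0 s η z + uu s η z * cut κ ρ z

lemma f1_0 (hη : 0 < η) (h4 : 4 * η < La s) (z : ℝ) : 0 ≤ f1 s η κ ρ z :=
  add_nonneg (f0_0 _ _ _) (mul_nonneg (uu_0 hη h4 z) (cut_0 _ _ _))

lemma f1_1 (hη : 0 < η) (h4 : 4 * η < La s) (z : ℝ) : f1 s η κ ρ z ≤ 1 := by
  have h1 := mul_le_mul_of_nonneg_left (cut_1 κ ρ z) (uu_0 hη h4 z)
  have h2 := bmp_0 (Real.log (z / (1 - s ^ 2)) / η)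
  unfold f1
  have h3 : f0 s η z + uu s η z ≤ 1 := by unfold f0 uu; linarith
  linarith

lemma uu_co {z : ℝ} (hc : 0 < 1 - s ^ 2) (hz : 0 < z) : ContinuousAt (uu s η) z := by
  have h1 := lgc hc hz
  unfold uu
  exact (continuousAt_const.sub (bmp_cont.continuousAt.comp ((h1.add_const _).div_const η))).sub
    (bmp_cont.continuousAt.comp (h1.div_const η))

lemma f1_co (hs : 0 < s) (hs1 : s < 1) {z : ℝ} (hz : 0 < z) : ContinuousAt (f1 s η κ ρ) z := by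
  have hc : 0 < 1 - s ^ 2 := by nlinarith
  exact ((f0_co hs hs1).continuousAt (Ioi_mem_nhds hz)).add
    ((uu_co hc hz).mul (cut_c κ ρ).continuousAt)

theorem f1_chi (hs : 0 < s) (hs1 : s < 1) (hη : 0 < η) (h4 : 4 * η < La s) (hρ : 0 < ρ)
    (hk : κ + ρ ≤ 1 - s ^ 2) : Chi s (fun z => √(f1 s η κ ρ z)) := by
  have hc : 0 < 1 - s ^ 2 := by nlinarith
  have h0 := f0_chi hs hs1 hη h4
  have near : ∀ᶠ z in 𝓝 (1 - s ^ 2), f1 s η κ ρ z = f0 s η z := by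
    have h0 : Real.log ((1 - s ^ 2) / (1 - s ^ 2)) = 0 := by rw [div_self hc.ne', Real.log_one]
    have h1 := (lgc hc hc).eventually (Metric.ball_mem_nhds _ hη)
    filter_upwards [h1] with z hz
    rw [h0, dist_zero_right, Real.norm_eq_abs] at hz
    have e1 : bmp (Real.log (z / (1 - s ^ 2)) / η) = 1 := by
      refine bmp_in ?_
      rw [abs_div, abs_of_pos hη, div_le_one hη]; exact hz.le
    have e2 : bmp ((Real.log (z / (1 - s ^ 2)) + La s) / η) = 0 := by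
      refine bmp_out (le_trans ?_ (le_abs_self _))
      rw [le_div_iff₀ hη]
      have := (abs_lt.1 hz).1
      linarith
    unfold f1 uu
    rw [e1, e2]; norm_num
  refine ⟨?_, ?_, ?_, ?_, ?_⟩
  · intro z hz
    exact (f1_co hs hs1 hz).sqrt.continuousWithinAt
  · filter_upwards [h0.m] with z hz
    have h1 : f0 s η z = 1 := by
      have h2 := Real.mul_self_sqrt (f0_0 s η z)
      rw [hz] at h2; linarith
    have h2 := bmp_0 (Real.log (z / (1 - s ^ 2)) / η)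
    have h3 := disj hη h4 (l := Real.log (z / (1 - s ^ 2)))
    have h5 : uu s η z = 0 := by
      unfold f0 at h1
      unfold uu; linarith
    have h6 : f1 s η κ ρ z = 1 := by unfold f1; rw [h1, h5]; ring
    rw [h6, Real.sqrt_one]
  · have hp : 1 - s ^ 2 < (1 + s) ^ 2 := by nlinarith
    filter_upwards [h0.p, lt_mem_nhds hp] with z hz hz2
    have h6 : f1 s η κ ρ z = f0 s η z := by
      unfold f1; rw [cut_hi hρ (by linarith)]; ring
    rw [h6]; exact hz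
  · have := h0.v
    rw [near.self_of_nhds]; exact this
  · refine DifferentiableAt.congr_of_eventuallyEq h0.d ?_
    filter_upwards [near] with z hz
    rw [hz]

lemma f0_sum (hs : 0 < s) (hs1 : s < 1) (hη : 0 < η) (h4 : 4 * η < La s) {x y Y : ℝ}
    (h1 : x + y = 2 + 2 * s ^ 2 - Y) (h2 : x * y = (1 - s ^ 2) ^ 2) (x0 : 0 < x)
    (x2 : x ≤ 1 - s ^ 2) (y1 : 1 - s ^ 2 ≤ y) : f0 s η x + f0 s η y = 1 - vz s η Y := by
  have hc : 0 < 1 - s ^ 2 := by nlinarith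
  have hx := zm_eq h1 h2 (by linarith : x ≤ y)
  have e : y / (1 - s ^ 2) = (x / (1 - s ^ 2))⁻¹ := by
    field_simp
    linear_combination h2
  have l0 : Real.log (x / (1 - s ^ 2)) ≤ 0 := by
    refine Real.log_nonpos (by positivity) ?_
    rw [div_le_one hc]; exact x2
  have e2 : bmp ((-Real.log (x / (1 - s ^ 2)) + La s) / η) = 0 := by
    refine bmp_out (le_trans ?_ (le_abs_self _))
    rw [le_div_iff₀ hη]
    linarith
  unfold vz f0
  rw [← hx, e, Real.log_inv, e2, neg_div, bmp_neg]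
  ring

/-- the weight of the pair of squares -/
def v1 (s η κ ρ Y : ℝ) : ℝ := vz s η Y * (1 - cut κ ρ (zm s Y))

lemma v1_0 (hη : 0 < η) (h4 : 4 * η < La s) (Y : ℝ) : 0 ≤ v1 s η κ ρ Y :=
  mul_nonneg (vz_0 hη h4 Y) (by linarith [cut_1 κ ρ (zm s Y)])

lemma v1_1 (hη : 0 < η) (h4 : 4 * η < La s) (Y : ℝ) : v1 s η κ ρ Y ≤ 1 := by
  have h1 := vz_0 hη h4 Y
  have h2 := vz_1 (s := s) (η := η) Y
  have h3 := cut_0 κ ρ (zm s Y)
  have h5 := cut_1 κ ρ (zm s Y)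
  unfold v1
  calc _ ≤ 1 * 1 := mul_le_mul h2 (by linarith) (by linarith) zero_le_one
    _ = 1 := one_mul _

lemma f1_sum (hs : 0 < s) (hs1 : s < 1) (hη : 0 < η) (h4 : 4 * η < La s) (hρ : 0 < ρ)
    (hk : κ + ρ ≤ 1 - s ^ 2) {x y Y : ℝ}
    (h1 : x + y = 2 + 2 * s ^ 2 - Y) (h2 : x * y = (1 - s ^ 2) ^ 2) (x0 : 0 < x)
    (x2 : x ≤ 1 - s ^ 2) (y1 : 1 - s ^ 2 ≤ y) :
    f1 s η κ ρ x + f1 s η κ ρ y = 1 - v1 s η κ ρ Y := by
  have h := f0_sum hs hs1 hη h4 h1 h2 x0 x2 y1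
  have hx := zm_eq h1 h2 (by linarith : x ≤ y)
  have hu : uu s η x = vz s η Y := by unfold uu vz; rw [hx]
  unfold f1 v1
  rw [cut_hi hρ (by linarith : κ + ρ ≤ y), hu, ← hx]
  linarith

/-- `G` is admissible -/
def Adm1 (s : ℝ) (f : ℝ → ℝ) (δ : ℝ) (G : ℝ[X]) : Prop :=
  ∀ z ∈ Set.Icc ((1 - s) ^ 2) ((1 + s) ^ 2), |(Fr s G).eval z - √(f z)| ≤
      δ * |(z - (1 - s) ^ 2) ^ 2 * (z - (1 + s) ^ 2) * (z ^ 2 - (1 - s ^ 2) ^ 2)|

variable {f v : ℝ → ℝ}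

lemma sq_close1 (hs : 0 < s) (hs1 : s < 1) (f0' : ∀ z, 0 ≤ f z) (f1' : ∀ z, f z ≤ 1)
    (hδ : 0 ≤ δ) (hδ1 : δ ≤ 1 / 1024) {G : ℝ[X]} (h : Adm1 s f δ G) {z : ℝ}
    (hz : z ∈ Set.Icc ((1 - s) ^ 2) ((1 + s) ^ 2)) :
    |(Fr s G).eval z ^ 2 - f z| ≤ 192 * δ * |(z - (1 - s) ^ 2) * (z - (1 + s) ^ 2)| := by
  have x1 : √(f z) ≤ 1 := by
    rw [← Real.sqrt_one]
    exact Real.sqrt_le_sqrt (f1' z)
  have := sq_closeG hs hs1 hδ hδ1 (Real.sqrt_nonneg _) x1 (h z hz) hz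
  rwa [Real.sq_sqrt (f0' z)] at this

lemma p_close1 (hs : 0 < s) (hs1 : s < 1) (f0' : ∀ z, 0 ≤ f z) (f1' : ∀ z, f z ≤ 1)
    (hf : ∀ x y Y : ℝ, x + y = 2 + 2 * s ^ 2 - Y → x * y = (1 - s ^ 2) ^ 2 → 0 < x →
      x ≤ 1 - s ^ 2 → 1 - s ^ 2 ≤ y → f x + f y = 1 - v Y) (hδ : 0 ≤ δ)
    (hδ1 : δ ≤ 1 / 1024) {G p : ℝ[X]} (h : Adm1 s f δ G)
    (hp : EM s (Fr s G ^ 2) = 1 - PP * p) {Y : ℝ} (hY0 : 0 < Y) (hY : Y ≤ 4 * s ^ 2) :
    |p.eval Y - v Y / (Y * (4 - Y))| ≤ 1536 * δ / (4 - 4 * s ^ 2) := by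
  have hc : 0 < 1 - s ^ 2 := by nlinarith
  obtain ⟨x, y, h1, h2, x1, x2, y1, y2, px, py⟩ := roots2 hs hs1 hY0.le hY
  have hm : (0 : ℝ) < (1 - s) ^ 2 := by
    have : 0 < 1 - s := by linarith
    positivity
  have x0 : 0 < x := by linarith
  have y0 : 0 < y := by linarith
  have x4 : x ≤ 4 := by nlinarith
  have y4 : y ≤ 4 := by nlinarith
  have k1 := sq_close1 hs hs1 f0' f1' hδ hδ1 h (z := x) ⟨x1, by linarith⟩
  have k2 := sq_close1 hs hs1 f0' f1' hδ hδ1 h (z := y) ⟨by linarith, y2⟩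
  rw [px, abs_neg, abs_of_nonneg (show 0 ≤ Y * x by positivity)] at k1
  rw [py, abs_neg, abs_of_nonneg (show 0 ≤ Y * y by positivity)] at k2
  have hsum := hf x y Y h1 h2 x0 x2 y1
  have hR : Y * (4 - Y) * p.eval Y = 1 - (Fr s G).eval x ^ 2 - (Fr s G).eval y ^ 2 := by
    rw [← R_ev G h1 h2, hp, Polynomial.eval_sub, Polynomial.eval_one, Polynomial.eval_sub,
      Polynomial.eval_one, Polynomial.eval_mul, PP_ev]
    ring
  have e : Y * (4 - Y) * p.eval Y - v Y = -((Fr s G).eval x ^ 2 - f x) -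
      ((Fr s G).eval y ^ 2 - f y) := by
    rw [hR]; linarith
  have h3 : |Y * (4 - Y) * p.eval Y - v Y| ≤ 192 * δ * (Y * x) + 192 * δ * (Y * y) := by
    rw [e]
    have := abs_sub (-((Fr s G).eval x ^ 2 - f x)) ((Fr s G).eval y ^ 2 - f y)
    rw [abs_neg] at this
    linarith
  have h5 : 0 < 4 - 4 * s ^ 2 := by linarith
  have h6 : 4 - 4 * s ^ 2 ≤ 4 - Y := by linarith
  have h7 : 0 < 4 - Y := by linarith
  have e3 : p.eval Y - v Y / (Y * (4 - Y)) =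
      (Y * (4 - Y) * p.eval Y - v Y) / (Y * (4 - Y)) := by
    field_simp
  rw [e3, abs_div, abs_of_pos (mul_pos hY0 h7), div_le_div_iff₀ (mul_pos hY0 h7) h5]
  calc _ ≤ (192 * δ * (Y * x) + 192 * δ * (Y * y)) * (4 - 4 * s ^ 2) := by gcongr
    _ ≤ (192 * δ * (Y * 4) + 192 * δ * (Y * 4)) * (4 - Y) := by gcongr
    _ = 1536 * δ * (Y * (4 - Y)) := by ring

lemma WI_bd1 (hs : 0 < s) (hs1 : s < 1) (f0' : ∀ z, 0 ≤ f z) (f1' : ∀ z, f z ≤ 1)
    (fc : Continuous fun θ : ℝ => f (1 + s ^ 2 + 2 * s * Real.cos θ)) (hδ : 0 ≤ δ)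
    (hδ1 : δ ≤ 1 / 1024) {G : ℝ[X]} (h : Adm1 s f δ G) : WI (Fr s G) s ≤ 1 / (2 * Real.pi) *
      (∫ θ in (0 : ℝ)..(2 * Real.pi), f (1 + s ^ 2 + 2 * s * Real.cos θ)) +
      3072 * δ := by
  have hpi := Real.pi_pos
  have i1 : IntervalIntegrable (fun θ : ℝ => (Fr s G).eval
      (1 + s ^ 2 + 2 * s * Real.cos θ) ^ 2) volume 0 (2 * Real.pi) :=
    (((Fr s G).continuous.comp (by fun_prop :
      Continuous fun θ : ℝ => 1 + s ^ 2 + 2 * s * Real.cos θ)).pow 2).intervalIntegrable _ _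
  have i2 : IntervalIntegrable (fun θ : ℝ => f (1 + s ^ 2 + 2 * s * Real.cos θ))
      volume 0 (2 * Real.pi) := fc.intervalIntegrable _ _
  have i3 : IntervalIntegrable (fun _ : ℝ => 3072 * δ) volume 0 (2 * Real.pi) :=
    continuous_const.intervalIntegrable _ _
  have key : ∀ θ : ℝ, (Fr s G).eval (1 + s ^ 2 + 2 * s * Real.cos θ) ^ 2 ≤
      f (1 + s ^ 2 + 2 * s * Real.cos θ) + 3072 * δ := by
    intro θ
    have h1 := (zr s θ).resolve_right (by linarith)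
    have h2 := sq_close1 hs hs1 f0' f1' hδ hδ1 h h1
    obtain ⟨z, hz⟩ : ∃ z, z = 1 + s ^ 2 + 2 * s * Real.cos θ := ⟨_, rfl⟩
    rw [← hz] at h1 h2 ⊢
    have z0 : 0 ≤ z := (sq_nonneg _).trans h1.1
    have z4 : z ≤ 4 := h1.2.trans (by nlinarith)
    have m0 : 0 ≤ (1 - s) ^ 2 := sq_nonneg _
    have p4 : (1 + s) ^ 2 ≤ 4 := by nlinarith
    have a1 : |z - (1 - s) ^ 2| ≤ 4 := by rw [abs_le]; constructor <;> linarith [h1.1]
    have a3 : |z - (1 + s) ^ 2| ≤ 4 := by rw [abs_le]; constructor <;> linarith [h1.2]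
    have P16 : |(z - (1 - s) ^ 2) * (z - (1 + s) ^ 2)| ≤ 16 := by
      rw [abs_mul]
      calc _ ≤ 4 * 4 := mul_le_mul a1 a3 (abs_nonneg _) (by norm_num)
        _ = 16 := by norm_num
    have h3 : 192 * δ * |(z - (1 - s) ^ 2) * (z - (1 + s) ^ 2)| ≤ 192 * δ * 16 := by gcongr
    have h4 := le_abs_self ((Fr s G).eval z ^ 2 - f z)
    linarith
  have h1 := intervalIntegral.integral_mono_on (by positivity : (0 : ℝ) ≤ 2 * Real.pi) i1
    (i2.add i3) fun θ _ => key θ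
  rw [intervalIntegral.integral_add i2 i3, intervalIntegral.integral_const, smul_eq_mul,
    sub_zero] at h1
  unfold WI
  calc 1 / (2 * Real.pi) * _ ≤ 1 / (2 * Real.pi) * _ := mul_le_mul_of_nonneg_left h1 (by positivity)
    _ = _ := by field_simp

lemma arc2 {f : ℝ → ℝ} (fc : Continuous f) (sym : ∀ θ, f (2 * Real.pi - θ) = f θ)
    (f1 : ∀ θ, f θ ≤ 1) {y1 y2 : ℝ} (hy : -1 ≤ y1) (hy1 : y1 ≤ 1) (h12 : y1 ≤ y2)
    (hz : ∀ θ, Real.cos θ < y1 ∨ y2 < Real.cos θ → f θ ≤ 0) :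
    ∫ θ in (0 : ℝ)..(2 * Real.pi), f θ ≤ 2 * (Real.arccos y1 - Real.arccos y2) := by
  have hpi := Real.pi_pos
  have h1 : ∫ θ in (0 : ℝ)..(2 * Real.pi), f θ = 2 * ∫ θ in (0 : ℝ)..Real.pi, f θ := by
    have h2 := intervalIntegral.integral_add_adjacent_intervals (fc.intervalIntegrable 0 Real.pi)
      (μ := volume) (fc.intervalIntegrable Real.pi (2 * Real.pi))
    have h3 := intervalIntegral.integral_comp_sub_left (a := 0) (b := Real.pi) f (2 * Real.pi)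
    have e1 : 2 * Real.pi - Real.pi = Real.pi := by ring
    rw [e1, sub_zero] at h3
    simp only [sym] at h3
    rw [← h2, ← h3]; ring
  obtain ⟨α, hα⟩ : ∃ α, α = Real.arccos y1 := ⟨_, rfl⟩
  obtain ⟨β, hβ⟩ : ∃ β, β = Real.arccos y2 := ⟨_, rfl⟩
  have α0 : 0 ≤ α := by rw [hα]; exact Real.arccos_nonneg _
  have β0 : 0 ≤ β := by rw [hβ]; exact Real.arccos_nonneg _
  have απ : α ≤ Real.pi := by rw [hα]; exact Real.arccos_le_pi _
  have βα : β ≤ α := by rw [hα, hβ]; exact Real.arccos_le_arccos h12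
  have cα : Real.cos α = y1 := by rw [hα]; exact Real.cos_arccos hy hy1
  have j : ∀ a b : ℝ, IntervalIntegrable f volume a b := fun a b => fc.intervalIntegrable _ _
  have c0 : ∀ a b c : ℝ, IntervalIntegrable (fun _ : ℝ => c) volume a b := fun a b c =>
    continuous_const.intervalIntegrable _ _
  have h2 : ∫ θ in (0 : ℝ)..Real.pi, f θ ≤ α - β := by
    have h3 := intervalIntegral.integral_add_adjacent_intervals (j 0 β) (j β Real.pi)
    have h3' := intervalIntegral.integral_add_adjacent_intervals (j β α) (j α Real.pi)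
    have h4 := intervalIntegral.integral_mono_on_of_le_Ioo β0 (j 0 β) (c0 0 β 0) fun θ hθ =>
      hz θ (Or.inr (by
        have b0 : 0 < β := lt_trans hθ.1 hθ.2
        have y21 : y2 < 1 := by
          by_contra hh
          push Not at hh
          rw [hβ, Real.arccos_eq_zero.2 hh] at b0
          exact lt_irrefl _ b0
        have cβ : Real.cos β = y2 := by
          rw [hβ]; exact Real.cos_arccos (by linarith) y21.le
        rw [← cβ]
        exact Real.cos_lt_cos_of_nonneg_of_le_pi hθ.1.le (by linarith) hθ.2))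
    have h5 := intervalIntegral.integral_mono_on_of_le_Ioo βα (j β α) (c0 β α 1) fun θ _ => f1 θ
    have h6 := intervalIntegral.integral_mono_on_of_le_Ioo απ (j α Real.pi) (c0 α Real.pi 0)
      fun θ hθ => hz θ (Or.inl (by
        rw [← cα]
        exact Real.cos_lt_cos_of_nonneg_of_le_pi α0 hθ.2.le hθ.1))
    rw [intervalIntegral.integral_const, smul_eq_mul] at h4 h5 h6
    linarith
  rw [h1, ← hα, ← hβ]
  linarith

end

end Pool.Agent.Run7.h9.JF
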