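import Pool.Agent.Run7.h9.JF.Bk

/-! The polynomials of the one-parameter family of lower bounds. -/
set_option autoImplicit false
open MeasureTheory Filter Topology Polynomial

namespace Pool.Agent.Run7.h9.JF

open Pool.Agent.Y265.HY.JC (gI cnt)
open Pool.Agent.Run7.h9.TC

noncomputable section

variable {s η δ κ ρ : ℝ}

lemma v1_z0 (hs : 0 < s) (hs1 : s < 1) (hη : 0 < η) (h4 : 4 * η < La s) :
    ∀ᶠ X in 𝓝 0, v1 s η κ ρ X = 0 := by
  filter_upwards [vz_near0 hs hs1 hη h4] with X hX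
  unfold v1; rw [hX, zero_mul]

lemma v1_z4 (hs : 0 < s) (hs1 : s < 1) (hη : 0 < η) (h4 : 4 * η < La s) :
    ∀ᶠ X in 𝓝 (4 * s ^ 2), v1 s η κ ρ X = 0 := by
  filter_upwards [vz_near4 hs hs1 hη h4] with X hX
  unfold v1; rw [hX, zero_mul]

lemma v1_co (hs : 0 < s) (hs1 : s < 1) {X : ℝ} (hX : X ∈ Set.Icc 0 (4 * s ^ 2)) :
    ContinuousAt (v1 s η κ ρ) X := by
  have hc : 0 < 1 - s ^ 2 := by nlinarith
  exact (vz_c hc (zm_pos hs hs1 hX)).mul
    (continuousAt_const.sub ((cut_c κ ρ).comp zm_c).continuousAt)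

/-- the frequency of the pair of squares at `κ` -/
def Xk (s κ : ℝ) : ℝ := 2 + 2 * s ^ 2 - κ - (1 - s ^ 2) ^ 2 / κ

/-- the weight vanishes below `Xk` -/
lemma v1_lo (hs : 0 < s) (hs1 : s < 1) (hρ : 0 < ρ) (hk0 : 0 < κ) (hk : κ < 1 - s ^ 2) {Y : ℝ}
    (hY : Y ∈ Set.Icc 0 (4 * s ^ 2)) (h : Y ≤ Xk s κ) : v1 s η κ ρ Y = 0 := by
  have hc : 0 < 1 - s ^ 2 := by nlinarith
  obtain ⟨x, y, h1, h2, x1, x2, y1, y2, -, -⟩ := roots2 hs hs1 hY.1 hY.2
  have hm : (0 : ℝ) < (1 - s) ^ 2 := by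
    have : 0 < 1 - s := by linarith
    positivity
  have x0 : 0 < x := by linarith
  have hx := zm_eq h1 h2 (by linarith : x ≤ y)
  have hy : y = (1 - s ^ 2) ^ 2 / x := by field_simp; linarith
  have hxk : x ≤ κ := by
    by_contra hh
    push Not at hh
    unfold Xk at h
    have e1 : κ + (1 - s ^ 2) ^ 2 / κ ≤ x + (1 - s ^ 2) ^ 2 / x := by rw [← hy]; linarith
    have e2 : (x + (1 - s ^ 2) ^ 2 / x) - (κ + (1 - s ^ 2) ^ 2 / κ) =
        -((x - κ) * ((1 - s ^ 2) ^ 2 - x * κ) / (x * κ)) := by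
      field_simp; ring
    have e3 : 0 < (x - κ) * ((1 - s ^ 2) ^ 2 - x * κ) / (x * κ) := by
      have : 0 < (1 - s ^ 2) ^ 2 - x * κ := by nlinarith
      have : 0 < x - κ := by linarith
      positivity
    linarith
  unfold v1
  rw [← hx, cut_lo hρ hxk]; ring

lemma t1_co (hs : 0 < s) (hs1 : s < 1) (hη : 0 < η) (h4 : 4 * η < La s) :
    ContinuousOn (fun Y => v1 s η κ ρ Y / (Y * (4 * s ^ 2 - Y))) (Set.Icc 0 (4 * s ^ 2)) := by
  intro Y hY
  refine ContinuousAt.continuousWithinAt ?_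
  by_cases h0 : Y = 0
  · rw [h0]
    refine ContinuousAt.congr (f := fun _ => (0 : ℝ)) continuousAt_const ?_
    filter_upwards [v1_z0 hs hs1 hη h4] with X hX
    rw [hX, zero_div]
  · by_cases h1 : Y = 4 * s ^ 2
    · rw [h1]
      refine ContinuousAt.congr (f := fun _ => (0 : ℝ)) continuousAt_const ?_
      filter_upwards [v1_z4 hs hs1 hη h4] with X hX
      rw [hX, zero_div]
    · refine (v1_co hs hs1 hY).div (by fun_prop) ?_
      exact mul_ne_zero h0 (sub_ne_zero.2 (Ne.symm h1))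

lemma exT1 (hs : 0 < s) (hs1 : s < 1) (hη : 0 < η) (h4 : 4 * η < La s) {e : ℝ} (he : 0 < e) :
    ∃ T : ℝ[X], ∀ Y ∈ Set.Icc 0 (4 * s ^ 2), |(QQ s * T).eval Y - v1 s η κ ρ Y| ≤ e := by
  obtain ⟨T, hT⟩ := exists_polynomial_near_of_continuousOn 0 (4 * s ^ 2) _
    (t1_co (κ := κ) (ρ := ρ) hs hs1 hη h4) (e / 4) (by positivity)
  refine ⟨T, fun Y hY => ?_⟩
  have h1 := hT Y hY
  have e1 : Y * (4 * s ^ 2 - Y) * (v1 s η κ ρ Y / (Y * (4 * s ^ 2 - Y))) = v1 s η κ ρ Y := by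
    by_cases h0 : Y = 0
    · rw [h0, (v1_z0 hs hs1 hη h4).self_of_nhds]; simp
    · by_cases h2 : Y = 4 * s ^ 2
      · rw [h2, (v1_z4 hs hs1 hη h4).self_of_nhds]; simp
      · obtain ⟨c, hc⟩ : ∃ c, c = Y * (4 * s ^ 2 - Y) := ⟨_, rfl⟩
        have c0 : c ≠ 0 := by rw [hc]; exact mul_ne_zero h0 (sub_ne_zero.2 (Ne.symm h2))
        rw [← hc]; field_simp
  rw [Polynomial.eval_mul, QQ_ev]
  have e2 : Y * (4 * s ^ 2 - Y) * T.eval Y - v1 s η κ ρ Y = Y * (4 * s ^ 2 - Y) *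
    (T.eval Y - v1 s η κ ρ Y / (Y * (4 * s ^ 2 - Y))) := by
    rw [mul_sub (Y * (4 * s ^ 2 - Y)), e1]
  rw [e2, abs_mul]
  have p0 : 0 ≤ Y * (4 * s ^ 2 - Y) := mul_nonneg hY.1 (by linarith [hY.2])
  have p4 : Y * (4 * s ^ 2 - Y) ≤ 4 := by
    have h3 : s ^ 2 ≤ 1 := by nlinarith
    have h5 : (s ^ 2) ^ 2 ≤ 1 := pow_le_one₀ (sq_nonneg s) h3
    have e3 : Y * (4 * s ^ 2 - Y) = 4 * (s ^ 2) ^ 2 - (Y - 2 * s ^ 2) ^ 2 := by ring
    have := sq_nonneg (Y - 2 * s ^ 2)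
    linarith
  rw [abs_of_nonneg p0]
  calc _ ≤ 4 * (e / 4) := mul_le_mul p4 h1.le (abs_nonneg _) (by norm_num)
    _ = e := by ring

/-- the weight of the first function -/
def h11 (s ν ρ L X : ℝ) : ℝ := h00 s ν ρ X * (1 - cut (L - ρ) ρ X)

lemma h11_c {ν L : ℝ} (hν : 0 < ν) : Continuous (h11 s ν ρ L) :=
  (h00_c hν).mul (continuous_const.sub (cut_c _ _))

lemma h11_1 {ν L X : ℝ} (hν : 0 < ν) (hX : X ∈ Set.Icc (0 : ℝ) 4) :
    0 ≤ X * (4 - X) * h11 s ν ρ L X ∧ X * (4 - X) * h11 s ν ρ L X ≤ 1 := by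
  have h1 := h00_1 (s := s) (ρ := ρ) hν hX
  have h2 := cut_0 (L - ρ) ρ X
  have h3 := cut_1 (L - ρ) ρ X
  have e : X * (4 - X) * h11 s ν ρ L X = (X * (4 - X) * h00 s ν ρ X) * (1 - cut (L - ρ) ρ X) := by
    unfold h11; ring
  rw [e]
  refine ⟨mul_nonneg h1.1 (by linarith), ?_⟩
  calc _ ≤ 1 * 1 := mul_le_mul h1.2 (by linarith) (by linarith) zero_le_one
    _ = 1 := one_mul _

lemma gI_H1 {ν ρ L d : ℝ} (hν : 0 < ν) (hρ : 0 < ρ) (hd : 0 ≤ d) (hd1 : d ≤ 1) (hL : 0 ≤ L)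
    (hL4 : L ≤ 4 * s ^ 2) (hρ4 : 4 * s ^ 2 + ρ ≤ 4) {H : ℝ[X]}
    (hH : ∀ X ∈ Set.Icc (0 : ℝ) 4, |H.eval X - h11 s ν ρ L X| ≤ d) :
    gI (PP * H) ≤ 2 / Real.pi * (Real.arccos (1 - 2 * s ^ 2 - ρ / 2) -
      Real.arccos (1 - L / 2 + ρ / 2)) + 48 * d := by
  have hpi := Real.pi_pos
  obtain ⟨f, hf⟩ : ∃ f : ℝ → ℝ, f = fun θ => ((2 - 2 * Real.cos θ) *
     (4 - (2 - 2 * Real.cos θ)) * h11 s ν ρ L (2 - 2 * Real.cos θ)) ^ 2 := ⟨_, rfl⟩
  have fc : Continuous f := by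
    rw [hf]
    have := (h11_c (s := s) (ρ := ρ) (L := L) hν).comp
      (by fun_prop : Continuous fun θ : ℝ => 2 - 2 * Real.cos θ)
    exact ((by fun_prop : Continuous fun θ : ℝ =>
      (2 - 2 * Real.cos θ) * (4 - (2 - 2 * Real.cos θ))).mul this).pow 2
  have hI : ∀ θ : ℝ, (2 - 2 * Real.cos θ) ∈ Set.Icc (0 : ℝ) 4 := fun θ => by
    have c1 := Real.cos_le_one θ
    have c2 := Real.neg_one_le_cos θ
    constructor <;> linarith
  have f1 : ∀ θ, f θ ≤ 1 := fun θ => by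
    rw [hf]
    have := h11_1 (s := s) (ρ := ρ) (L := L) hν (hI θ)
    exact pow_le_one₀ this.1 this.2
  have s2 := sq_nonneg s
  have key := arc2 fc (fun θ => by rw [hf]; simp only [Real.cos_two_pi_sub]) f1
    (y1 := 1 - 2 * s ^ 2 - ρ / 2) (y2 := 1 - L / 2 + ρ / 2) (by linarith) (by linarith)
    (by linarith) (fun θ hθ => by
      rw [hf]; simp only
      unfold h11
      rcases hθ with h | h
      · rw [h00_z hρ (by linarith)]; simp
      · rw [cut_lo (κ := L - ρ) hρ (by linarith)]; simp)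
  have pw : ∀ θ : ℝ, (PP * H : ℝ[X]).eval (2 - 2 * Real.cos θ) ^ 2 ≤ f θ + 24 * d := by
    intro θ
    have h1 := hH _ (hI θ)
    have h2 := h11_1 (s := s) (ρ := ρ) (L := L) hν (hI θ)
    have h3 := hI θ
    rw [Polynomial.eval_mul, PP_ev, hf]
    simp only
    obtain ⟨X, hX⟩ : ∃ X, X = 2 - 2 * Real.cos θ := ⟨_, rfl⟩
    rw [← hX] at h1 h2 h3 ⊢
    obtain ⟨w, hw⟩ : ∃ w, w = X * (4 - X) * h11 s ν ρ L X := ⟨_, rfl⟩
    obtain ⟨r, hr⟩ : ∃ r, r = X * (4 - X) * (H.eval X - h11 s ν ρ L X) := ⟨_, rfl⟩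
    have p0 : 0 ≤ X * (4 - X) := mul_nonneg h3.1 (by linarith [h3.2])
    have p4 : X * (4 - X) ≤ 4 := by nlinarith [sq_nonneg (X - 2)]
    have rb : |r| ≤ 4 * d := by
      rw [hr, abs_mul, abs_of_nonneg p0]
      exact mul_le_mul p4 h1 (abs_nonneg _) (by norm_num)
    have e : X * (4 - X) * H.eval X = w + r := by rw [hw, hr]; ring
    rw [e, ← hw]
    rw [← hw] at h2
    have r1 := abs_le.1 rb
    have r2 : r ^ 2 ≤ (4 * d) ^ 2 := by rw [← sq_abs]; exact pow_le_pow_left₀ (abs_nonneg _) rb 2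
    have r3 : w * r ≤ 1 * (4 * d) := by
      calc w * r ≤ w * (4 * d) := mul_le_mul_of_nonneg_left r1.2 h2.1
        _ ≤ 1 * (4 * d) := mul_le_mul_of_nonneg_right h2.2 (by linarith)
    have r4 : d ^ 2 ≤ d := by nlinarith
    nlinarith
  have i1 : IntervalIntegrable (fun θ : ℝ => (PP * H : ℝ[X]).eval
      (2 - 2 * Real.cos θ) ^ 2) volume 0 (2 * Real.pi) :=
    (((PP * H : ℝ[X]).continuous.comp (by fun_prop :
      Continuous fun θ : ℝ => 2 - 2 * Real.cos θ)).pow 2).intervalIntegrable _ _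
  have i2 : IntervalIntegrable f volume 0 (2 * Real.pi) := fc.intervalIntegrable _ _
  have i3 : IntervalIntegrable (fun _ : ℝ => 24 * d) volume 0 (2 * Real.pi) :=
    continuous_const.intervalIntegrable _ _
  have h1 := intervalIntegral.integral_mono_on (by positivity : (0 : ℝ) ≤ 2 * Real.pi) i1
    (i2.add i3) fun θ _ => pw θ
  rw [intervalIntegral.integral_add i2 i3, intervalIntegral.integral_const, smul_eq_mul,
    sub_zero] at h1
  unfold gI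
  calc 1 / Real.pi * _ ≤ 1 / Real.pi * (2 * (Real.arccos (1 - 2 * s ^ 2 - ρ / 2) -
        Real.arccos (1 - L / 2 + ρ / 2)) +
        2 * Real.pi * (24 * d)) := mul_le_mul_of_nonneg_left (by linarith) (by positivity)
    _ = _ := by field_simp; ring

lemma gI_T1 (hs : 0 < s) (hs1 : s < 1) (hη : 0 < η) (h4 : 4 * η < La s) (hρ : 0 < ρ)
    (hk0 : 0 < κ) (hk : κ < 1 - s ^ 2) (hX0 : 0 ≤ Xk s κ) {d : ℝ} (hd : 0 ≤ d)
    (hd1 : d ≤ 1) {q : ℝ[X]}
    (hq : ∀ Y ∈ Set.Icc 0 (4 * s ^ 2), |q.eval Y - v1 s η κ ρ Y| ≤ d) :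
    gI (q.comp (C (s * s) * X)) ≤ 2 / Real.pi * (Real.pi -
      Real.arccos (1 - Xk s κ / (2 * s ^ 2))) + 6 * d := by
  have hpi := Real.pi_pos
  have s2 : 0 < s ^ 2 := by positivity
  have hI : ∀ θ : ℝ, s * s * (2 - 2 * Real.cos θ) ∈ Set.Icc 0 (4 * s ^ 2) := fun θ => by
    have c1 := Real.cos_le_one θ
    have c2 := Real.neg_one_le_cos θ
    constructor
    · exact mul_nonneg (by positivity) (by linarith)
    · nlinarith
  obtain ⟨f, hf⟩ : ∃ f : ℝ → ℝ, f = fun θ => v1 s η κ ρ (s * s * (2 - 2 * Real.cos θ)) ^ 2 :=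
    ⟨_, rfl⟩
  have fc : Continuous f := by
    rw [hf, continuous_iff_continuousAt]
    intro θ
    exact (ContinuousAt.comp (f := fun θ : ℝ => s * s * (2 - 2 * Real.cos θ))
      (v1_co hs hs1 (hI θ)) (by fun_prop)).pow 2
  have f1 : ∀ θ, f θ ≤ 1 := fun θ => by
    rw [hf]
    exact pow_le_one₀ (v1_0 hη h4 _) (v1_1 hη h4 _)
  have key := arc2 fc (fun θ => by rw [hf]; simp only [Real.cos_two_pi_sub]) f1
    (y1 := -1) (y2 := 1 - Xk s κ / (2 * s ^ 2)) le_rfl (by norm_num) (by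
      have : Xk s κ / (2 * s ^ 2) ≤ 2 := by
        rw [div_le_iff₀ (by positivity)]
        unfold Xk
        have : 0 ≤ (κ - (1 - s ^ 2)) ^ 2 / κ := by positivity
        have e : (κ - (1 - s ^ 2)) ^ 2 / κ = κ - 2 * (1 - s ^ 2) + (1 - s ^ 2) ^ 2 / κ := by
          field_simp
          ring
        linarith
      linarith) (fun θ hθ => by
      rw [hf]; simp only
      rcases hθ with h | h
      · exact absurd (Real.neg_one_le_cos θ) (by linarith)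
      · rw [v1_lo hs hs1 hρ hk0 hk (hI θ)]
        · norm_num
        · have h1 : Xk s κ / (2 * s ^ 2) * (2 * s ^ 2) = Xk s κ := by field_simp
          nlinarith)
  rw [Real.arccos_neg_one] at key
  have pw : ∀ θ : ℝ, (q.comp (C (s * s) * X)).eval (2 - 2 * Real.cos θ) ^ 2 ≤ f θ + 3 * d := by
    intro θ
    have h1 := hq _ (hI θ)
    have e : (q.comp (C (s * s) * X)).eval (2 - 2 * Real.cos θ) =
        q.eval (s * s * (2 - 2 * Real.cos θ)) := by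
      simp only [Polynomial.eval_comp, Polynomial.eval_mul, Polynomial.eval_X, Polynomial.eval_C]
    rw [e, hf]
    simp only
    obtain ⟨w, hw⟩ : ∃ w, w = v1 s η κ ρ (s * s * (2 - 2 * Real.cos θ)) := ⟨_, rfl⟩
    obtain ⟨r, hr⟩ : ∃ r, r = q.eval (s * s * (2 - 2 * Real.cos θ)) - w := ⟨_, rfl⟩
    have w0 : 0 ≤ w := by rw [hw]; exact v1_0 hη h4 _
    have w1 : w ≤ 1 := by rw [hw]; exact v1_1 hη h4 _
    rw [← hw] at h1 ⊢
    rw [← hr] at h1
    have e2 : q.eval (s * s * (2 - 2 * Real.cos θ)) = w + r := by rw [hr]; ring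
    rw [e2]
    have r1 := abs_le.1 h1
    have r2 : r ^ 2 ≤ d ^ 2 := by rw [← sq_abs]; exact pow_le_pow_left₀ (abs_nonneg _) h1 2
    have r3 : w * r ≤ 1 * d := by
      calc w * r ≤ w * d := mul_le_mul_of_nonneg_left r1.2 w0
        _ ≤ 1 * d := mul_le_mul_of_nonneg_right w1 hd
    have r4 : d ^ 2 ≤ d := by nlinarith
    nlinarith
  have i1 : IntervalIntegrable (fun θ : ℝ => (q.comp (C (s * s) * X)).eval
      (2 - 2 * Real.cos θ) ^ 2) volume 0 (2 * Real.pi) :=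
    (((q.comp (C (s * s) * X)).continuous.comp (by fun_prop :
      Continuous fun θ : ℝ => 2 - 2 * Real.cos θ)).pow 2).intervalIntegrable _ _
  have i2 : IntervalIntegrable f volume 0 (2 * Real.pi) := fc.intervalIntegrable _ _
  have i3 : IntervalIntegrable (fun _ : ℝ => 3 * d) volume 0 (2 * Real.pi) :=
    continuous_const.intervalIntegrable _ _
  have h1 := intervalIntegral.integral_mono_on (by positivity : (0 : ℝ) ≤ 2 * Real.pi) i1
    (i2.add i3) fun θ _ => pw θ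
  rw [intervalIntegral.integral_add i2 i3, intervalIntegral.integral_const, smul_eq_mul,
    sub_zero] at h1
  unfold gI
  calc 1 / Real.pi * _ ≤ 1 / Real.pi * (2 * (Real.pi -
        Real.arccos (1 - Xk s κ / (2 * s ^ 2))) +
        2 * Real.pi * (3 * d)) := mul_le_mul_of_nonneg_left (by linarith) (by positivity)
    _ = _ := by field_simp; ring

end

end Pool.Agent.Run7.h9.JF
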