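import Pool.Agent.Run7.h9.JF.An

/-! The estimates for the test function. -/
set_option autoImplicit false
open MeasureTheory Filter Topology Polynomial

namespace Pool.Agent.Run7.h9.JF

open Pool.Agent.Y265.HY.JC (gI cnt)
open Pool.Agent.Run7.h9.TC

noncomputable section

variable {s η δ : ℝ}

/-- `G` is admissible with the precision `δ` -/
def Adm (s η δ : ℝ) (G : ℝ[X]) : Prop :=
  ∀ z ∈ Set.Icc ((1 - s) ^ 2) ((1 + s) ^ 2), |(Fr s G).eval z - √(ph (1 - s ^ 2) η z)| ≤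
      δ * |(z - (1 - s) ^ 2) ^ 2 * (z - (1 + s) ^ 2) * (z ^ 2 - (1 - s ^ 2) ^ 2)|

lemma sq_close (hs : 0 < s) (hs1 : s < 1) (hδ : 0 ≤ δ) (hδ1 : δ ≤ 1 / 1024) {G : ℝ[X]}
    (h : Adm s η δ G) {z : ℝ} (hz : z ∈ Set.Icc ((1 - s) ^ 2) ((1 + s) ^ 2)) :
    |(Fr s G).eval z ^ 2 - ph (1 - s ^ 2) η z| ≤
      192 * δ * |(z - (1 - s) ^ 2) * (z - (1 + s) ^ 2)| := by
  obtain ⟨F, hF⟩ : ∃ F, F = (Fr s G).eval z := ⟨_, rfl⟩
  obtain ⟨x, hx⟩ : ∃ x, x = √(ph (1 - s ^ 2) η z) := ⟨_, rfl⟩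
  have x0 : 0 ≤ x := by rw [hx]; exact Real.sqrt_nonneg _
  have x2 : x ^ 2 = ph (1 - s ^ 2) η z := by rw [hx]; exact Real.sq_sqrt (ph_0 _ _ _)
  have x1 : x ≤ 1 := by
    have := ph_1 (1 - s ^ 2) η z
    nlinarith
  have h1 := h z hz
  rw [← hF, ← hx] at h1
  obtain ⟨P, hP⟩ : ∃ P, P = |(z - (1 - s) ^ 2) * (z - (1 + s) ^ 2)| := ⟨_, rfl⟩
  have P0 : 0 ≤ P := by rw [hP]; exact abs_nonneg _
  have z0 : 0 ≤ z := (sq_nonneg _).trans hz.1
  have z4 : z ≤ 4 := hz.2.trans (by nlinarith)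
  have m0 : 0 ≤ (1 - s) ^ 2 := sq_nonneg _
  have p4 : (1 + s) ^ 2 ≤ 4 := by nlinarith
  have a1 : |z - (1 - s) ^ 2| ≤ 4 := by rw [abs_le]; constructor <;> linarith [hz.1]
  have a2 : |z ^ 2 - (1 - s ^ 2) ^ 2| ≤ 16 := by
    have : (1 - s ^ 2) ^ 2 ≤ 16 := by nlinarith
    have : z ^ 2 ≤ 16 := by nlinarith
    rw [abs_le]; constructor <;> nlinarith [sq_nonneg z, sq_nonneg (1 - s ^ 2)]
  have a3 : |z - (1 + s) ^ 2| ≤ 4 := by rw [abs_le]; constructor <;> linarith [hz.2]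
  have e1 : |(z - (1 - s) ^ 2) ^ 2 * (z - (1 + s) ^ 2) * (z ^ 2 - (1 - s ^ 2) ^ 2)| =
      P * (|z - (1 - s) ^ 2| * |z ^ 2 - (1 - s ^ 2) ^ 2|) := by
    rw [hP, ← abs_mul, ← abs_mul]; congr 1; ring
  have b1 : |z - (1 - s) ^ 2| * |z ^ 2 - (1 - s ^ 2) ^ 2| ≤ 64 := by
    calc _ ≤ 4 * 16 := mul_le_mul a1 a2 (abs_nonneg _) (by norm_num)
      _ = 64 := by norm_num
  have P16 : P ≤ 16 := by
    rw [hP, abs_mul]
    calc _ ≤ 4 * 4 := mul_le_mul a1 a3 (abs_nonneg _) (by norm_num)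
      _ = 16 := by norm_num
  have c1 : |F - x| ≤ 64 * δ * P := by
    rw [e1] at h1
    calc |F - x| ≤ δ * (P * (|z - (1 - s) ^ 2| * |z ^ 2 - (1 - s ^ 2) ^ 2|)) := h1
      _ ≤ δ * (P * 64) := by gcongr
      _ = 64 * δ * P := by ring
  have c2 : |F - x| ≤ 1 := by
    calc |F - x| ≤ 64 * δ * P := c1
      _ ≤ 64 * (1 / 1024) * 16 := by gcongr
      _ = 1 := by norm_num
  have c3 : |F + x| ≤ 3 := by
    have e : F + x = (F - x) + 2 * x := by ring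
    rw [e]
    calc |F - x + 2 * x| ≤ |F - x| + |2 * x| := abs_add_le _ _
      _ ≤ 1 + 2 := by
          refine add_le_add c2 ?_
          rw [abs_of_nonneg (by linarith)]; linarith
      _ = 3 := by norm_num
  rw [← hF, ← x2, ← hP]
  have e : F ^ 2 - x ^ 2 = (F - x) * (F + x) := by ring
  rw [e, abs_mul]
  calc |F - x| * |F + x| ≤ (64 * δ * P) * 3 := mul_le_mul c1 c3 (abs_nonneg _) (by positivity)
    _ = 192 * δ * P := by ring

lemma p_bd (hs : 0 < s) (hs1 : s < 1) (hδ : 0 ≤ δ) (hδ1 : δ ≤ 1 / 1024) {G p : ℝ[X]}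
    (h : Adm s η δ G) (hp : EM s (Fr s G ^ 2) = 1 - PP * p) {Y : ℝ} (hY0 : 0 < Y)
    (hY : Y ≤ 4 * s ^ 2) : |p.eval Y| ≤ 1536 * δ / (4 - 4 * s ^ 2) := by
  have hc : 0 < 1 - s ^ 2 := by nlinarith
  obtain ⟨x, y, h1, h2, x1, x2, y1, y2, px, py⟩ := roots2 hs hs1 hY0.le hY
  have hm : (0 : ℝ) < (1 - s) ^ 2 := by
    have : 0 < 1 - s := by linarith
    positivity
  have mc : (1 - s) ^ 2 < 1 - s ^ 2 := by nlinarith
  have cp : 1 - s ^ 2 < (1 + s) ^ 2 := by nlinarith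
  have x0 : 0 < x := by linarith
  have y0 : 0 < y := by linarith
  have x4 : x ≤ 4 := by nlinarith
  have y4 : y ≤ 4 := by nlinarith
  have k1 := sq_close hs hs1 hδ hδ1 h (z := x) ⟨x1, by linarith⟩
  have k2 := sq_close hs hs1 hδ hδ1 h (z := y) ⟨by linarith, y2⟩
  rw [px, abs_neg, abs_of_nonneg (show 0 ≤ Y * x by positivity)] at k1
  rw [py, abs_neg, abs_of_nonneg (show 0 ≤ Y * y by positivity)] at k2
  have hsum := ph_sum (η := η) hc x0 y0 h2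
  have hR : Y * (4 - Y) * p.eval Y = 1 - (Fr s G).eval x ^ 2 - (Fr s G).eval y ^ 2 := by
    rw [← R_ev G h1 h2, hp]
    unfold PP
    have c4 : (4 : ℝ[X]) = C 4 := (map_ofNat C 4).symm
    rw [c4]
    simp
  have e : Y * (4 - Y) * p.eval Y = -((Fr s G).eval x ^ 2 - ph (1 - s ^ 2) η x) -
      ((Fr s G).eval y ^ 2 - ph (1 - s ^ 2) η y) := by
    rw [hR]; linarith
  have h3 : |Y * (4 - Y) * p.eval Y| ≤ 192 * δ * (Y * x) + 192 * δ * (Y * y) := by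
    rw [e]
    have := abs_sub (-((Fr s G).eval x ^ 2 - ph (1 - s ^ 2) η x))
      ((Fr s G).eval y ^ 2 - ph (1 - s ^ 2) η y)
    rw [abs_neg] at this
    linarith
  have h4 : 4 - 4 * s ^ 2 ≤ 4 - Y := by linarith
  have h5 : 0 < 4 - 4 * s ^ 2 := by linarith
  rw [abs_mul, abs_of_nonneg (by nlinarith : 0 ≤ Y * (4 - Y))] at h3
  rw [le_div_iff₀ h5]
  have h6 : Y * (|p.eval Y| * (4 - 4 * s ^ 2)) ≤ Y * (1536 * δ) := by
    calc Y * (|p.eval Y| * (4 - 4 * s ^ 2)) ≤ Y * (|p.eval Y| * (4 - Y)) := by gcongr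
      _ = Y * (4 - Y) * |p.eval Y| := by ring
      _ ≤ 192 * δ * (Y * x) + 192 * δ * (Y * y) := h3
      _ ≤ 192 * δ * (Y * 4) + 192 * δ * (Y * 4) := by gcongr
      _ = Y * (1536 * δ) := by ring
  exact le_of_mul_le_mul_left h6 hY0

lemma p_bd0 (hs : 0 < s) (hs1 : s < 1) (hδ : 0 ≤ δ) (hδ1 : δ ≤ 1 / 1024) {G p : ℝ[X]}
    (h : Adm s η δ G) (hp : EM s (Fr s G ^ 2) = 1 - PP * p) {Y : ℝ}
    (hY : Y ∈ Set.Icc 0 (4 * s ^ 2)) : |p.eval Y| ≤ 1536 * δ / (4 - 4 * s ^ 2) := by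
  rcases hY.1.eq_or_lt with h0 | h0
  · rw [← h0]
    have l1 : Tendsto (fun Y : ℝ => |p.eval Y|) (𝓝[>] 0) (𝓝 |p.eval 0|) :=
      (p.continuous.abs.tendsto 0).mono_left nhdsWithin_le_nhds
    refine le_of_tendsto l1 ?_
    have : Set.Ioc (0 : ℝ) (4 * s ^ 2) ∈ 𝓝[>] (0 : ℝ) := Ioc_mem_nhdsGT (by positivity)
    filter_upwards [this] with Y hY
    exact p_bd hs hs1 hδ hδ1 h hp hY.1 hY.2
  · exact p_bd hs hs1 hδ hδ1 h hp h0 hY.2

lemma gI_bd (hs : 0 < s) (hs1 : s < 1) (hδ : 0 ≤ δ) (hδ1 : δ ≤ 1 / 1024) {G p : ℝ[X]}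
    (h : Adm s η δ G) (hp : EM s (Fr s G ^ 2) = 1 - PP * p) :
    gI (p.comp (C (s * s) * X)) ≤ 2 * (1536 * δ / (4 - 4 * s ^ 2)) ^ 2 := by
  obtain ⟨B, hB⟩ : ∃ B, B = 1536 * δ / (4 - 4 * s ^ 2) := ⟨_, rfl⟩
  have h5 : 0 < 4 - 4 * s ^ 2 := by nlinarith
  have B0 : 0 ≤ B := by rw [hB]; positivity
  have key : ∀ θ : ℝ, (p.comp (C (s * s) * X)).eval (2 - 2 * Real.cos θ) ^ 2 ≤ B ^ 2 := by
    intro θ
    have c1 := Real.cos_le_one θ
    have c2 := Real.neg_one_le_cos θ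
    have e : (p.comp (C (s * s) * X)).eval (2 - 2 * Real.cos θ) =
        p.eval (s * s * (2 - 2 * Real.cos θ)) := by
      simp only [Polynomial.eval_comp, Polynomial.eval_mul, Polynomial.eval_X, Polynomial.eval_C]
    rw [e, ← sq_abs]
    have := p_bd0 hs hs1 hδ hδ1 h hp (Y := s * s * (2 - 2 * Real.cos θ))
      ⟨mul_nonneg (by positivity) (by linarith), by nlinarith [mul_pos hs hs]⟩
    rw [← hB] at this
    exact pow_le_pow_left₀ (abs_nonneg _) this 2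
  rw [← hB]
  unfold gI
  have i1 : IntervalIntegrable (fun θ : ℝ => (p.comp (C (s * s) * X)).eval
      (2 - 2 * Real.cos θ) ^ 2) volume 0 (2 * Real.pi) :=
    (((p.comp (C (s * s) * X)).continuous.comp (by fun_prop :
      Continuous fun θ : ℝ => 2 - 2 * Real.cos θ)).pow 2).intervalIntegrable _ _
  have i2 : IntervalIntegrable (fun _ : ℝ => B ^ 2) volume 0 (2 * Real.pi) :=
    continuous_const.intervalIntegrable _ _
  have h1 := intervalIntegral.integral_mono_on (by positivity : (0 : ℝ) ≤ 2 * Real.pi) i1 i2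
    fun θ _ => key θ
  rw [intervalIntegral.integral_const, smul_eq_mul, sub_zero] at h1
  have hpi := Real.pi_pos
  calc 1 / Real.pi * _ ≤ 1 / Real.pi * (2 * Real.pi * B ^ 2) := by gcongr
    _ = 2 * B ^ 2 := by field_simp

lemma zr (s θ : ℝ) : 1 + s ^ 2 + 2 * s * Real.cos θ ∈ Set.Icc ((1 - s) ^ 2) ((1 + s) ^ 2) ∨ s < 0 := by
  by_cases hs : 0 ≤ s
  · left
    have c1 := Real.cos_le_one θ
    have c2 := Real.neg_one_le_cos θ
    constructor <;> nlinarith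
  · right; linarith

lemma ph_zc (hs : 0 < s) (hs1 : s < 1) :
    Continuous fun θ : ℝ => ph (1 - s ^ 2) η (1 + s ^ 2 + 2 * s * Real.cos θ) := by
  have hc : 0 < 1 - s ^ 2 := by nlinarith
  rw [continuous_iff_continuousAt]
  intro θ
  have h1 := (zr s θ).resolve_right (by linarith)
  have hm : (0 : ℝ) < (1 - s) ^ 2 := by
    have : 0 < 1 - s := by linarith
    positivity
  have h2 : ContinuousAt (ph (1 - s ^ 2) η) (1 + s ^ 2 + 2 * s * Real.cos θ) :=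
    ph_contAt hc (lt_of_lt_of_le hm h1.1)
  exact ContinuousAt.comp (f := fun θ : ℝ => 1 + s ^ 2 + 2 * s * Real.cos θ) h2
    (by fun_prop)

lemma WI_bd (hs : 0 < s) (hs1 : s < 1) (hδ : 0 ≤ δ) (hδ1 : δ ≤ 1 / 1024) {G : ℝ[X]}
    (h : Adm s η δ G) : WI (Fr s G) s ≤ 1 / (2 * Real.pi) *
      (∫ θ in (0 : ℝ)..(2 * Real.pi), ph (1 - s ^ 2) η (1 + s ^ 2 + 2 * s * Real.cos θ)) +
      3072 * δ := by
  have hpi := Real.pi_pos
  have i1 : IntervalIntegrable (fun θ : ℝ => (Fr s G).eval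
      (1 + s ^ 2 + 2 * s * Real.cos θ) ^ 2) volume 0 (2 * Real.pi) :=
    (((Fr s G).continuous.comp (by fun_prop :
      Continuous fun θ : ℝ => 1 + s ^ 2 + 2 * s * Real.cos θ)).pow 2).intervalIntegrable _ _
  have i2 : IntervalIntegrable (fun θ : ℝ => ph (1 - s ^ 2) η (1 + s ^ 2 + 2 * s * Real.cos θ))
      volume 0 (2 * Real.pi) := (ph_zc hs hs1).intervalIntegrable _ _
  have i3 : IntervalIntegrable (fun _ : ℝ => 3072 * δ) volume 0 (2 * Real.pi) :=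
    continuous_const.intervalIntegrable _ _
  have key : ∀ θ : ℝ, (Fr s G).eval (1 + s ^ 2 + 2 * s * Real.cos θ) ^ 2 ≤
      ph (1 - s ^ 2) η (1 + s ^ 2 + 2 * s * Real.cos θ) + 3072 * δ := by
    intro θ
    have h1 := (zr s θ).resolve_right (by linarith)
    have h2 := sq_close hs hs1 hδ hδ1 h h1
    obtain ⟨z, hz⟩ : ∃ z, z = 1 + s ^ 2 + 2 * s * Real.cos θ := ⟨_, rfl⟩
    rw [← hz] at h1 h2 ⊢
    have z0 : 0 ≤ z := (sq_nonneg _).trans h1.1
    have z4 : z ≤ 4 := h1.2.trans (by nlinarith)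
    have m0 : 0 ≤ (1 - s) ^ 2 := sq_nonneg _
    have p4 : (1 + s) ^ 2 ≤ 4 := by nlinarith
    have a1 : |z - (1 - s) ^ 2| ≤ 4 := by rw [abs_le]; constructor <;> linarith [h1.1]
    have a3 : |z - (1 + s) ^ 2| ≤ 4 := by rw [abs_le]; constructor <;> linarith [h1.2]
    have P16 : |(z - (1 - s) ^ 2) * (z - (1 + s) ^ 2)| ≤ 16 := by
      rw [abs_mul]
      calc _ ≤ 4 * 4 := mul_le_mul a1 a3 (abs_nonneg _) (by norm_num)
        _ = 16 := by norm_num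
    have h3 : 192 * δ * |(z - (1 - s) ^ 2) * (z - (1 + s) ^ 2)| ≤ 192 * δ * 16 := by gcongr
    have h4 := le_abs_self ((Fr s G).eval z ^ 2 - ph (1 - s ^ 2) η z)
    linarith
  have h1 := intervalIntegral.integral_mono_on (by positivity : (0 : ℝ) ≤ 2 * Real.pi) i1
    (i2.add i3) fun θ _ => key θ
  rw [intervalIntegral.integral_add i2 i3, intervalIntegral.integral_const, smul_eq_mul,
    sub_zero] at h1
  unfold WI
  calc 1 / (2 * Real.pi) * _ ≤ 1 / (2 * Real.pi) * _ := mul_le_mul_of_nonneg_left h1 (by positivity)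
    _ = _ := by field_simp

lemma arc_bd (hs : 0 < s) (hs1 : s < 1) (hη : 0 < η) {y : ℝ} (hy : y ∈ Set.Icc (-1 : ℝ) 1)
    (hy2 : (1 - s ^ 2) * Real.exp η ≤ 1 + s ^ 2 + 2 * s * y) :
    1 / (2 * Real.pi) * (∫ θ in (0 : ℝ)..(2 * Real.pi),
      ph (1 - s ^ 2) η (1 + s ^ 2 + 2 * s * Real.cos θ)) ≤ 1 - Real.arccos y / Real.pi := by
  have hpi := Real.pi_pos
  have hc : 0 < 1 - s ^ 2 := by nlinarith
  obtain ⟨f, hf⟩ : ∃ f : ℝ → ℝ, f = fun θ => ph (1 - s ^ 2) η (1 + s ^ 2 + 2 * s * Real.cos θ) :=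
    ⟨_, rfl⟩
  have fc : Continuous f := by rw [hf]; exact ph_zc hs hs1
  have ff : ∀ θ, ph (1 - s ^ 2) η (1 + s ^ 2 + 2 * s * Real.cos θ) = f θ := fun θ => by rw [hf]
  simp only [ff]
  have sym : ∀ θ, f (2 * Real.pi - θ) = f θ := by
    intro θ; rw [hf]; simp only [Real.cos_two_pi_sub]
  have h1 : ∫ θ in (0 : ℝ)..(2 * Real.pi), f θ = 2 * ∫ θ in (0 : ℝ)..Real.pi, f θ := by
    have h2 := intervalIntegral.integral_add_adjacent_intervals (fc.intervalIntegrable 0 Real.pi)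
      (μ := volume) (fc.intervalIntegrable Real.pi (2 * Real.pi))
    have h3 := intervalIntegral.integral_comp_sub_left (a := 0) (b := Real.pi) f (2 * Real.pi)
    have e1 : 2 * Real.pi - Real.pi = Real.pi := by ring
    rw [e1, sub_zero] at h3
    simp only [sym] at h3
    rw [← h2, ← h3]; ring
  obtain ⟨α, hα⟩ : ∃ α, α = Real.arccos y := ⟨_, rfl⟩
  have α0 : 0 ≤ α := by rw [hα]; exact Real.arccos_nonneg _
  have απ : α ≤ Real.pi := by rw [hα]; exact Real.arccos_le_pi _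
  have cα : Real.cos α = y := by rw [hα]; exact Real.cos_arccos hy.1 hy.2
  have z0 : ∀ θ ∈ Set.Icc 0 α, f θ = 0 := by
    intro θ hθ
    have h2 : y ≤ Real.cos θ := by
      rw [← cα]; exact Real.cos_le_cos_of_nonneg_of_le_pi hθ.1 απ hθ.2
    have h3 : (1 - s ^ 2) * Real.exp η ≤ 1 + s ^ 2 + 2 * s * Real.cos θ := by nlinarith
    have h4 : 1 ≤ Real.log ((1 + s ^ 2 + 2 * s * Real.cos θ) / (1 - s ^ 2)) / η := by
      rw [le_div_iff₀ hη, one_mul, Real.le_log_iff_exp_le, le_div_iff₀ hc]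
      · linarith
      · have := Real.exp_pos η
        have : 0 < 1 + s ^ 2 + 2 * s * Real.cos θ := lt_of_lt_of_le (by positivity) h3
        positivity
    rw [hf]
    simp only
    unfold ph
    rw [clp_hi h4]; norm_num
  have h2 : ∫ θ in (0 : ℝ)..Real.pi, f θ ≤ Real.pi - α := by
    have h3 := intervalIntegral.integral_add_adjacent_intervals (fc.intervalIntegrable 0 α)
      (μ := volume) (fc.intervalIntegrable α Real.pi)
    have h4 : ∫ θ in (0 : ℝ)..α, f θ = 0 := by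
      have : ∫ θ in (0 : ℝ)..α, f θ = ∫ _θ in (0 : ℝ)..α, (0 : ℝ) :=
        intervalIntegral.integral_congr fun θ hθ => by
          rw [Set.uIcc_of_le α0] at hθ
          exact z0 θ hθ
      rw [this]; simp
    have h5 := intervalIntegral.integral_mono_on απ (fc.intervalIntegrable α Real.pi)
      (μ := volume) (continuous_const.intervalIntegrable α Real.pi) (g := fun _ => (1 : ℝ))
      fun θ _ => by rw [hf]; exact ph_1 _ _ _
    rw [intervalIntegral.integral_const, smul_eq_mul, mul_one] at h5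
    linarith
  rw [h1, ← hα]
  calc 1 / (2 * Real.pi) * (2 * ∫ θ in (0 : ℝ)..Real.pi, f θ) ≤
      1 / (2 * Real.pi) * (2 * (Real.pi - α)) := by gcongr
    _ = 1 - α / Real.pi := by field_simp

theorem main_an (hs : 0 < s) (hs1 : s < 1) {ε : ℝ} (hε : 0 < ε) : ∃ G : ℝ[X],
    WI (Fr s G) s ≤ Real.arccos s / Real.pi + ε ∧
    ∀ p : ℝ[X], EM s (Fr s G ^ 2) = 1 - PP * p → gI (p.comp (C (s * s) * X)) ≤ ε ^ 2 := by
  have hpi := Real.pi_pos
  have hc : 0 < 1 - s ^ 2 := by nlinarith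
  obtain ⟨yf, hyf⟩ : ∃ yf : ℝ → ℝ, yf = fun η => ((1 - s ^ 2) * Real.exp η - 1 - s ^ 2) / (2 * s) :=
    ⟨_, rfl⟩
  have yc : Continuous yf := by rw [hyf]; fun_prop
  have y0 : yf 0 = -s := by
    rw [hyf]; simp only [Real.exp_zero]; field_simp; ring
  have Ac : Continuous fun η => 1 - Real.arccos (yf η) / Real.pi :=
    continuous_const.sub ((Real.continuous_arccos.comp yc).div_const _)
  have A0 : 1 - Real.arccos (yf 0) / Real.pi < Real.arccos s / Real.pi + ε / 2 := by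
    rw [y0, Real.arccos_neg, sub_div, div_self hpi.ne']
    linarith
  have L0 : 0 < Real.log ((1 + s) / (1 - s)) := by
    refine Real.log_pos ?_
    rw [one_lt_div (by linarith)]; linarith
  have t1 := (Ac.tendsto 0).eventually (gt_mem_nhds A0)
  have t2 := (yc.tendsto 0).eventually (gt_mem_nhds (show yf 0 < 1 by rw [y0]; linarith))
  have t3 := (yc.tendsto 0).eventually (lt_mem_nhds (show -1 < yf 0 by rw [y0]; linarith))
  have t4 : ∀ᶠ η : ℝ in 𝓝 0, η < Real.log ((1 + s) / (1 - s)) := gt_mem_nhds L0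
  have t5 := (t1.and (t2.and (t3.and t4))).filter_mono (nhdsWithin_le_nhds (s := Set.Ioi 0))
  have t6 : ∀ᶠ η : ℝ in 𝓝[>] 0, 0 < η := eventually_mem_nhdsWithin
  obtain ⟨η, ⟨u1, u2, u3, u4⟩, u5⟩ := (t5.and t6).exists
  obtain ⟨δ, hδ0, hδ1, hδ2, hδ3⟩ : ∃ δ : ℝ, 0 < δ ∧ δ ≤ 1 / 1024 ∧ 3072 * δ ≤ ε / 2 ∧
      1536 * δ / (4 - 4 * s ^ 2) ≤ ε / 2 := by
    have h5 : 0 < 4 - 4 * s ^ 2 := by linarith
    refine ⟨min (1 / 1024) (min (ε / 6144) (ε * (4 - 4 * s ^ 2) / 3072)), by positivity,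
      min_le_left _ _, ?_, ?_⟩
    · have := (min_le_right (1 / 1024 : ℝ) _).trans (min_le_left (ε / 6144)
        (ε * (4 - 4 * s ^ 2) / 3072))
      linarith
    · rw [div_le_iff₀ h5]
      have := (min_le_right (1 / 1024 : ℝ) _).trans (min_le_right (ε / 6144)
        (ε * (4 - 4 * s ^ 2) / 3072))
      linarith
  obtain ⟨G, hG⟩ := approx hs hs1 u5 u4 hδ0
  have hA : Adm s η δ G := hG
  refine ⟨G, ?_, fun p hp => ?_⟩
  · have h1 := WI_bd hs hs1 hδ0.le hδ1 hA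
    have h2 := arc_bd hs hs1 u5 (y := yf η) ⟨u3.le, u2.le⟩ (by
      rw [hyf]
      simp only
      have : 2 * s * (((1 - s ^ 2) * Real.exp η - 1 - s ^ 2) / (2 * s)) =
        (1 - s ^ 2) * Real.exp η - 1 - s ^ 2 := by field_simp
      linarith)
    linarith
  · have h1 := gI_bd hs hs1 hδ0.le hδ1 hA hp
    have h5 : 0 < 4 - 4 * s ^ 2 := by linarith
    have h6 : 0 ≤ 1536 * δ / (4 - 4 * s ^ 2) := by positivity
    have h7 : (1536 * δ / (4 - 4 * s ^ 2)) ^ 2 ≤ (ε / 2) ^ 2 := pow_le_pow_left₀ h6 hδ3 2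
    nlinarith

end

end Pool.Agent.Run7.h9.JF
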