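import Pool.Agent.Run7.h9.JF.Po

/-! Polynomials whose coefficients are continuous functions of the ratio of the frequencies. -/
set_option autoImplicit false
open MeasureTheory Filter Topology Polynomial

namespace Pool.Agent.Run7.h9.JF

open Pool.Agent.Y265.HY.JC (gI cnt)
open Pool.Agent.Run7.h9.TC

noncomputable section

variable {a b : ℝ}

/-- the ring -/
abbrev KK (a b : ℝ) := C(Set.Icc a b, ℝ)

/-- evaluation -/
def evx (x : Set.Icc a b) : KK a b →+* ℝ where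
  toFun f := f x
  map_one' := rfl
  map_mul' _ _ := rfl
  map_zero' := rfl
  map_add' _ _ := rfl

lemma evx_apply (x : Set.Icc a b) (f : KK a b) : evx x f = f x := rfl

/-- constants -/
def kst : ℝ →+* KK a b where
  toFun r := ContinuousMap.const _ r
  map_one' := rfl
  map_mul' _ _ := rfl
  map_zero' := rfl
  map_add' _ _ := rfl

/-- the parameter -/
def ks : KK a b := ⟨fun x => x.1, continuous_subtype_val⟩

lemma pos_of (ha : 0 < a) (x : Set.Icc a b) : 0 < x.1 := lt_of_lt_of_le ha x.2.1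
lemma lt_of (hb : b < 1) (x : Set.Icc a b) : x.1 < 1 := lt_of_le_of_lt x.2.2 hb

def kca (ha : 0 < a) : KK a b := ⟨fun x => ca x.1, by
  unfold ca
  refine Continuous.div continuous_const (by fun_prop) fun x => ?_
  have := pos_of ha x
  positivity⟩

def kcb (ha : 0 < a) (hb : b < 1) : KK a b := ⟨fun x => cb x.1, by
  unfold cb
  refine Continuous.div continuous_const (by fun_prop) fun x => ?_
  have := pos_of ha x
  have : 0 < 1 - x.1 := by have := lt_of hb x; linarith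
  positivity⟩

def kcd (ha : 0 < a) (hb : b < 1) : KK a b := ⟨fun x => cd x.1, by
  unfold cd
  refine Continuous.div continuous_const (by fun_prop) fun x => ?_
  have := pos_of ha x
  have : 0 < 1 - x.1 := by have := lt_of hb x; linarith
  positivity⟩

/-- the polynomial -/
def FK (ha : 0 < a) (hb : b < 1) (G : ℝ[X]) : (KK a b)[X] :=
  FF ks (kca ha) (kcb ha hb) (kcd ha hb) (G.map kst)

lemma FK_map (ha : 0 < a) (hb : b < 1) (G : ℝ[X]) (x : Set.Icc a b) :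
    (FK ha hb G).map (evx x) = Fr x.1 G := by
  unfold FK Fr
  rw [FF_map, Polynomial.map_map]
  have : (evx x).comp kst = RingHom.id ℝ := by ext r; rfl
  rw [this, Polynomial.map_id]
  rfl

lemma ev_ext {P : (KK a b)[X]} {r : KK a b} {c : ℝ} (hr : ∀ x, r x = c)
    (h : ∀ x : Set.Icc a b, (P.map (evx x)).eval c = 0) : P.eval r = 0 := by
  refine ContinuousMap.ext fun x => ?_
  have h1 := h x
  rw [Polynomial.eval_map] at h1
  have h2 : (P.eval r) x = evx x (P.eval r) := rfl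
  rw [h2, Polynomial.eval, Polynomial.hom_eval₂, RingHom.comp_id, evx_apply, hr]
  exact h1

theorem kdiv (ha : 0 < a) (hb : b < 1) (G : ℝ[X]) : ∃ P2 : (KK a b)[X],
    EM ks (FK ha hb G ^ 2) = 1 - PP * P2 := by
  obtain ⟨R0, hR0⟩ : ∃ R0, R0 = 1 - EM ks (FK ha hb G ^ 2) := ⟨_, rfl⟩
  have hm : ∀ x : Set.Icc a b, R0.map (evx x) = 1 - EM x.1 (Fr x.1 G ^ 2) := by
    intro x
    rw [hR0, Polynomial.map_sub, EM_map, Polynomial.map_pow, FK_map, Polynomial.map_one]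
    rfl
  have r0 : R0.eval 0 = 0 := ev_ext (c := 0) (fun x => rfl) fun x => by
    rw [hm]; exact R_0 (pos_of ha x) G
  obtain ⟨R1, h1⟩ := Polynomial.dvd_iff_isRoot.2 (show R0.IsRoot 0 from r0)
  have r1 : R1.eval 4 = 0 := ev_ext (c := 4) (fun x => rfl) fun x => by
    have h2 := R_4 (pos_of ha x) (lt_of hb x) G
    rw [← hm, h1, Polynomial.map_mul, Polynomial.eval_mul] at h2
    simp only [Polynomial.map_sub, Polynomial.map_X, Polynomial.map_C, map_zero,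
      Polynomial.eval_sub, Polynomial.eval_X, Polynomial.eval_C, sub_zero] at h2
    exact (mul_eq_zero.1 h2).resolve_left (by norm_num)
  obtain ⟨R2, h2⟩ := Polynomial.dvd_iff_isRoot.2 (show R1.IsRoot 4 from r1)
  refine ⟨-R2, ?_⟩
  have e : EM ks (FK ha hb G ^ 2) = 1 - R0 := by rw [hR0]; ring
  have c4 : (C (4 : KK a b) : (KK a b)[X]) = 4 := map_ofNat C 4
  rw [e, h1, h2, Polynomial.C_0, c4]
  unfold PP
  ring

/-- restriction to a sequence -/
def rho (σ : ℕ → Set.Icc a b) : KK a b →+* Rb where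
  toFun f := ⟨fun n => f (σ n), ‖f‖, fun n => f.norm_coe_le_norm _⟩
  map_one' := rfl
  map_mul' _ _ := rfl
  map_zero' := rfl
  map_add' _ _ := rfl

lemma evn_rho (σ : ℕ → Set.Icc a b) (n : ℕ) : (evn n).comp (rho σ) = evx (σ n) := rfl

lemma map_rho (σ : ℕ → Set.Icc a b) (n : ℕ) (P : (KK a b)[X]) :
    (P.map (rho σ)).map (evn n) = P.map (evx (σ n)) := by
  rw [Polynomial.map_map, evn_rho]

/-- the second polynomial in its own scale -/
def Qx (P : (KK a b)[X]) (x : Set.Icc a b) : ℝ[X] := (P.map (evx x)).comp (C (x.1 * x.1) * X)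

lemma Qx_ev (P : (KK a b)[X]) (x : Set.Icc a b) (y : ℝ) : (Qx P x).eval y =
    (P.map (evx x)).eval (x.1 * x.1 * y) := by
  unfold Qx
  simp only [Polynomial.eval_comp, Polynomial.eval_mul, Polynomial.eval_X, Polynomial.eval_C]

lemma ev_cont (P : (KK a b)[X]) {y : Set.Icc a b × ℝ → ℝ} (hy : Continuous y) :
    Continuous fun p : Set.Icc a b × ℝ => (P.map (evx p.1)).eval (y p) := by
  have e : ∀ p : Set.Icc a b × ℝ, (P.map (evx p.1)).eval (y p) =
      ∑ i ∈ P.support, P.coeff i p.1 * y p ^ i := by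
    intro p
    rw [Polynomial.eval_map, Polynomial.eval₂_eq_sum, Polynomial.sum_def]
    rfl
  simp only [e]
  refine continuous_finsetSum _ fun i _ => ?_
  exact ((P.coeff i).continuous.comp continuous_fst).mul (hy.pow i)

lemma gI_Qx_cont (P : (KK a b)[X]) : Continuous fun x => gI (Qx P x) := by
  unfold gI
  refine continuous_const.mul ?_
  refine intervalIntegral.continuous_parametric_intervalIntegral_of_continuous' (μ := volume)
    (f := fun (x : Set.Icc a b) (θ : ℝ) => (Qx P x).eval (2 - 2 * Real.cos θ) ^ 2) ?_ _ _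
  simp only [Function.uncurry_def, Qx_ev]
  refine Continuous.pow (ev_cont P ?_) 2
  fun_prop

lemma WI_x_cont (P : (KK a b)[X]) : Continuous fun x : Set.Icc a b => WI (P.map (evx x)) x.1 := by
  unfold WI
  refine continuous_const.mul ?_
  refine intervalIntegral.continuous_parametric_intervalIntegral_of_continuous' (μ := volume)
    (f := fun (x : Set.Icc a b) (θ : ℝ) => (P.map (evx x)).eval
      (1 + x.1 ^ 2 + 2 * x.1 * Real.cos θ) ^ 2) ?_ _ _
  simp only [Function.uncurry_def]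
  refine Continuous.pow (ev_cont P ?_) 2
  fun_prop

/-- a bound for a polynomial on `[0, 4]` -/
lemma pbd (p : ℝ[X]) : ∃ M : ℝ, 0 ≤ M ∧ ∀ z ∈ Set.Icc (0 : ℝ) 4, |p.eval z| ≤ M := by
  obtain ⟨M, hM⟩ := (isCompact_Icc (a := (0 : ℝ)) (b := 4)).exists_bound_of_continuousOn
    p.continuous.continuousOn
  exact ⟨|M|, abs_nonneg _, fun z hz => (hM z hz).trans (le_abs_self _)⟩

lemma P0 {s : ℝ} (hs : 0 < s) (hs1 : s < 1) (G p : ℝ[X])
    (hp : EM s (Fr s G ^ 2) = 1 - PP * p) : p.eval 0 = 0 := by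
  have hR : ∀ Y, Y * (4 - Y) * p.eval Y = (1 - EM s (Fr s G ^ 2)).eval Y := by
    intro Y
    rw [hp]
    unfold PP
    have c4 : (4 : ℝ[X]) = C 4 := (map_ofNat C 4).symm
    rw [c4]
    simp
  obtain ⟨A, hA⟩ := Polynomial.dvd_iff_isRoot.2 (show (Fr s G).IsRoot ((1 + s) ^ 2) from Fr_p hs G)
  obtain ⟨B, hB⟩ : ∃ B : ℝ[X], ∀ z, (Fr s G).eval z = 1 + (z - (1 - s) ^ 2) ^ 2 * B.eval z := by
    refine ⟨C (ca s) * (X ^ 2 - C ((1 - s ^ 2) ^ 2)) +
      C (cb s) * ((X - C ((1 + s) ^ 2)) * (X + C (1 - s ^ 2))) +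
      C (cd s) * ((X - C ((1 + s) ^ 2)) * (X - C (1 - s ^ 2))) +
      (X - C ((1 + s) ^ 2)) * (X ^ 2 - C ((1 - s ^ 2) ^ 2)) * G, fun z => ?_⟩
    unfold Fr
    rw [FF_ev]
    simp
  obtain ⟨M1, m10, hM1⟩ := pbd (B * (2 + (X - C ((1 - s) ^ 2)) ^ 2 * B))
  obtain ⟨M2, m20, hM2⟩ := pbd (A ^ 2)
  have s2 : s ^ 2 < 1 := by nlinarith
  have hc1 : 0 < (1 + s) ^ 2 - (1 - s ^ 2) := by nlinarith
  have hc2 : 0 < (1 - s ^ 2) - (1 - s) ^ 2 := by nlinarith
  obtain ⟨d1, hd1⟩ : ∃ d1, d1 = (1 + s) ^ 2 - (1 - s ^ 2) := ⟨_, rfl⟩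
  obtain ⟨d2, hd2⟩ : ∃ d2, d2 = (1 - s ^ 2) - (1 - s) ^ 2 := ⟨_, rfl⟩
  rw [← hd1] at hc1
  rw [← hd2] at hc2
  obtain ⟨K, hK⟩ : ∃ K, K = 16 * M1 / d1 ^ 2 + 16 * M2 / d2 ^ 2 := ⟨_, rfl⟩
  have key : ∀ Y ∈ Set.Ioc (0 : ℝ) (4 * s ^ 2), |p.eval Y| * (4 - Y) ≤ Y * K := by
    intro Y hY
    obtain ⟨x, y, h1, h2, x1, x2, y1, y2, px, py⟩ := roots2 hs hs1 hY.1.le hY.2
    have hx : x ∈ Set.Icc (0 : ℝ) 4 := ⟨(sq_nonneg _).trans x1, by nlinarith⟩
    have hy : y ∈ Set.Icc (0 : ℝ) 4 := ⟨by nlinarith, by nlinarith⟩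
    have e1 : (1 - EM s (Fr s G ^ 2)).eval Y = -((x - (1 - s) ^ 2) ^ 2 *
        (B * (2 + (X - C ((1 - s) ^ 2)) ^ 2 * B)).eval x) -
        (y - (1 + s) ^ 2) ^ 2 * (A ^ 2).eval y := by
      rw [R_ev G h1 h2, hB x, hA]
      simp only [Polynomial.eval_mul, Polynomial.eval_sub, Polynomial.eval_add,
        Polynomial.eval_X, Polynomial.eval_C, Polynomial.eval_pow, Polynomial.eval_ofNat]
      ring
    have b1 : (x - (1 - s) ^ 2) ^ 2 ≤ Y ^ 2 * 16 / d1 ^ 2 := by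
      rw [le_div_iff₀ (by positivity)]
      have : d1 ^ 2 ≤ (x - (1 + s) ^ 2) ^ 2 := by
        rw [hd1]
        nlinarith
      calc (x - (1 - s) ^ 2) ^ 2 * d1 ^ 2 ≤ (x - (1 - s) ^ 2) ^ 2 * (x - (1 + s) ^ 2) ^ 2 :=
            mul_le_mul_of_nonneg_left this (sq_nonneg _)
        _ = (Y * x) ^ 2 := by rw [← mul_pow, px]; ring
        _ ≤ Y ^ 2 * 16 := by
            rw [mul_pow]
            refine mul_le_mul_of_nonneg_left ?_ (sq_nonneg _)
            nlinarith [hx.1, hx.2]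
    have b2 : (y - (1 + s) ^ 2) ^ 2 ≤ Y ^ 2 * 16 / d2 ^ 2 := by
      rw [le_div_iff₀ (by positivity)]
      have : d2 ^ 2 ≤ (y - (1 - s) ^ 2) ^ 2 := by
        rw [hd2]
        nlinarith
      calc (y - (1 + s) ^ 2) ^ 2 * d2 ^ 2 ≤ (y - (1 + s) ^ 2) ^ 2 * (y - (1 - s) ^ 2) ^ 2 :=
            mul_le_mul_of_nonneg_left this (sq_nonneg _)
        _ = (Y * y) ^ 2 := by rw [mul_comm, ← mul_pow, py]; ring
        _ ≤ Y ^ 2 * 16 := by
            rw [mul_pow]
            refine mul_le_mul_of_nonneg_left ?_ (sq_nonneg _)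
            nlinarith [hy.1, hy.2]
    have b3 : |(1 - EM s (Fr s G ^ 2)).eval Y| ≤ Y ^ 2 * K := by
      rw [e1]
      have t1 : |(x - (1 - s) ^ 2) ^ 2 * (B * (2 + (X - C ((1 - s) ^ 2)) ^ 2 * B)).eval x| ≤
          Y ^ 2 * 16 / d1 ^ 2 * M1 := by
        rw [abs_mul, abs_of_nonneg (sq_nonneg (x - (1 - s) ^ 2))]
        exact mul_le_mul b1 (hM1 x hx) (abs_nonneg _) (by positivity)
      have t2 : |(y - (1 + s) ^ 2) ^ 2 * (A ^ 2).eval y| ≤ Y ^ 2 * 16 / d2 ^ 2 * M2 := by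
        rw [abs_mul, abs_of_nonneg (sq_nonneg (y - (1 + s) ^ 2))]
        exact mul_le_mul b2 (hM2 y hy) (abs_nonneg _) (by positivity)
      have t3 := (abs_sub (-((x - (1 - s) ^ 2) ^ 2 *
        (B * (2 + (X - C ((1 - s) ^ 2)) ^ 2 * B)).eval x)) ((y - (1 + s) ^ 2) ^ 2 * (A ^ 2).eval y))
      rw [abs_neg] at t3
      have t4 : Y ^ 2 * K = Y ^ 2 * 16 / d1 ^ 2 * M1 + Y ^ 2 * 16 / d2 ^ 2 * M2 := by
        rw [hK]; ring
      linarith
    rw [← hR, abs_mul, abs_mul, abs_of_pos hY.1, abs_of_nonneg (by nlinarith [hY.2] : 0 ≤ 4 - Y)]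
      at b3
    have b4 : Y * (|p.eval Y| * (4 - Y)) ≤ Y * (Y * K) := by
      calc Y * (|p.eval Y| * (4 - Y)) = Y * (4 - Y) * |p.eval Y| := by ring
        _ ≤ Y ^ 2 * K := b3
        _ = Y * (Y * K) := by ring
    exact le_of_mul_le_mul_left b4 hY.1
  have l1 : Tendsto (fun Y : ℝ => |p.eval Y| * (4 - Y)) (𝓝[>] 0) (𝓝 (|p.eval 0| * (4 - 0))) := by
    have : Continuous fun Y : ℝ => |p.eval Y| * (4 - Y) :=
      (p.continuous.abs).mul (continuous_const.sub continuous_id)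
    exact (this.tendsto 0).mono_left nhdsWithin_le_nhds
  have l2 : Tendsto (fun Y : ℝ => Y * K) (𝓝[>] 0) (𝓝 (0 * K)) := by
    have : Continuous fun Y : ℝ => Y * K := continuous_id.mul continuous_const
    exact (this.tendsto 0).mono_left nhdsWithin_le_nhds
  have l3 := le_of_tendsto_of_tendsto l1 l2 (by
    have : Set.Ioc (0 : ℝ) (4 * s ^ 2) ∈ 𝓝[>] (0 : ℝ) := Ioc_mem_nhdsGT (by positivity)
    filter_upwards [this] with Y hY
    exact key Y hY)
  rw [zero_mul] at l3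
  have : |p.eval 0| ≤ 0 := by linarith
  exact abs_nonpos_iff.1 this

lemma P4 {s : ℝ} (hs : 0 < s) (hs1 : s < 1) (G p : ℝ[X])
    (hp : EM s (Fr s G ^ 2) = 1 - PP * p) : p.eval (4 * s ^ 2) = 0 := by
  have h := R_s hs hs1 G
  rw [hp] at h
  unfold PP at h
  have c4 : (4 : ℝ[X]) = C 4 := (map_ofNat C 4).symm
  rw [c4] at h
  simp only [sub_sub_cancel, Polynomial.eval_mul, Polynomial.eval_sub, Polynomial.eval_X,
    Polynomial.eval_C] at h
  have h1 : 4 * s ^ 2 * (4 - 4 * s ^ 2) ≠ 0 := by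
    have : 0 < 1 - s ^ 2 := by nlinarith
    have : 0 < 4 - 4 * s ^ 2 := by linarith
    positivity
  exact (mul_eq_zero.1 h).resolve_left h1

end

end Pool.Agent.Run7.h9.JF
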