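import Pool.Agent.Run7.h9.JF.Ab
import Pool.Agent.Run7.h9.JF.Kc
import Pool.Agent.Run7.h9.JF.Es

/-! The lower bound for the joint fourth moment. -/
set_option autoImplicit false
open MeasureTheory Filter Topology Complex Set
open scoped ContDiff Real Manifold

namespace Pool.Agent.Run7.h9.JF

open Pool.Agent.W745.RW Pool.Agent.TH294.RS Pool.Agent.Y265.HY Pool.Agent.Y265.HY.PS
open Pool.Agent.Y265.HY.JC Pool.Agent.Run7.h9.TC

noncomputable section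

variable {Ω : Set ℂ} {lam mu nu : ℕ → ℝ} {u g k : ℕ → ℂ → ℝ} {C : ℝ}

open Polynomial in
lemma hp_x {a b : ℝ} (ha : 0 < a) (hb : b < 1) {G : ℝ[X]} {P2 : (KK a b)[X]}
    (h : EM ks (FK ha hb G ^ 2) = 1 - TC.PP * P2) (x : Set.Icc a b) :
    EM x.1 (Fr x.1 G ^ 2) = 1 - TC.PP * P2.map (evx x) := by
  have h1 := congrArg (Polynomial.map (evx x)) h
  rw [EM_map, Polynomial.map_pow, FK_map, Polynomial.map_sub, Polynomial.map_one,
    Polynomial.map_mul, PP_map] at h1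
  exact h1

open Polynomial in
lemma Rs_x {a b : ℝ} {σ : ℕ → Set.Icc a b} {s : Rb} (hs : ∀ n, s.1 n = (σ n).1)
    (P2 : (KK a b)[X]) (n : ℕ) : (Rs s (P2.map (rho σ))).map (evn n) = Qx P2 (σ n) := by
  unfold Rs Qx
  rw [Polynomial.map_comp, map_rho, Polynomial.map_mul, Polynomial.map_C, Polynomial.map_X,
    map_mul, evn_apply, hs]

open Polynomial in
/-- the lower bound, when the ratio of the frequencies stays in a compact interval -/
lemma low_in (T : T3 Ω lam mu nu u g k C) {φ : ℂ → ℝ} (hφ : TF Ω φ) (h0 : ∀ z, 0 ≤ φ z)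
    {σ a b : ℝ} (ha : 0 < a) (hb : b < 1) (hσ : Tendsto (sg lam mu) atTop (𝓝 σ))
    (hab : ∀ n, sg lam mu n ∈ Set.Icc a b) (σa : σ ∈ Set.Icc a b) {ε : ℝ} (hε : 0 < ε) :
    ∀ᶠ n in atTop, 2 / π * Real.arcsin σ * (∫ z, φ z) - ε ≤
      ∫ z, φ z * (u n z ^ 2 * g n z ^ 2) := by
  have hpi := Real.pi_pos
  have σ0 : 0 < σ := lt_of_lt_of_le ha σa.1
  have σ1 : σ < 1 := lt_of_le_of_lt σa.2 hb
  obtain ⟨I0, hI⟩ : ∃ I0, I0 = ∫ z, φ z := ⟨_, rfl⟩
  have I0n : 0 ≤ I0 := by rw [hI]; exact integral_nonneg h0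
  obtain ⟨κ, hκ⟩ : ∃ κ, κ = √(gI TC.PP) := ⟨_, rfl⟩
  have κ0 : 0 ≤ κ := by rw [hκ]; exact Real.sqrt_nonneg _
  obtain ⟨e, he0, he⟩ : ∃ e : ℝ, 0 < e ∧ (2 + κ) * e * I0 ≤ ε / 2 := by
    refine ⟨ε / (2 * (2 + κ) * (I0 + 1)), by positivity, ?_⟩
    have h1 : (2 + κ) * (ε / (2 * (2 + κ) * (I0 + 1))) * I0 = ε / 2 * (I0 / (I0 + 1)) := by
      field_simp
    rw [h1]
    have h2 : I0 / (I0 + 1) ≤ 1 := by rw [div_le_one (by positivity)]; linarith
    calc ε / 2 * (I0 / (I0 + 1)) ≤ ε / 2 * 1 := by gcongr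
      _ = ε / 2 := mul_one _
  obtain ⟨G, hG1, hG2⟩ := main_an σ0 σ1 (ε := e / 2) (by positivity)
  obtain ⟨P2, hP2⟩ := kdiv ha hb G
  obtain ⟨xs, hxs⟩ : ∃ xs : ℕ → Set.Icc a b, ∀ n, (xs n).1 = sg lam mu n :=
    ⟨fun n => ⟨sg lam mu n, hab n⟩, fun n => rfl⟩
  obtain ⟨x0, hx0⟩ : ∃ x0 : Set.Icc a b, x0.1 = σ := ⟨⟨σ, σa⟩, rfl⟩
  have xl : Tendsto xs atTop (𝓝 x0) := by
    rw [tendsto_subtype_rng, hx0]
    simp only [hxs]
    exact hσ
  have hS : ∀ n, T.S.s.1 n = (xs n).1 := fun n => by rw [hxs]; rfl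
  have hrs : rho xs ks = T.S.s := Subtype.ext (funext fun n => (hS n).symm)
  have hF : EM T.S.s (((FK ha hb G).map (rho xs)) ^ 2) = 1 - TC.PP * P2.map (rho xs) := by
    have h1 := congrArg (Polynomial.map (rho xs)) hP2
    rw [EM_map, Polynomial.map_pow, Polynomial.map_sub, Polynomial.map_one,
      Polynomial.map_mul, PP_map, hrs] at h1
    exact h1
  have c1 : Tendsto (fun n => WI ((FK ha hb G).map (evx (xs n))) (xs n).1) atTop
      (𝓝 (WI (Fr σ G) σ)) := by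
    have := ((WI_x_cont (FK ha hb G)).tendsto x0).comp xl
    rw [FK_map, hx0] at this
    exact this
  have c2 : Tendsto (fun n => gI (Qx P2 (xs n))) atTop (𝓝 (gI (Qx P2 x0))) :=
    ((gI_Qx_cont P2).tendsto x0).comp xl
  have g2 : gI (Qx P2 x0) ≤ (e / 2) ^ 2 := by
    have h1 := hp_x ha hb hP2 x0
    rw [hx0] at h1
    have h2 := hG2 _ h1
    unfold Qx
    rw [hx0]
    exact h2
  have d1 : ∀ᶠ n in atTop, WI (((FK ha hb G).map (rho xs)).map (evn n)) (sg lam mu n) ≤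
      Real.arccos σ / π + e := by
    filter_upwards [c1.eventually (gt_mem_nhds (show WI (Fr σ G) σ < Real.arccos σ / π + e by
      linarith))] with n hn
    rw [map_rho, ← hxs]
    exact hn.le
  have d2 : ∀ᶠ n in atTop, gI ((Rs T.S.s (P2.map (rho xs))).map (evn n)) ≤ e ^ 2 := by
    filter_upwards [c2.eventually (gt_mem_nhds (show gI (Qx P2 x0) < e ^ 2 by nlinarith))] with n hn
    rw [Rs_x hS]
    exact hn.le
  have key := fb T hφ h0 _ _ hF (fun n => by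
    rw [Rs_x hS, Qx_ev, mul_zero]
    exact P0 (pos_of ha _) (lt_of hb _) G _ (hp_x ha hb hP2 _)) (fun n => by
    rw [Rs_x hS, Qx_ev]
    have := P4 (pos_of ha _) (lt_of hb _) G _ (hp_x ha hb hP2 (xs n))
    rw [show (xs n).1 * (xs n).1 * 4 = 4 * (xs n).1 ^ 2 by ring]
    exact this) he0.le d1 d2 (ε := ε / 2) (by positivity)
  filter_upwards [key] with n hn
  rw [← hI] at hn ⊢
  rw [← hκ] at hn
  refine le_trans ?_ hn
  have e1 : 2 / π * Real.arcsin σ = 1 - 2 * (Real.arccos σ / π) := by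
    unfold Real.arccos
    field_simp
    ring
  rw [e1]
  nlinarith

/-- the lower bound -/
theorem low (T : T3 Ω lam mu nu u g k C) {φ : ℂ → ℝ} (hφ : TF Ω φ) (h0 : ∀ z, 0 ≤ φ z)
    {σ : ℝ} (hσ : Tendsto (sg lam mu) atTop (𝓝 σ)) (σ0 : 0 < σ) (σ1 : σ < 1) {ε : ℝ}
    (hε : 0 < ε) : ∀ᶠ n in atTop, 2 / π * Real.arcsin σ * (∫ z, φ z) - ε ≤
      ∫ z, φ z * (u n z ^ 2 * g n z ^ 2) := by
  have h1 : ∀ᶠ n in atTop, sg lam mu n ∈ Set.Icc (σ / 2) ((1 + σ) / 2) :=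
    hσ.eventually (Icc_mem_nhds (by linarith) (by linarith))
  obtain ⟨N, hN⟩ := eventually_atTop.1 h1
  have t := tendsto_add_atTop_nat N
  have key := low_in (T.cmp t) hφ h0 (σ := σ) (a := σ / 2) (b := (1 + σ) / 2) (by linarith)
    (by linarith) (hσ.comp t) (fun n => hN (n + N) (by omega)) ⟨by linarith, by linarith⟩ hε
  obtain ⟨M, hM⟩ := eventually_atTop.1 key
  refine eventually_atTop.2 ⟨M + N, fun n hn => ?_⟩
  have := hM (n - N) (by omega)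
  simp only [Nat.sub_add_cancel (show N ≤ n by omega)] at this
  exact this

end

end Pool.Agent.Run7.h9.JF
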