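import Pool.Agent.Run7.h9.JF.An4
import Pool.Agent.Run7.h9.JF.Kc

/-! The polynomials of the second lower bound. -/
set_option autoImplicit false
open MeasureTheory Filter Topology Polynomial

namespace Pool.Agent.Run7.h9.JF

open Pool.Agent.Y265.HY.JC (gI cnt)
open Pool.Agent.Run7.h9.TC

noncomputable section

/-- the factor vanishing at both ends -/
def QQ {R : Type*} [CommRing R] (s : R) : R[X] := X * (C (4 * s ^ 2) - X)

lemma QQ_map {R S : Type*} [CommRing R] [CommRing S] (f : R →+* S) (s : R) :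
    (QQ s).map f = QQ (f s) := by
  unfold QQ
  rw [Polynomial.map_mul, Polynomial.map_sub, Polynomial.map_X, Polynomial.map_C, map_mul,
    map_pow, map_ofNat]

variable {s η δ : ℝ}

lemma QQ_ev (s Y : ℝ) : (QQ s).eval Y = Y * (4 * s ^ 2 - Y) := by unfold QQ; simp

lemma PP_ev (Y : ℝ) : (PP : ℝ[X]).eval Y = Y * (4 - Y) := by
  unfold PP
  have c4 : (4 : ℝ[X]) = C 4 := (map_ofNat C 4).symm
  rw [c4]
  simp

lemma t0_co (hs : 0 < s) (hs1 : s < 1) (hη : 0 < η) (h4 : 4 * η < La s) :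
    ContinuousOn (fun Y => vz s η Y / (Y * (4 * s ^ 2 - Y))) (Set.Icc 0 (4 * s ^ 2)) := by
  have hc : 0 < 1 - s ^ 2 := by nlinarith
  intro Y hY
  refine ContinuousAt.continuousWithinAt ?_
  by_cases h0 : Y = 0
  · rw [h0]
    refine ContinuousAt.congr (f := fun _ => (0 : ℝ)) continuousAt_const ?_
    filter_upwards [vz_near0 hs hs1 hη h4] with X hX
    rw [hX, zero_div]
  · by_cases h1 : Y = 4 * s ^ 2
    · rw [h1]
      refine ContinuousAt.congr (f := fun _ => (0 : ℝ)) continuousAt_const ?_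
      filter_upwards [vz_near4 hs hs1 hη h4] with X hX
      rw [hX, zero_div]
    · refine (vz_c hc (zm_pos hs hs1 hY)).div (by fun_prop) ?_
      exact mul_ne_zero h0 (sub_ne_zero.2 (Ne.symm h1))

lemma exT (hs : 0 < s) (hs1 : s < 1) (hη : 0 < η) (h4 : 4 * η < La s) {e : ℝ} (he : 0 < e) :
    ∃ T : ℝ[X], ∀ Y ∈ Set.Icc 0 (4 * s ^ 2), |(QQ s * T).eval Y - vz s η Y| ≤ e := by
  obtain ⟨T, hT⟩ := exists_polynomial_near_of_continuousOn 0 (4 * s ^ 2) _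
    (t0_co hs hs1 hη h4) (e / 4) (by positivity)
  refine ⟨T, fun Y hY => ?_⟩
  have h1 := hT Y hY
  have e1 : Y * (4 * s ^ 2 - Y) * (vz s η Y / (Y * (4 * s ^ 2 - Y))) = vz s η Y := by
    by_cases h0 : Y = 0
    · rw [h0, (vz_near0 hs hs1 hη h4).self_of_nhds]; simp
    · by_cases h2 : Y = 4 * s ^ 2
      · rw [h2, (vz_near4 hs hs1 hη h4).self_of_nhds]; simp
      · obtain ⟨c, hc⟩ : ∃ c, c = Y * (4 * s ^ 2 - Y) := ⟨_, rfl⟩
        have c0 : c ≠ 0 := by rw [hc]; exact mul_ne_zero h0 (sub_ne_zero.2 (Ne.symm h2))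
        rw [← hc]; field_simp
  rw [Polynomial.eval_mul, QQ_ev]
  have e2 : Y * (4 * s ^ 2 - Y) * T.eval Y - vz s η Y = Y * (4 * s ^ 2 - Y) *
    (T.eval Y - vz s η Y / (Y * (4 * s ^ 2 - Y))) := by
    rw [mul_sub (Y * (4 * s ^ 2 - Y)), e1]
  rw [e2, abs_mul]
  have p0 : 0 ≤ Y * (4 * s ^ 2 - Y) := mul_nonneg hY.1 (by linarith [hY.2])
  have p4 : Y * (4 * s ^ 2 - Y) ≤ 4 := by
    have h3 : s ^ 2 ≤ 1 := by nlinarith
    have h5 : (s ^ 2) ^ 2 ≤ 1 := pow_le_one₀ (sq_nonneg s) h3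
    have e3 : Y * (4 * s ^ 2 - Y) = 4 * (s ^ 2) ^ 2 - (Y - 2 * s ^ 2) ^ 2 := by ring
    have := sq_nonneg (Y - 2 * s ^ 2)
    linarith
  rw [abs_of_nonneg p0]
  calc _ ≤ 4 * (e / 4) := mul_le_mul p4 h1.le (abs_nonneg _) (by norm_num)
    _ = e := by ring

/-- the weight of the first function -/
def h00 (s ν ρ X : ℝ) : ℝ := max 0 (min 1 ((4 * s ^ 2 + ρ - X) / ρ)) / max (X * (4 - X)) ν

lemma h00_c {ν ρ : ℝ} (hν : 0 < ν) : Continuous (h00 s ν ρ) := by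
  unfold h00
  refine Continuous.div (by fun_prop) (by fun_prop) fun X => ?_
  have := lt_of_lt_of_le hν (le_max_right (X * (4 - X)) ν)
  exact this.ne'

lemma h00_1 {ν ρ X : ℝ} (hν : 0 < ν) (hX : X ∈ Set.Icc (0 : ℝ) 4) :
    0 ≤ X * (4 - X) * h00 s ν ρ X ∧ X * (4 - X) * h00 s ν ρ X ≤ 1 := by
  have m0 := lt_of_lt_of_le hν (le_max_right (X * (4 - X)) ν)
  have p0 : 0 ≤ X * (4 - X) := mul_nonneg hX.1 (by linarith [hX.2])
  have t0 : 0 ≤ max 0 (min 1 ((4 * s ^ 2 + ρ - X) / ρ)) := le_max_left _ _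
  have t1 : max 0 (min 1 ((4 * s ^ 2 + ρ - X) / ρ)) ≤ 1 := max_le zero_le_one (min_le_left _ _)
  unfold h00
  constructor
  · exact mul_nonneg p0 (div_nonneg t0 m0.le)
  · rw [← mul_div_assoc, div_le_one m0]
    calc _ ≤ X * (4 - X) * 1 := mul_le_mul_of_nonneg_left t1 p0
      _ ≤ _ := by rw [mul_one]; exact le_max_left _ _

lemma h00_z {ν ρ X : ℝ} (hρ : 0 < ρ) (hX : 4 * s ^ 2 + ρ ≤ X) : h00 s ν ρ X = 0 := by
  have h1 : (4 * s ^ 2 + ρ - X) / ρ ≤ 0 := div_nonpos_of_nonpos_of_nonneg (by linarith) hρ.le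
  unfold h00
  rw [max_eq_left ((min_le_right _ _).trans h1), zero_div]

lemma h00_e {x1 ρ X : ℝ} (hs1 : s ^ 2 < 1) (h1 : 0 < x1) (hρ : 0 < ρ) (hX : x1 ≤ X)
    (hX4 : X ≤ 4 * s ^ 2) : h00 s (x1 * (4 - 4 * s ^ 2)) ρ X = 1 / (X * (4 - X)) := by
  have h2 : 1 ≤ (4 * s ^ 2 + ρ - X) / ρ := by rw [le_div_iff₀ hρ]; linarith
  have h3 : x1 * (4 - 4 * s ^ 2) ≤ X * (4 - X) := by
    have : 0 ≤ 4 - 4 * s ^ 2 := by linarith
    exact mul_le_mul hX (by linarith) this (by linarith)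
  unfold h00
  rw [min_eq_left h2, max_eq_right zero_le_one, max_eq_left h3]

lemma arc_gen {f : ℝ → ℝ} (fc : Continuous f) (sym : ∀ θ, f (2 * Real.pi - θ) = f θ)
    (f1 : ∀ θ, f θ ≤ 1) {y : ℝ} (hy : y ∈ Set.Icc (-1 : ℝ) 1)
    (hz : ∀ θ, Real.cos θ ≤ y → f θ ≤ 0) :
    ∫ θ in (0 : ℝ)..(2 * Real.pi), f θ ≤ 2 * Real.arccos y := by
  have hpi := Real.pi_pos
  have h1 : ∫ θ in (0 : ℝ)..(2 * Real.pi), f θ = 2 * ∫ θ in (0 : ℝ)..Real.pi, f θ := by
    have h2 := intervalIntegral.integral_add_adjacent_intervals (fc.intervalIntegrable 0 Real.pi)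
      (μ := volume) (fc.intervalIntegrable Real.pi (2 * Real.pi))
    have h3 := intervalIntegral.integral_comp_sub_left (a := 0) (b := Real.pi) f (2 * Real.pi)
    have e1 : 2 * Real.pi - Real.pi = Real.pi := by ring
    rw [e1, sub_zero] at h3
    simp only [sym] at h3
    rw [← h2, ← h3]; ring
  obtain ⟨α, hα⟩ : ∃ α, α = Real.arccos y := ⟨_, rfl⟩
  have α0 : 0 ≤ α := by rw [hα]; exact Real.arccos_nonneg _
  have απ : α ≤ Real.pi := by rw [hα]; exact Real.arccos_le_pi _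
  have cα : Real.cos α = y := by rw [hα]; exact Real.cos_arccos hy.1 hy.2
  have h2 : ∫ θ in (0 : ℝ)..Real.pi, f θ ≤ α := by
    have h3 := intervalIntegral.integral_add_adjacent_intervals (fc.intervalIntegrable 0 α)
      (μ := volume) (fc.intervalIntegrable α Real.pi)
    have h4 := intervalIntegral.integral_mono_on α0 (fc.intervalIntegrable 0 α)
      (μ := volume) (continuous_const.intervalIntegrable 0 α) (g := fun _ => (1 : ℝ))
      fun θ _ => f1 θ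
    have h5 := intervalIntegral.integral_mono_on απ (fc.intervalIntegrable α Real.pi)
      (μ := volume) (continuous_const.intervalIntegrable α Real.pi) (g := fun _ => (0 : ℝ))
      fun θ hθ => hz θ (by
        rw [← cα]; exact Real.cos_le_cos_of_nonneg_of_le_pi α0 hθ.2 hθ.1)
    rw [intervalIntegral.integral_const, smul_eq_mul, mul_one] at h4
    rw [intervalIntegral.integral_const, smul_eq_mul, mul_zero] at h5
    linarith
  rw [h1, ← hα]
  linarith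

lemma gI_H {ν ρ d : ℝ} (hν : 0 < ν) (hρ : 0 < ρ) (hd : 0 ≤ d) (hd1 : d ≤ 1)
    (hρ4 : 4 * s ^ 2 + ρ ≤ 4) {H : ℝ[X]}
    (hH : ∀ X ∈ Set.Icc (0 : ℝ) 4, |H.eval X - h00 s ν ρ X| ≤ d) :
    gI (PP * H) ≤ 2 * Real.arccos (1 - 2 * s ^ 2 - ρ / 2) / Real.pi + 48 * d := by
  have hpi := Real.pi_pos
  obtain ⟨f, hf⟩ : ∃ f : ℝ → ℝ, f = fun θ => ((2 - 2 * Real.cos θ) *
     (4 - (2 - 2 * Real.cos θ)) * h00 s ν ρ (2 - 2 * Real.cos θ)) ^ 2 := ⟨_, rfl⟩
  have fc : Continuous f := by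
    rw [hf]
    have := (h00_c (s := s) (ρ := ρ) hν).comp
      (by fun_prop : Continuous fun θ : ℝ => 2 - 2 * Real.cos θ)
    exact ((by fun_prop : Continuous fun θ : ℝ =>
      (2 - 2 * Real.cos θ) * (4 - (2 - 2 * Real.cos θ))).mul this).pow 2
  have hI : ∀ θ : ℝ, (2 - 2 * Real.cos θ) ∈ Set.Icc (0 : ℝ) 4 := fun θ => by
    have c1 := Real.cos_le_one θ
    have c2 := Real.neg_one_le_cos θ
    constructor <;> linarith
  have f1 : ∀ θ, f θ ≤ 1 := fun θ => by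
    rw [hf]
    have := h00_1 (s := s) (ρ := ρ) hν (hI θ)
    exact pow_le_one₀ this.1 this.2
  have s2 := sq_nonneg s
  have key := arc_gen fc (fun θ => by rw [hf]; simp only [Real.cos_two_pi_sub]) f1
    (y := 1 - 2 * s ^ 2 - ρ / 2) ⟨by linarith, by linarith⟩ (fun θ hθ => by
      rw [hf]; simp only; rw [h00_z hρ (by linarith)]; simp)
  have pw : ∀ θ : ℝ, (PP * H : ℝ[X]).eval (2 - 2 * Real.cos θ) ^ 2 ≤ f θ + 24 * d := by
    intro θ
    have h1 := hH _ (hI θ)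
    have h2 := h00_1 (s := s) (ρ := ρ) hν (hI θ)
    have h3 := hI θ
    rw [Polynomial.eval_mul, PP_ev, hf]
    simp only
    obtain ⟨X, hX⟩ : ∃ X, X = 2 - 2 * Real.cos θ := ⟨_, rfl⟩
    rw [← hX] at h1 h2 h3 ⊢
    obtain ⟨w, hw⟩ : ∃ w, w = X * (4 - X) * h00 s ν ρ X := ⟨_, rfl⟩
    obtain ⟨r, hr⟩ : ∃ r, r = X * (4 - X) * (H.eval X - h00 s ν ρ X) := ⟨_, rfl⟩
    have p0 : 0 ≤ X * (4 - X) := mul_nonneg h3.1 (by linarith [h3.2])
    have p4 : X * (4 - X) ≤ 4 := by nlinarith [sq_nonneg (X - 2)]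
    have rb : |r| ≤ 4 * d := by
      rw [hr, abs_mul, abs_of_nonneg p0]
      exact mul_le_mul p4 h1 (abs_nonneg _) (by norm_num)
    have e : X * (4 - X) * H.eval X = w + r := by rw [hw, hr]; ring
    rw [e, ← hw]
    rw [← hw] at h2
    have r1 := abs_le.1 rb
    have r2 : r ^ 2 ≤ (4 * d) ^ 2 := by rw [← sq_abs]; exact pow_le_pow_left₀ (abs_nonneg _) rb 2
    have r3 : w * r ≤ 1 * (4 * d) := by
      calc w * r ≤ w * (4 * d) := mul_le_mul_of_nonneg_left r1.2 h2.1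
        _ ≤ 1 * (4 * d) := mul_le_mul_of_nonneg_right h2.2 (by linarith)
    have r4 : d ^ 2 ≤ d := by nlinarith
    nlinarith
  have i1 : IntervalIntegrable (fun θ : ℝ => (PP * H : ℝ[X]).eval
      (2 - 2 * Real.cos θ) ^ 2) volume 0 (2 * Real.pi) :=
    (((PP * H : ℝ[X]).continuous.comp (by fun_prop :
      Continuous fun θ : ℝ => 2 - 2 * Real.cos θ)).pow 2).intervalIntegrable _ _
  have i2 : IntervalIntegrable f volume 0 (2 * Real.pi) := fc.intervalIntegrable _ _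
  have i3 : IntervalIntegrable (fun _ : ℝ => 24 * d) volume 0 (2 * Real.pi) :=
    continuous_const.intervalIntegrable _ _
  have h1 := intervalIntegral.integral_mono_on (by positivity : (0 : ℝ) ≤ 2 * Real.pi) i1
    (i2.add i3) fun θ _ => pw θ
  rw [intervalIntegral.integral_add i2 i3, intervalIntegral.integral_const, smul_eq_mul,
    sub_zero] at h1
  unfold gI
  calc 1 / Real.pi * _ ≤ 1 / Real.pi * (2 * Real.arccos (1 - 2 * s ^ 2 - ρ / 2) +
        2 * Real.pi * (24 * d)) := mul_le_mul_of_nonneg_left (by linarith) (by positivity)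
    _ = _ := by field_simp; ring

lemma arc_eq (hs : 0 < s) (hs1 : s < 1) : Real.arccos (1 - 2 * s ^ 2) = 2 * Real.arcsin s := by
  have h1 : Real.cos (2 * Real.arcsin s) = 1 - 2 * s ^ 2 := by
    rw [Real.cos_two_mul, Real.cos_sq', Real.sin_arcsin (by linarith) hs1.le]; ring
  rw [← h1, Real.arccos_cos]
  · have := Real.arcsin_nonneg.2 hs.le
    linarith
  · have := Real.arcsin_le_pi_div_two s
    linarith

theorem main3 (hs : 0 < s) (hs1 : s < 1) {e : ℝ} (he : 0 < e) (he1 : e ≤ 1) : ∃ G H T : ℝ[X],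
    WI (Fr s G) s ≤ e ∧ gI (PP * H) ≤ 4 / Real.pi * Real.arcsin s + e ∧
    gI ((QQ s * T).comp (C (s * s) * X)) ≤ 2 * (1 + e) ^ 2 ∧
    ∀ p : ℝ[X], EM s (Fr s G ^ 2) = 1 - PP * p →
      gI ((p - H * (QQ s * T)).comp (C (s * s) * X)) ≤ e ^ 2 := by
  have hpi := Real.pi_pos
  have s21 : s ^ 2 < 1 := by nlinarith
  have hc : 0 < 1 - s ^ 2 := by linarith
  have h5 : 0 < 4 - 4 * s ^ 2 := by linarith
  have L0 : 0 < La s := by
    unfold La
    refine Real.log_pos ?_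
    rw [one_lt_div (by linarith)]; linarith
  -- the width
  have t1 : ∀ᶠ η : ℝ in 𝓝[>] 0, 1 / (2 * Real.pi) * (∫ θ in (0 : ℝ)..(2 * Real.pi),
      f0 s η (1 + s ^ 2 + 2 * s * Real.cos θ)) < e / 2 := by
    have := (f0_int hs hs1).const_mul (1 / (2 * Real.pi))
    rw [mul_zero] at this
    exact this.eventually (gt_mem_nhds (by positivity))
  have t2 : ∀ᶠ η : ℝ in 𝓝[>] 0, η < La s / 4 :=
    (gt_mem_nhds (by positivity)).filter_mono nhdsWithin_le_nhds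
  have t3 : ∀ᶠ η : ℝ in 𝓝[>] 0, 0 < η := eventually_mem_nhdsWithin
  obtain ⟨η, ⟨u1, u2⟩, hη⟩ := ((t1.and t2).and t3).exists
  have h4 : 4 * η < La s := by linarith
  -- the point x1
  obtain ⟨x1, x10, hx1⟩ : ∃ x1 : ℝ, 0 < x1 ∧ ∀ Y : ℝ, 0 ≤ Y → Y < x1 → vz s η Y = 0 := by
    obtain ⟨r, r0, hr⟩ := Metric.eventually_nhds_iff.1 (vz_near0 hs hs1 hη h4)
    refine ⟨r, r0, fun Y h1 h2 => hr ?_⟩
    rw [dist_zero_right, Real.norm_eq_abs, abs_of_nonneg h1]; exact h2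
  -- the width of the cutoff
  obtain ⟨ρ, ρ0, ρ4, ρa⟩ : ∃ ρ : ℝ, 0 < ρ ∧ 4 * s ^ 2 + ρ ≤ 4 ∧
      2 * Real.arccos (1 - 2 * s ^ 2 - ρ / 2) / Real.pi < 4 / Real.pi * Real.arcsin s + e / 2 := by
    have c : Continuous fun ρ : ℝ => 2 * Real.arccos (1 - 2 * s ^ 2 - ρ / 2) / Real.pi :=
      ((Real.continuous_arccos.comp (by fun_prop)).const_mul 2).div_const _
    have c0 : 2 * Real.arccos (1 - 2 * s ^ 2 - 0 / 2) / Real.pi <
        4 / Real.pi * Real.arcsin s + e / 2 := by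
      rw [zero_div, sub_zero, arc_eq hs hs1]
      have : 2 * (2 * Real.arcsin s) / Real.pi = 4 / Real.pi * Real.arcsin s := by ring
      linarith
    have q1 := ((c.tendsto 0).eventually (gt_mem_nhds c0)).filter_mono
      (nhdsWithin_le_nhds (s := Set.Ioi 0))
    have q2 : ∀ᶠ ρ : ℝ in 𝓝[>] 0, ρ < 4 - 4 * s ^ 2 :=
      (gt_mem_nhds h5).filter_mono nhdsWithin_le_nhds
    have q3 : ∀ᶠ ρ : ℝ in 𝓝[>] 0, 0 < ρ := eventually_mem_nhdsWithin
    obtain ⟨ρ, ⟨v1, v2⟩, v3⟩ := ((q1.and q2).and q3).exists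
    exact ⟨ρ, v3, by linarith, v1⟩
  have hν : 0 < x1 * (4 - 4 * s ^ 2) := by positivity
  obtain ⟨H, hH⟩ := exists_polynomial_near_of_continuousOn 0 4 _
    (h00_c (s := s) (ρ := ρ) hν).continuousOn (e / 96) (by positivity)
  obtain ⟨M, hM0, hM⟩ := pbd H
  obtain ⟨d, hd0, hd1, hd2⟩ : ∃ d : ℝ, 0 < d ∧ d ≤ e ∧ M * d ≤ e / 8 := by
    refine ⟨min e (e / (8 * (M + 1))), by positivity, min_le_left _ _, ?_⟩
    have h1 : M * min e (e / (8 * (M + 1))) ≤ M * (e / (8 * (M + 1))) :=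
      mul_le_mul_of_nonneg_left (min_le_right _ _) hM0
    have h2 : M * (e / (8 * (M + 1))) = e / 8 * (M / (M + 1)) := by field_simp
    have h3 : M / (M + 1) ≤ 1 := by rw [div_le_one (by positivity)]; linarith
    calc _ ≤ _ := h1
      _ = _ := h2
      _ ≤ e / 8 * 1 := by gcongr
      _ = e / 8 := mul_one _
  obtain ⟨T, hT⟩ := exT hs hs1 hη h4 hd0
  obtain ⟨δ, hδ0, hδ1, hδ2, hδ3⟩ : ∃ δ : ℝ, 0 < δ ∧ δ ≤ 1 / 1024 ∧ 3072 * δ ≤ e / 2 ∧
      1536 * δ / (4 - 4 * s ^ 2) ≤ e / 8 := by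
    refine ⟨min (1 / 1024) (min (e / 6144) (e * (4 - 4 * s ^ 2) / 12288)), by positivity,
      min_le_left _ _, ?_, ?_⟩
    · have := (min_le_right (1 / 1024 : ℝ) _).trans (min_le_left (e / 6144)
        (e * (4 - 4 * s ^ 2) / 12288))
      linarith
    · rw [div_le_iff₀ h5]
      have := (min_le_right (1 / 1024 : ℝ) _).trans (min_le_right (e / 6144)
        (e * (4 - 4 * s ^ 2) / 12288))
      linarith
  obtain ⟨G, hG⟩ := approxG hs hs1 (f0_chi hs hs1 hη h4) hδ0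
  have hA : Adm0 s η δ G := hG
  refine ⟨G, H, T, ?_, ?_, ?_, fun p hp => ?_⟩
  · have := WI_bd0 hs hs1 hη h4 hδ0.le hδ1 hA
    linarith
  · have := gI_H (d := e / 96) hν ρ0 (by positivity) (by linarith) ρ4
      (fun X hX => (hH X hX).le)
    linarith
  · refine gI_of hs (by positivity) fun Y hY => ?_
    have h1 := hT Y ⟨hY.1.le, hY.2⟩
    have h2 := vz_0 (s := s) hη h4 Y
    have h3 := vz_1 (s := s) (η := η) Y
    have h6 := abs_le.1 h1
    rw [abs_le]; constructor <;> linarith [h6.1, h6.2]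
  · have h1 : gI ((p - H * (QQ s * T)).comp (C (s * s) * X)) ≤ 2 * (e / 2) ^ 2 := by
      refine gI_of hs (by positivity) fun Y hY => ?_
      have a1 := p_close hs hs1 hη h4 hδ0.le hδ1 hA hp hY.1 hY.2
      have Y4 : Y ≤ 4 := by linarith [hY.2]
      have a2 := hH Y ⟨hY.1.le, Y4⟩
      have a3 := hM Y ⟨hY.1.le, Y4⟩
      have a4 := hT Y ⟨hY.1.le, hY.2⟩
      have v0 := vz_0 (s := s) hη h4 Y
      have v1 := vz_1 (s := s) (η := η) Y
      have a5 : vz s η Y / (Y * (4 - Y)) = vz s η Y * h00 s (x1 * (4 - 4 * s ^ 2)) ρ Y := by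
        rcases lt_or_ge Y x1 with h | h
        · rw [hx1 Y hY.1.le h]; simp
        · rw [h00_e s21 x10 ρ0 h hY.2]; ring
      rw [Polynomial.eval_sub, Polynomial.eval_mul]
      obtain ⟨q, hq⟩ : ∃ q, q = (QQ s * T).eval Y := ⟨_, rfl⟩
      rw [← hq] at a4 ⊢
      have e3 : p.eval Y - H.eval Y * q = (p.eval Y - vz s η Y / (Y * (4 - Y))) -
          vz s η Y * (H.eval Y - h00 s (x1 * (4 - 4 * s ^ 2)) ρ Y) -
          H.eval Y * (q - vz s η Y) := by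
        rw [a5]; ring
      rw [e3]
      have b1 : |vz s η Y * (H.eval Y - h00 s (x1 * (4 - 4 * s ^ 2)) ρ Y)| ≤ 1 * (e / 96) := by
        rw [abs_mul, abs_of_nonneg v0]
        exact mul_le_mul v1 a2.le (abs_nonneg _) zero_le_one
      have b2 : |H.eval Y * (q - vz s η Y)| ≤ M * d := by
        rw [abs_mul]
        exact mul_le_mul a3 a4 (abs_nonneg _) hM0
      have c1 := abs_sub (p.eval Y - vz s η Y / (Y * (4 - Y)))
        (vz s η Y * (H.eval Y - h00 s (x1 * (4 - 4 * s ^ 2)) ρ Y))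
      have c2 := abs_sub ((p.eval Y - vz s η Y / (Y * (4 - Y))) -
        vz s η Y * (H.eval Y - h00 s (x1 * (4 - 4 * s ^ 2)) ρ Y)) (H.eval Y * (q - vz s η Y))
      linarith
    have : 0 ≤ e ^ 2 := sq_nonneg e
    nlinarith

end

end Pool.Agent.Run7.h9.JF
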