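import Pool.Agent.Run7.h9.JF.Sp3
import Pool.Agent.Run7.h9.JF.Mn
import Pool.Agent.Run7.h9.JF.Ge

/-! The second lower bound for the joint fourth moment. -/
set_option autoImplicit false
open MeasureTheory Filter Topology Complex Set
open scoped ContDiff Real Manifold

namespace Pool.Agent.Run7.h9.JF

open Pool.Agent.W745.RW Pool.Agent.TH294.RS Pool.Agent.Y265.HY Pool.Agent.Y265.HY.PS
open Pool.Agent.Y265.HY.JC Pool.Agent.Run7.h9.TC

noncomputable section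

variable {Ω : Set ℂ} {lam mu nu : ℕ → ℝ} {u g k : ℕ → ℂ → ℝ} {C : ℝ}

open Polynomial in
/-- the lower bound, when the ratio of the frequencies stays in a compact interval -/
lemma low_in3 (T : T3 Ω lam mu nu u g k C) {φ : ℂ → ℝ} (hφ : TF Ω φ) (h0 : ∀ z, 0 ≤ φ z)
    {σ a b : ℝ} (ha : 0 < a) (hb : b < 1) (hσ : Tendsto (sg lam mu) atTop (𝓝 σ))
    (hab : ∀ n, sg lam mu n ∈ Set.Icc a b) (σa : σ ∈ Set.Icc a b) {ε : ℝ} (hε : 0 < ε) :
    ∀ᶠ n in atTop, (1 - 2 * √(2 / π * Real.arcsin σ)) * (∫ z, φ z) - ε ≤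
      ∫ z, φ z * (u n z ^ 2 * g n z ^ 2) := by
  have hpi := Real.pi_pos
  have σ0 : 0 < σ := lt_of_lt_of_le ha σa.1
  have σ1 : σ < 1 := lt_of_le_of_lt σa.2 hb
  have A0 : 0 ≤ Real.arcsin σ := Real.arcsin_nonneg.2 σ0.le
  obtain ⟨I0, hI⟩ : ∃ I0, I0 = ∫ z, φ z := ⟨_, rfl⟩
  have I0n : 0 ≤ I0 := by rw [hI]; exact integral_nonneg h0
  obtain ⟨κ, hκ⟩ : ∃ κ, κ = √(gI TC.PP) := ⟨_, rfl⟩
  have κ0 : 0 ≤ κ := by rw [hκ]; exact Real.sqrt_nonneg _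
  obtain ⟨Φ, hΦ⟩ : ∃ Φ : ℝ → ℝ, Φ = fun e => (1 - 2 * (2 * e) -
    √(4 / π * Real.arcsin σ + e) * (√2 * (1 + 2 * e)) - κ * (2 * e)) * I0 := ⟨_, rfl⟩
  have Φc : Continuous Φ := by rw [hΦ]; fun_prop
  have Φ0 : Φ 0 = (1 - 2 * √(2 / π * Real.arcsin σ)) * I0 := by
    have e1 : √(4 / π * Real.arcsin σ) * √2 = 2 * √(2 / π * Real.arcsin σ) := by
      rw [← Real.sqrt_mul (by positivity), show 4 / π * Real.arcsin σ * 2 =
        2 ^ 2 * (2 / π * Real.arcsin σ) by ring, Real.sqrt_mul (by positivity),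
        Real.sqrt_sq (by norm_num)]
    rw [hΦ]
    simp only [mul_zero, add_zero, mul_one, sub_zero]
    rw [e1]
  obtain ⟨e, ⟨he2, he1⟩, he0⟩ : ∃ e : ℝ, (Φ 0 - ε / 2 < Φ e ∧ e < 1) ∧ 0 < e := by
    have q1 := ((Φc.tendsto 0).eventually (lt_mem_nhds (show Φ 0 - ε / 2 < Φ 0 by
      linarith))).filter_mono (nhdsWithin_le_nhds (s := Set.Ioi 0))
    have q2 : ∀ᶠ e : ℝ in 𝓝[>] 0, e < 1 :=
      (gt_mem_nhds (by norm_num)).filter_mono nhdsWithin_le_nhds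
    have q3 : ∀ᶠ e : ℝ in 𝓝[>] 0, 0 < e := eventually_mem_nhdsWithin
    exact ((q1.and q2).and q3).exists
  obtain ⟨G, H, Tp, hG1, hG2, hG3, hG4⟩ := main3 σ0 σ1 he0 he1.le
  obtain ⟨P2, hP2⟩ := kdiv ha hb G
  obtain ⟨P, hPd⟩ : ∃ P : (KK a b)[X], P = QQ ks * Tp.map kst := ⟨_, rfl⟩
  obtain ⟨P3, hP3⟩ : ∃ P3 : (KK a b)[X], P3 = P2 - H.map kst * P := ⟨_, rfl⟩
  have kx : ∀ (x : Set.Icc a b) (q : ℝ[X]), (q.map (kst (a := a) (b := b))).map (evx x) = q := by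
    intro x q
    rw [Polynomial.map_map]
    have : (evx x).comp kst = RingHom.id ℝ := by ext r; rfl
    rw [this, Polynomial.map_id]
  have Pm : ∀ x : Set.Icc a b, P.map (evx x) = QQ x.1 * Tp := by
    intro x
    rw [hPd, Polynomial.map_mul, QQ_map, kx]
    rfl
  have P3m : ∀ x : Set.Icc a b, P3.map (evx x) = P2.map (evx x) - H * (QQ x.1 * Tp) := by
    intro x
    rw [hP3, Polynomial.map_sub, Polynomial.map_mul, kx, Pm]
  obtain ⟨xs, hxs⟩ : ∃ xs : ℕ → Set.Icc a b, ∀ n, (xs n).1 = sg lam mu n :=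
    ⟨fun n => ⟨sg lam mu n, hab n⟩, fun n => rfl⟩
  obtain ⟨x0, hx0⟩ : ∃ x0 : Set.Icc a b, x0.1 = σ := ⟨⟨σ, σa⟩, rfl⟩
  have xl : Tendsto xs atTop (𝓝 x0) := by
    rw [tendsto_subtype_rng, hx0]
    simp only [hxs]
    exact hσ
  have hS : ∀ n, T.S.s.1 n = (xs n).1 := fun n => by rw [hxs]; rfl
  have hrs : rho xs ks = T.S.s := Subtype.ext (funext fun n => (hS n).symm)
  have hc : (rho xs).comp (kst (a := a) (b := b)) = cst := by
    ext r
    rfl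
  have hF : EM T.S.s (((FK ha hb G).map (rho xs)) ^ 2) =
      1 - TC.PP * H.map cst * P.map (rho xs) - TC.PP * P3.map (rho xs) := by
    have h1 := congrArg (Polynomial.map (rho xs)) hP2
    rw [EM_map, Polynomial.map_pow, Polynomial.map_sub, Polynomial.map_one,
      Polynomial.map_mul, PP_map, hrs] at h1
    rw [h1, hP3, Polynomial.map_sub, Polynomial.map_mul, Polynomial.map_map, hc]
    ring
  have c1 : Tendsto (fun n => WI ((FK ha hb G).map (evx (xs n))) (xs n).1) atTop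
      (𝓝 (WI (Fr σ G) σ)) := by
    have := ((WI_x_cont (FK ha hb G)).tendsto x0).comp xl
    rw [FK_map, hx0] at this
    exact this
  have c2 : Tendsto (fun n => gI (Qx P (xs n))) atTop (𝓝 (gI (Qx P x0))) :=
    ((gI_Qx_cont P).tendsto x0).comp xl
  have c3 : Tendsto (fun n => gI (Qx P3 (xs n))) atTop (𝓝 (gI (Qx P3 x0))) :=
    ((gI_Qx_cont P3).tendsto x0).comp xl
  have g2 : gI (Qx P x0) ≤ 2 * (1 + e) ^ 2 := by
    unfold Qx
    rw [Pm, hx0]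
    exact hG3
  have g3 : gI (Qx P3 x0) ≤ e ^ 2 := by
    have h1 := hp_x ha hb hP2 x0
    rw [hx0] at h1
    have h2 := hG4 _ h1
    unfold Qx
    rw [P3m, hx0]
    exact h2
  have d1 : ∀ᶠ n in atTop, WI (((FK ha hb G).map (rho xs)).map (evn n)) (sg lam mu n) ≤
      2 * e := by
    filter_upwards [c1.eventually (gt_mem_nhds (show WI (Fr σ G) σ < 2 * e by
      linarith))] with n hn
    rw [map_rho, ← hxs]
    exact hn.le
  have d2 : ∀ᶠ n in atTop, gI ((Rs T.S.s (P.map (rho xs))).map (evn n)) ≤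
      (√2 * (1 + 2 * e)) ^ 2 := by
    have h2 : (√2 * (1 + 2 * e)) ^ 2 = 2 * (1 + 2 * e) ^ 2 := by
      rw [mul_pow, Real.sq_sqrt (by norm_num)]
    filter_upwards [c2.eventually (gt_mem_nhds (show gI (Qx P x0) < (√2 * (1 + 2 * e)) ^ 2 by
      rw [h2]; nlinarith))] with n hn
    rw [Rs_x hS]
    exact hn.le
  have d3 : ∀ᶠ n in atTop, gI ((Rs T.S.s (P3.map (rho xs))).map (evn n)) ≤ (2 * e) ^ 2 := by
    filter_upwards [c3.eventually (gt_mem_nhds (show gI (Qx P3 x0) < (2 * e) ^ 2 by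
      nlinarith))] with n hn
    rw [Rs_x hS]
    exact hn.le
  have r0 : ∀ x : Set.Icc a b, (QQ x.1 * Tp).eval 0 = 0 := fun x => by
    rw [Polynomial.eval_mul, QQ_ev, zero_mul, zero_mul]
  have r4 : ∀ x : Set.Icc a b, (QQ x.1 * Tp).eval (4 * x.1 ^ 2) = 0 := fun x => by
    rw [Polynomial.eval_mul, QQ_ev, sub_self, mul_zero, zero_mul]
  have w4 : ∀ n, (xs n).1 * (xs n).1 * 4 = 4 * (xs n).1 ^ 2 := fun n => by ring
  have key := fb3 T hφ h0 H _ _ _ hF (fun n => by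
      rw [Rs_x hS, Qx_ev, mul_zero, Pm]
      exact r0 _) (fun n => by
      rw [Rs_x hS, Qx_ev, w4, Pm]
      exact r4 _) (fun n => by
      rw [Rs_x hS, Qx_ev, mul_zero, P3m, Polynomial.eval_sub, Polynomial.eval_mul, r0,
        P0 (pos_of ha _) (lt_of hb _) G _ (hp_x ha hb hP2 _)]
      ring) (fun n => by
      rw [Rs_x hS, Qx_ev, w4, P3m, Polynomial.eval_sub, Polynomial.eval_mul, r4,
        P4 (pos_of ha _) (lt_of hb _) G _ (hp_x ha hb hP2 _)]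
      ring) (β := √2 * (1 + 2 * e)) (δ := 2 * e) (by positivity) (by positivity) d1 d2 d3
      (ε := ε / 2) (by positivity)
  filter_upwards [key] with n hn
  rw [← hI] at hn ⊢
  rw [← hκ] at hn
  refine le_trans ?_ hn
  rw [← Φ0]
  have h1 : √(gI (TC.PP * H)) ≤ √(4 / π * Real.arcsin σ + e) := Real.sqrt_le_sqrt hG2
  have h2 : √(gI (TC.PP * H)) * (√2 * (1 + 2 * e)) * I0 ≤
      √(4 / π * Real.arcsin σ + e) * (√2 * (1 + 2 * e)) * I0 := by gcongr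
  have h3 : Φ e = (1 - 2 * (2 * e) - √(4 / π * Real.arcsin σ + e) * (√2 * (1 + 2 * e)) -
    κ * (2 * e)) * I0 := by rw [hΦ]
  have e4 : (1 - 2 * (2 * e) - √(gI (TC.PP * H)) * (√2 * (1 + 2 * e)) - κ * (2 * e)) * I0 =
      Φ e + (√(4 / π * Real.arcsin σ + e) * (√2 * (1 + 2 * e)) * I0 -
        √(gI (TC.PP * H)) * (√2 * (1 + 2 * e)) * I0) := by rw [h3]; ring
  rw [e4]
  linarith

/-- the lower bound -/
theorem low3 (T : T3 Ω lam mu nu u g k C) {φ : ℂ → ℝ} (hφ : TF Ω φ) (h0 : ∀ z, 0 ≤ φ z)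
    {σ : ℝ} (hσ : Tendsto (sg lam mu) atTop (𝓝 σ)) (σ0 : 0 < σ) (σ1 : σ < 1) {ε : ℝ}
    (hε : 0 < ε) : ∀ᶠ n in atTop, (1 - 2 * √(2 / π * Real.arcsin σ)) * (∫ z, φ z) - ε ≤
      ∫ z, φ z * (u n z ^ 2 * g n z ^ 2) := by
  have h1 : ∀ᶠ n in atTop, sg lam mu n ∈ Set.Icc (σ / 2) ((1 + σ) / 2) :=
    hσ.eventually (Icc_mem_nhds (by linarith) (by linarith))
  obtain ⟨N, hN⟩ := eventually_atTop.1 h1
  have t := tendsto_add_atTop_nat N
  have key := low_in3 (T.cmp t) hφ h0 (σ := σ) (a := σ / 2) (b := (1 + σ) / 2) (by linarith)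
    (by linarith) (hσ.comp t) (fun n => hN (n + N) (by omega)) ⟨by linarith, by linarith⟩ hε
  obtain ⟨M, hM⟩ := eventually_atTop.1 key
  refine eventually_atTop.2 ⟨M + N, fun n hn => ?_⟩
  have := hM (n - N) (by omega)
  simp only [Nat.sub_add_cancel (show N ≤ n by omega)] at this
  exact this

theorem low_gen3 (D : JD Ω lam mu u g) (D' : JD Ω mu mu g g) {φ : ℂ → ℝ} (hφ : TF Ω φ)
    (h0 : ∀ z, 0 ≤ φ z) {δ ε : ℝ} (hδ : 0 < δ) (hε : 0 < ε) :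
    ∀ᶠ n in atTop, δ ≤ mu n / lam n → mu n / lam n ≤ 1 - δ →
      (1 - 2 * √(2 / π * Real.arcsin (√(mu n / lam n)))) * (∫ z, φ z) - ε ≤
        ∫ z, φ z * (u n z ^ 2 * g n z ^ 2) :=
  gen D D' (fun σ => 1 - 2 * √(2 / π * Real.arcsin σ)) (by
    have := Real.continuous_arcsin
    fun_prop)
    (fun _ _ _ _ _ T _ hσ s0 s1 _ hε => low3 T hφ h0 hσ s0 s1 hε) hδ hε

end

end Pool.Agent.Run7.h9.JF
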