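import Pool.Agent.Run7.h9.TC.Fin

/-! The polynomials of the lower bound. -/
set_option autoImplicit false
open MeasureTheory Filter Topology Polynomial

namespace Pool.Agent.Run7.h9.JF

open Pool.Agent.Y265.HY.JC (gI cnt)
open Pool.Agent.Run7.h9.TC

noncomputable section

section ring

variable {R R' : Type*} [CommRing R] [CommRing R'] (f : R →+* R')

/-- the polynomial; `s` the ratio of the frequencies, `a b d` interpolation constants -/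
def FF (s a b d : R) (G : R[X]) : R[X] :=
  1 + (X - C ((1 - s) ^ 2)) ^ 2 * (C a * (X ^ 2 - C ((1 - s ^ 2) ^ 2)) +
    C b * ((X - C ((1 + s) ^ 2)) * (X + C (1 - s ^ 2))) +
    C d * ((X - C ((1 + s) ^ 2)) * (X - C (1 - s ^ 2))) +
    (X - C ((1 + s) ^ 2)) * (X ^ 2 - C ((1 - s ^ 2) ^ 2)) * G)

lemma FF_map (s a b d : R) (G : R[X]) : (FF s a b d G).map f = FF (f s) (f a) (f b) (f d) (G.map f) := by
  unfold FF
  simp

end ring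

lemma FF_ev (s a b d : ℝ) (G : ℝ[X]) (z : ℝ) : (FF s a b d G).eval z =
    1 + (z - (1 - s) ^ 2) ^ 2 * (a * (z ^ 2 - (1 - s ^ 2) ^ 2) +
    b * ((z - (1 + s) ^ 2) * (z + (1 - s ^ 2))) + d * ((z - (1 + s) ^ 2) * (z - (1 - s ^ 2))) +
    (z - (1 + s) ^ 2) * (z ^ 2 - (1 - s ^ 2) ^ 2) * G.eval z) := by
  unfold FF
  simp

/-- the constants -/
def ca (s : ℝ) : ℝ := -1 / (64 * s ^ 3 * (1 + s) ^ 2)
def cb (s : ℝ) : ℝ := -(√(1 / 2) - 1) / (16 * s ^ 3 * (1 + s) ^ 2 * (1 - s) ^ 3)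
def cd (s : ℝ) : ℝ := (√(1 / 2) - 1) / (16 * (1 + s) ^ 2 * (1 - s) ^ 3)

/-- the polynomial at a real parameter -/
def Fr (s : ℝ) (G : ℝ[X]) : ℝ[X] := FF s (ca s) (cb s) (cd s) G

lemma Fr_m {s : ℝ} (G : ℝ[X]) : (Fr s G).eval ((1 - s) ^ 2) = 1 := by
  unfold Fr; rw [FF_ev]; ring

lemma Fr_p {s : ℝ} (hs : 0 < s) (G : ℝ[X]) : (Fr s G).eval ((1 + s) ^ 2) = 0 := by
  have h1 : (1 + s) ≠ 0 := by positivity
  unfold Fr; rw [FF_ev]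
  unfold ca
  field_simp
  ring

lemma Fr_c {s : ℝ} (hs : 0 < s) (hs1 : s < 1) (G : ℝ[X]) :
    (Fr s G).eval (1 - s ^ 2) = √(1 / 2) := by
  have h1 : (1 + s) ≠ 0 := by positivity
  have h2 : (1 - s) ≠ 0 := by linarith
  unfold Fr; rw [FF_ev]
  unfold cb
  field_simp
  ring

lemma Fr_c' {s : ℝ} (hs : 0 < s) (hs1 : s < 1) (G : ℝ[X]) :
    (Fr s G).eval (-(1 - s ^ 2)) = √(1 / 2) := by
  have h1 : (1 + s) ≠ 0 := by positivity
  have h2 : (1 - s) ≠ 0 := by linarith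
  unfold Fr; rw [FF_ev]
  unfold cd
  field_simp
  ring

/-- the remainder -/
lemma R_ev {s : ℝ} (G : ℝ[X]) {Y a b : ℝ} (h1 : a + b = 2 + 2 * s ^ 2 - Y)
    (h2 : a * b = (1 - s ^ 2) ^ 2) : (1 - EM s (Fr s G ^ 2)).eval Y =
    1 - (Fr s G).eval a ^ 2 - (Fr s G).eval b ^ 2 := by
  rw [Polynomial.eval_sub, EM_root _ h1 h2, Polynomial.eval_pow, Polynomial.eval_pow,
    Polynomial.eval_one]
  ring

lemma hf : √(1 / 2 : ℝ) ^ 2 = 1 / 2 := Real.sq_sqrt (by norm_num)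

lemma R_0 {s : ℝ} (hs : 0 < s) (G : ℝ[X]) : (1 - EM s (Fr s G ^ 2)).eval 0 = 0 := by
  rw [R_ev G (a := (1 - s) ^ 2) (b := (1 + s) ^ 2) (by ring) (by ring), Fr_m, Fr_p hs]
  norm_num

lemma R_4 {s : ℝ} (hs : 0 < s) (hs1 : s < 1) (G : ℝ[X]) :
    (1 - EM s (Fr s G ^ 2)).eval 4 = 0 := by
  rw [R_ev G (a := -(1 - s ^ 2)) (b := -(1 - s ^ 2)) (by ring) (by ring), Fr_c' hs hs1, hf]
  norm_num

lemma R_s {s : ℝ} (hs : 0 < s) (hs1 : s < 1) (G : ℝ[X]) :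
    (1 - EM s (Fr s G ^ 2)).eval (4 * s ^ 2) = 0 := by
  rw [R_ev G (a := 1 - s ^ 2) (b := 1 - s ^ 2) (by ring) (by ring), Fr_c hs hs1, hf]
  norm_num

/-- the roots over `Y`, with their ranges -/
lemma roots2 {s : ℝ} (hs : 0 < s) (hs1 : s < 1) {Y : ℝ} (hY0 : 0 ≤ Y) (hY : Y ≤ 4 * s ^ 2) :
    ∃ a b : ℝ, a + b = 2 + 2 * s ^ 2 - Y ∧ a * b = (1 - s ^ 2) ^ 2 ∧
      (1 - s) ^ 2 ≤ a ∧ a ≤ 1 - s ^ 2 ∧ 1 - s ^ 2 ≤ b ∧ b ≤ (1 + s) ^ 2 ∧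
      (a - (1 - s) ^ 2) * (a - (1 + s) ^ 2) = -(Y * a) ∧
      (b - (1 - s) ^ 2) * (b - (1 + s) ^ 2) = -(Y * b) := by
  have s2 : s ^ 2 < 1 := by nlinarith
  have hd : 0 ≤ (4 - Y) * (4 * s ^ 2 - Y) := mul_nonneg (by nlinarith) (by linarith)
  obtain ⟨q, hq⟩ : ∃ q, q = √((4 - Y) * (4 * s ^ 2 - Y)) := ⟨_, rfl⟩
  have q0 : 0 ≤ q := by rw [hq]; exact Real.sqrt_nonneg _
  have q2 : q ^ 2 = (4 - Y) * (4 * s ^ 2 - Y) := by rw [hq]; exact Real.sq_sqrt hd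
  obtain ⟨a, ha⟩ : ∃ a, a = (2 + 2 * s ^ 2 - Y - q) / 2 := ⟨_, rfl⟩
  obtain ⟨b, hb⟩ : ∃ b, b = (2 + 2 * s ^ 2 - Y + q) / 2 := ⟨_, rfl⟩
  have h1 : a + b = 2 + 2 * s ^ 2 - Y := by rw [ha, hb]; ring
  have h2 : a * b = (1 - s ^ 2) ^ 2 := by
    have : a * b = ((2 + 2 * s ^ 2 - Y) ^ 2 - q ^ 2) / 4 := by rw [ha, hb]; ring
    rw [this, q2]; ring
  have hab : a ≤ b := by rw [ha, hb]; linarith
  have t0 : 0 < 2 + 2 * s ^ 2 - Y := by nlinarith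
  have b0 : 0 < b := by rw [hb]; linarith
  have c0 : 0 < 1 - s ^ 2 := by linarith
  have a0 : 0 < a := by
    have : 0 < a * b := by rw [h2]; positivity
    exact (mul_pos_iff_of_pos_right b0).1 this
  have pa : (a - (1 - s) ^ 2) * (a - (1 + s) ^ 2) = -(Y * a) := by
    linear_combination a * h1 - h2
  have pb : (b - (1 - s) ^ 2) * (b - (1 + s) ^ 2) = -(Y * b) := by
    linear_combination b * h1 - h2
  have ac : a ≤ 1 - s ^ 2 := by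
    by_contra hc
    push Not at hc
    nlinarith
  have cb : 1 - s ^ 2 ≤ b := by
    by_contra hc
    push Not at hc
    nlinarith
  refine ⟨a, b, h1, h2, ?_, ac, cb, ?_, pa, pb⟩
  · by_contra hc
    push Not at hc
    have h3 : 0 < (a - (1 - s) ^ 2) * (a - (1 + s) ^ 2) :=
      mul_pos_of_neg_of_neg (by linarith) (by nlinarith)
    rw [pa] at h3
    nlinarith
  · by_contra hc
    push Not at hc
    have h3 : 0 < (b - (1 - s) ^ 2) * (b - (1 + s) ^ 2) :=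
      mul_pos (by nlinarith) (by linarith)
    rw [pb] at h3
    nlinarith

end

end Pool.Agent.Run7.h9.JF
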