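import Pool.Agent.Run7.h9.TC.Fin

/-! The joint power spectrum with a general polynomial. -/
set_option autoImplicit false
open MeasureTheory Filter Topology Complex Set
open scoped ContDiff Real Manifold

namespace Pool.Agent.Run7.h9.JF

open Pool.Agent.W745.RW Pool.Agent.TH294.RS Pool.Agent.Y265.HY Pool.Agent.Y265.HY.PS
open Pool.Agent.Y265.HY.JC Pool.Agent.R314.JN AddMonoidAlgebra Pool.Agent.Run7.h9.TC

noncomputable section

section alg

variable {R : Type*} [CommRing R] {V : Type*} [AddCommGroup V] [Module R V]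
variable {s : R} {D : ℤ → ℤ → ℤ → ℤ → V}

open Polynomial in
theorem main_alg2 (h : Rel s D) (F P2 : R[X]) (hP : EM s (F ^ 2) = 1 - TC.PP * P2) :
    (2 : R) • LL (Du D) (Polynomial.aeval (e1 s) F * Polynomial.aeval (e2 s) F) =
    LL (Du D) (1 : AddMonoidAlgebra R Ga) -
      LL (Du D) (Polynomial.aeval TC.eX (TC.PP : R[X]) * Polynomial.aeval (eY s) P2) := by
  have q12 : ∀ M : R[X], pr D (Polynomial.aeval (e1 s) M) = pr D (Polynomial.aeval (e2 s) M) := by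
    intro M
    rw [Polynomial.aeval_def, Polynomial.aeval_def, Polynomial.hom_eval₂, Polynomial.hom_eval₂,
      p12 h]
  have qXY : ∀ M : R[X], pr D (Polynomial.aeval (TC.eX : AddMonoidAlgebra R Ga) M) =
      pr D (Polynomial.aeval (eY s) M) := by
    intro M
    rw [Polynomial.aeval_def, Polynomial.aeval_def, Polynomial.hom_eval₂, Polynomial.hom_eval₂,
      pXY h]
  have s1 : LL (Du D) (Polynomial.aeval (e1 s) F * Polynomial.aeval (e2 s) F) =
      LL (Du D) (Polynomial.aeval (e1 s) (F ^ 2)) := by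
    refine LL_pr ?_
    rw [map_mul, ← q12, ← map_mul, ← map_mul, ← sq]
  have s2 : LL (Du D) (Polynomial.aeval (e1 s) (F ^ 2)) =
      LL (Du D) (Polynomial.aeval (e1' s) (F ^ 2)) := by
    rw [← LL_tau h (Polynomial.aeval (e1 s) (F ^ 2)), tau_aeval, tau_e1]
  rw [s1, two_smul]
  nth_rewrite 2 [s2]
  rw [← map_add, ← map_sub]
  refine LL_pr ?_
  rw [map_add, pEM h, hP]
  simp only [map_sub, map_mul, map_one, qXY P2]

end alg

open Polynomial in
theorem main_seq2 {s : Rb} {D : ℤ → ℤ → ℤ → ℤ → ℕ → ℂ} (h : RelS s D) (F P2 : Rb[X])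
    (hP : EM s (F ^ 2) = 1 - TC.PP * P2) :
    Tendsto (fun n => 2 * LL (Du D) (Polynomial.aeval (e1 s) F * Polynomial.aeval (e2 s) F) n -
      (LL (Du D) (1 : AddMonoidAlgebra Rb Ga) n -
      LL (Du D) (Polynomial.aeval TC.eX (TC.PP : Rb[X]) * Polynomial.aeval (eY s) P2) n)) atTop
      (𝓝 0) := by
  have k := main_alg2 h.rel F P2 hP
  have e : ∀ P, LL (Du (fun a b c d => nul.mkQ (D a b c d))) P = nul.mkQ (LL (Du D) P) := fun P =>
    LL_comp nul.mkQ (Du D) P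
  rw [e, e, e, ← map_smul, ← map_sub, ← sub_eq_zero, ← map_sub] at k
  have k2 := (Submodule.Quotient.mk_eq_zero _).1 k
  refine (mem_nul.1 k2).congr fun n => ?_
  have e : ((2 : Rb) : ℕ → ℝ) n = 2 := rfl
  simp only [Pi.sub_apply, smul_seq]
  rw [e]; norm_num

variable {B : Set ℂ} {h κ : ℕ → ℝ} {w v : ℤ → ℕ → ℂ → ℂ} {C0 : ℝ}

open Polynomial in
theorem spec2 (S : Sys2 B h κ w v C0) {φ : ℂ → ℝ} (hφ : TF B φ) (F P2 : Rb[X])
    (hP : EM S.s (F ^ 2) = 1 - TC.PP * P2) :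
    Tendsto (fun n => 2 * (∫ z, (φ z : ℂ) * (Eo h F w v n z * Eo h F w v n z)) -
      2 * (((∫ z, φ z : ℝ) : ℂ) * ((WI (F.map (evn n)) (S.s.1 n) : ℝ) : ℂ)) -
      ((∫ z, (φ z : ℂ) * (w 0 n z * w 0 n z * (v 0 n z * v 0 n z))) - ((∫ z, φ z : ℝ) : ℂ)) +
      ∫ z, (φ z : ℂ) * (Eo h TC.PP w w n z * Eo κ (Rs S.s P2) v v n z)) atTop (𝓝 0) := by
  have i1 := (int_mixed S hφ (good_Eo S F) (good_Eo S F)).const_mul 2
  have g1 := good_Eo S.diag TC.PP
  have g2 := good_Eo S.symm.diag (Rs S.s P2)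
  rw [diag_s S] at g1
  rw [diag_s S.symm] at g2
  have i2 := int_sq S hφ g1 g2
  have i3 := main_seq2 (DN_rel S hφ) F P2 hP
  have o1 : ∀ n, LL (Du (JN w v φ)) (1 : AddMonoidAlgebra Rb Ga) n =
      ∫ z, (φ z : ℂ) * (w 0 n z * w 0 n z * (v 0 n z * v 0 n z)) := by
    intro n
    rw [one_mn, LL_mn]
    rfl
  have o2 : ∀ n, LL (Du Wk) (1 : AddMonoidAlgebra Rb Ga) n = 1 := by
    intro n
    rw [one_mn, LL_mn]
    show Pool.Agent.W745.RW.CC 0 0 * Pool.Agent.W745.RW.CC 0 0 = 1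
    unfold Pool.Agent.W745.RW.CC
    simp
  simp only [LL_DN, wick_eval, wk_PP, o1, o2] at i3
  rw [← aeval_map, ← aeval_map, ixu_rr, iyw_rr] at i1
  rw [← aeval_map, ixy_rr, Rs_aeval] at i2
  have k := (i1.add i2).add i3
  rw [mul_zero, add_zero, add_zero] at k
  refine k.congr fun n => ?_
  simp only [Pi.zero_apply, mul_zero, sub_zero]
  ring

variable {Ω : Set ℂ} {lam mu nu : ℕ → ℝ} {u g k : ℕ → ℂ → ℝ} {C : ℝ}

open Polynomial in
theorem spec2_re (T : T3 Ω lam mu nu u g k C) {φ : ℂ → ℝ} (hφ : TF Ω φ) (F P2 : Rb[X])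
    (hP : EM T.S.s (F ^ 2) = 1 - TC.PP * P2) :
    Tendsto (fun n => 2 * (∫ z, φ z * ER F (hh lam) u g n z ^ 2) -
      2 * ((∫ z, φ z) * WI (F.map (evn n)) (sg lam mu n)) -
      ((∫ z, φ z * (u n z ^ 2 * g n z ^ 2)) - ∫ z, φ z) +
      ∫ z, φ z * (PF TC.PP (hh lam n) (u n) z * PF ((Rs T.S.s P2).map (evn n)) (hh mu n) (g n) z))
      atTop (𝓝 0) := by
  have key := spec2 T.S hφ F P2 hP
  have k2 := (Complex.continuous_re.tendsto _).comp key
  rw [Complex.zero_re] at k2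
  refine k2.congr fun n => ?_
  have a1 : ∫ z, (φ z : ℂ) * (Eo (hh lam) F (WW lam u) (WW mu g) n z *
        Eo (hh lam) F (WW lam u) (WW mu g) n z) =
      ((∫ z, φ z * ER F (hh lam) u g n z ^ 2 : ℝ) : ℂ) := by
    rw [← integral_complex_ofReal]
    congr 1; funext z
    by_cases hz : z ∈ Ω
    · rw [Eo_re T.D T.D' _ _ n hz]
      push_cast; ring
    · rw [TF.zero hφ hz]; simp
  have a2 : ∫ z, (φ z : ℂ) * (Eo (hh lam) TC.PP (WW lam u) (WW lam u) n z *
        Eo (hh mu) (Rs T.S.s P2) (WW mu g) (WW mu g) n z) =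
      ((∫ z, φ z * (PF TC.PP (hh lam n) (u n) z * PF ((Rs T.S.s P2).map (evn n)) (hh mu n) (g n) z) :
        ℝ) : ℂ) := by
    rw [← integral_complex_ofReal]
    congr 1; funext z
    by_cases hz : z ∈ Ω
    · rw [Eo_re T.D T.D _ _ n hz, Eo_re T.D' T.D' _ _ n hz, ER_sq, ER_sq, PP_map]
      push_cast
      rfl
    · rw [TF.zero hφ hz]; simp
  have a3 : ∫ z, (φ z : ℂ) * (WW lam u 0 n z * WW lam u 0 n z * (WW mu g 0 n z * WW mu g 0 n z)) =
      ((∫ z, φ z * (u n z ^ 2 * g n z ^ 2) : ℝ) : ℂ) := by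
    rw [← integral_complex_ofReal]
    congr 1; funext z
    show (φ z : ℂ) * ((u n z : ℂ) * (u n z : ℂ) * ((g n z : ℂ) * (g n z : ℂ))) = _
    push_cast; ring
  simp only [Function.comp_def]
  rw [a1, a2, a3, T.sn n, ← Complex.ofReal_mul, show (2 : ℂ) = ((2 : ℝ) : ℂ) by norm_num,
    ← Complex.ofReal_mul, ← Complex.ofReal_mul, ← Complex.ofReal_sub, ← Complex.ofReal_sub,
    ← Complex.ofReal_sub, ← Complex.ofReal_add, Complex.ofReal_re]

end

end Pool.Agent.Run7.h9.JF
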