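import Pool.Agent.Run7.h9.JF.Ab

/-! The joint power spectrum with a general polynomial, and a factor moved to the first function. -/
set_option autoImplicit false
open MeasureTheory Filter Topology Complex Set
open scoped ContDiff Real Manifold

namespace Pool.Agent.Run7.h9.JF

open Pool.Agent.W745.RW Pool.Agent.TH294.RS Pool.Agent.Y265.HY Pool.Agent.Y265.HY.PS
open Pool.Agent.Y265.HY.JC Pool.Agent.R314.JN AddMonoidAlgebra Pool.Agent.Run7.h9.TC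

noncomputable section

section alg

variable {R : Type*} [CommRing R] {V : Type*} [AddCommGroup V] [Module R V]
variable {s : R} {D : ℤ → ℤ → ℤ → ℤ → V}

open Polynomial in
theorem main_alg3 (h : Rel s D) (F H P2 P3 : R[X])
    (hP : EM s (F ^ 2) = 1 - TC.PP * H * P2 - TC.PP * P3) :
    (2 : R) • LL (Du D) (Polynomial.aeval (e1 s) F * Polynomial.aeval (e2 s) F) =
    LL (Du D) (1 : AddMonoidAlgebra R Ga) -
      LL (Du D) (Polynomial.aeval TC.eX (TC.PP * H : R[X]) * Polynomial.aeval (eY s) P2) -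
      LL (Du D) (Polynomial.aeval TC.eX (TC.PP : R[X]) * Polynomial.aeval (eY s) P3) := by
  have qXY : ∀ M : R[X], pr D (Polynomial.aeval (TC.eX : AddMonoidAlgebra R Ga) M) =
      pr D (Polynomial.aeval (eY s) M) := by
    intro M
    rw [Polynomial.aeval_def, Polynomial.aeval_def, Polynomial.hom_eval₂, Polynomial.hom_eval₂,
      pXY h]
  have k := main_alg2 h F (H * P2 + P3) (by rw [hP]; ring)
  rw [k, sub_sub, ← map_add]
  congr 1
  refine LL_pr ?_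
  simp only [map_add, map_mul, qXY P2, qXY P3, ← qXY H]
  ring

end alg

open Polynomial in
theorem main_seq3 {s : Rb} {D : ℤ → ℤ → ℤ → ℤ → ℕ → ℂ} (h : RelS s D) (F H P2 P3 : Rb[X])
    (hP : EM s (F ^ 2) = 1 - TC.PP * H * P2 - TC.PP * P3) :
    Tendsto (fun n => 2 * LL (Du D) (Polynomial.aeval (e1 s) F * Polynomial.aeval (e2 s) F) n -
      (LL (Du D) (1 : AddMonoidAlgebra Rb Ga) n -
      LL (Du D) (Polynomial.aeval TC.eX (TC.PP * H : Rb[X]) * Polynomial.aeval (eY s) P2) n -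
      LL (Du D) (Polynomial.aeval TC.eX (TC.PP : Rb[X]) * Polynomial.aeval (eY s) P3) n)) atTop
      (𝓝 0) := by
  have k := main_alg3 h.rel F H P2 P3 hP
  have e : ∀ P, LL (Du (fun a b c d => nul.mkQ (D a b c d))) P = nul.mkQ (LL (Du D) P) := fun P =>
    LL_comp nul.mkQ (Du D) P
  rw [e, e, e, e, ← map_smul, ← map_sub, ← map_sub, ← sub_eq_zero, ← map_sub] at k
  have k2 := (Submodule.Quotient.mk_eq_zero _).1 k
  refine (mem_nul.1 k2).congr fun n => ?_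
  have e : ((2 : Rb) : ℕ → ℝ) n = 2 := rfl
  simp only [Pi.sub_apply, smul_seq]
  rw [e]; norm_num

variable {B : Set ℂ} {h κ : ℕ → ℝ} {w v : ℤ → ℕ → ℂ → ℂ} {C0 : ℝ}

open Polynomial in
theorem spec3 (S : Sys2 B h κ w v C0) {φ : ℂ → ℝ} (hφ : TF B φ) (F H P2 P3 : Rb[X])
    (hP : EM S.s (F ^ 2) = 1 - TC.PP * H * P2 - TC.PP * P3) :
    Tendsto (fun n => 2 * (∫ z, (φ z : ℂ) * (Eo h F w v n z * Eo h F w v n z)) -
      2 * (((∫ z, φ z : ℝ) : ℂ) * ((WI (F.map (evn n)) (S.s.1 n) : ℝ) : ℂ)) -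
      ((∫ z, (φ z : ℂ) * (w 0 n z * w 0 n z * (v 0 n z * v 0 n z))) - ((∫ z, φ z : ℝ) : ℂ)) +
      (∫ z, (φ z : ℂ) * (Eo h (TC.PP * H) w w n z * Eo κ (Rs S.s P2) v v n z)) +
      ∫ z, (φ z : ℂ) * (Eo h TC.PP w w n z * Eo κ (Rs S.s P3) v v n z)) atTop (𝓝 0) := by
  have i1 := (int_mixed S hφ (good_Eo S F) (good_Eo S F)).const_mul 2
  have g1 := good_Eo S.diag TC.PP
  have g1' := good_Eo S.diag (TC.PP * H)
  have g2 := good_Eo S.symm.diag (Rs S.s P2)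
  have g3 := good_Eo S.symm.diag (Rs S.s P3)
  rw [diag_s S] at g1 g1'
  rw [diag_s S.symm] at g2 g3
  have i2 := int_sq S hφ g1' g2
  have i2' := int_sq S hφ g1 g3
  have i3 := main_seq3 (DN_rel S hφ) F H P2 P3 hP
  have o1 : ∀ n, LL (Du (JN w v φ)) (1 : AddMonoidAlgebra Rb Ga) n =
      ∫ z, (φ z : ℂ) * (w 0 n z * w 0 n z * (v 0 n z * v 0 n z)) := by
    intro n
    rw [one_mn, LL_mn]
    rfl
  have o2 : ∀ n, LL (Du Wk) (1 : AddMonoidAlgebra Rb Ga) n = 1 := by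
    intro n
    rw [one_mn, LL_mn]
    show Pool.Agent.W745.RW.CC 0 0 * Pool.Agent.W745.RW.CC 0 0 = 1
    unfold Pool.Agent.W745.RW.CC
    simp
  have o3 : ∀ Z : AddMonoidAlgebra Rb Ga, LL (Du Wk) (Polynomial.aeval TC.eX
      (TC.PP * H : Polynomial Rb) * Z) = 0 := by
    intro Z
    rw [map_mul (Polynomial.aeval TC.eX), mul_assoc]
    exact wk_PP _
  simp only [LL_DN, wick_eval, wk_PP, o1, o2, o3] at i3
  rw [← aeval_map, ← aeval_map, ixu_rr, iyw_rr] at i1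
  rw [← aeval_map, ixy_rr, Rs_aeval] at i2 i2'
  have k := ((i1.add i2).add i2').add i3
  rw [mul_zero, add_zero, add_zero, add_zero] at k
  refine k.congr fun n => ?_
  simp only [Pi.zero_apply, mul_zero, sub_zero]
  ring

variable {Ω : Set ℂ} {lam mu nu : ℕ → ℝ} {u g k : ℕ → ℂ → ℝ} {C : ℝ}

open Polynomial in
theorem spec3_re (T : T3 Ω lam mu nu u g k C) {φ : ℂ → ℝ} (hφ : TF Ω φ) (H : ℝ[X])
    (F P2 P3 : Rb[X]) (hP : EM T.S.s (F ^ 2) = 1 - TC.PP * H.map cst * P2 - TC.PP * P3) :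
    Tendsto (fun n => 2 * (∫ z, φ z * ER F (hh lam) u g n z ^ 2) -
      2 * ((∫ z, φ z) * WI (F.map (evn n)) (sg lam mu n)) -
      ((∫ z, φ z * (u n z ^ 2 * g n z ^ 2)) - ∫ z, φ z) +
      (∫ z, φ z * (PF (TC.PP * H) (hh lam n) (u n) z *
        PF ((Rs T.S.s P2).map (evn n)) (hh mu n) (g n) z)) +
      ∫ z, φ z * (PF TC.PP (hh lam n) (u n) z * PF ((Rs T.S.s P3).map (evn n)) (hh mu n) (g n) z))
      atTop (𝓝 0) := by
  have key := spec3 T.S hφ F (H.map cst) P2 P3 hP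
  have k2 := (Complex.continuous_re.tendsto _).comp key
  rw [Complex.zero_re] at k2
  refine k2.congr fun n => ?_
  have a1 : ∫ z, (φ z : ℂ) * (Eo (hh lam) F (WW lam u) (WW mu g) n z *
        Eo (hh lam) F (WW lam u) (WW mu g) n z) =
      ((∫ z, φ z * ER F (hh lam) u g n z ^ 2 : ℝ) : ℂ) := by
    rw [← integral_complex_ofReal]
    congr 1; funext z
    by_cases hz : z ∈ Ω
    · rw [Eo_re T.D T.D' _ _ n hz]
      push_cast; ring
    · rw [TF.zero hφ hz]; simp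
  have a2 : ∀ Q P : Rb[X], ∫ z, (φ z : ℂ) * (Eo (hh lam) Q (WW lam u) (WW lam u) n z *
        Eo (hh mu) (Rs T.S.s P) (WW mu g) (WW mu g) n z) =
      ((∫ z, φ z * (PF (Q.map (evn n)) (hh lam n) (u n) z *
        PF ((Rs T.S.s P).map (evn n)) (hh mu n) (g n) z) : ℝ) : ℂ) := by
    intro Q P
    rw [← integral_complex_ofReal]
    congr 1; funext z
    by_cases hz : z ∈ Ω
    · rw [Eo_re T.D T.D _ _ n hz, Eo_re T.D' T.D' _ _ n hz, ER_sq, ER_sq]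
      push_cast
      rfl
    · rw [TF.zero hφ hz]; simp
  have a3 : ∫ z, (φ z : ℂ) * (WW lam u 0 n z * WW lam u 0 n z * (WW mu g 0 n z * WW mu g 0 n z)) =
      ((∫ z, φ z * (u n z ^ 2 * g n z ^ 2) : ℝ) : ℂ) := by
    rw [← integral_complex_ofReal]
    congr 1; funext z
    show (φ z : ℂ) * ((u n z : ℂ) * (u n z : ℂ) * ((g n z : ℂ) * (g n z : ℂ))) = _
    push_cast; ring
  simp only [Function.comp_def]
  rw [a1, a2, a2, a3, T.sn n, Polynomial.map_mul, PP_map, cst_map, ← Complex.ofReal_mul,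
    show (2 : ℂ) = ((2 : ℝ) : ℂ) by norm_num,
    ← Complex.ofReal_mul, ← Complex.ofReal_mul, ← Complex.ofReal_sub, ← Complex.ofReal_sub,
    ← Complex.ofReal_sub, ← Complex.ofReal_add, ← Complex.ofReal_add, Complex.ofReal_re]

open Polynomial in
theorem fb3 (T : T3 Ω lam mu nu u g k C) {φ : ℂ → ℝ} (hφ : TF Ω φ) (h0 : ∀ z, 0 ≤ φ z)
    (H : ℝ[X]) (F P2 P3 : Rb[X])
    (hP : EM T.S.s (F ^ 2) = 1 - TC.PP * H.map cst * P2 - TC.PP * P3)
    (z0 : ∀ n, ((Rs T.S.s P2).map (evn n)).eval 0 = 0)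
    (z4 : ∀ n, ((Rs T.S.s P2).map (evn n)).eval 4 = 0)
    (w0 : ∀ n, ((Rs T.S.s P3).map (evn n)).eval 0 = 0)
    (w4 : ∀ n, ((Rs T.S.s P3).map (evn n)).eval 4 = 0) {A β δ : ℝ} (hβ0 : 0 ≤ β) (hδ0 : 0 ≤ δ)
    (hA : ∀ᶠ n in atTop, WI (F.map (evn n)) (sg lam mu n) ≤ A)
    (hβ : ∀ᶠ n in atTop, gI ((Rs T.S.s P2).map (evn n)) ≤ β ^ 2)
    (hδ : ∀ᶠ n in atTop, gI ((Rs T.S.s P3).map (evn n)) ≤ δ ^ 2) {ε : ℝ} (hε : 0 < ε) :
    ∀ᶠ n in atTop, (1 - 2 * A - √(gI (TC.PP * H)) * β - √(gI TC.PP) * δ) * (∫ z, φ z) - ε ≤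
      ∫ z, φ z * (u n z ^ 2 * g n z ^ 2) := by
  obtain ⟨I0, hI⟩ : ∃ I0, I0 = ∫ z, φ z := ⟨_, rfl⟩
  have I0n : 0 ≤ I0 := by rw [hI]; exact integral_nonneg h0
  -- one correlation
  have cor : ∀ (K : ℝ[X]) (P : Rb[X]), K.eval 0 = 0 → K.eval 4 = 0 →
      (∀ n, ((Rs T.S.s P).map (evn n)).eval 0 = 0) →
      (∀ n, ((Rs T.S.s P).map (evn n)).eval 4 = 0) → ∀ γ : ℝ, 0 ≤ γ →
      (∀ᶠ n in atTop, gI ((Rs T.S.s P).map (evn n)) ≤ γ ^ 2) → ∀ᶠ n in atTop,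
      -(∫ z, φ z * (PF K (hh lam n) (u n) z *
        PF ((Rs T.S.s P).map (evn n)) (hh mu n) (g n) z)) ≤ √(gI K) * γ * I0 + ε / 4 := by
    intro K P K0 K4 y0 y4 γ γ0 hγ
    obtain ⟨X, hX⟩ : ∃ X : ℕ → ℝ, ∀ n, X n = ∫ z, φ z * PF K (hh lam n) (u n) z ^ 2 :=
      ⟨_, fun _ => rfl⟩
    obtain ⟨Q, hQ⟩ : ∃ Q : ℕ → Polynomial ℝ, ∀ n, Q n = (Rs T.S.s P).map (evn n) :=
      ⟨_, fun _ => rfl⟩
    obtain ⟨Y, hY⟩ : ∃ Y : ℕ → ℝ, ∀ n, Y n =
      ∫ z, φ z * PF (Q n) (hh mu n) (g n) z ^ 2 := ⟨_, fun _ => rfl⟩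
    have x1 : Tendsto X atTop (𝓝 (gI K * I0)) := by
      have := T.D.f1 hφ K
      rw [K0, K4] at this
      simp only [← hI, ← hX] at this
      simpa using this
    have y1 : Tendsto (fun n => Y n - gI (Q n) * I0) atTop (𝓝 0) := by
      have k1 := f1R T.D' hφ (Rs T.S.s P) y0 y4
      simp only [← hI, ← hQ, ← hY] at k1
      exact k1
    have q1 : Tendsto (fun n => √(X n) * √(γ ^ 2 * I0 + |Y n - gI (Q n) * I0|)) atTop
        (𝓝 (√(gI K) * γ * I0)) := by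
      have k1 := x1.sqrt.mul ((y1.abs.const_add (γ ^ 2 * I0)).sqrt)
      have e : √(gI K * I0) * √(γ ^ 2 * I0 + |0|) = √(gI K) * γ * I0 := by
        rw [abs_zero, add_zero, Real.sqrt_mul (gI_nonneg _), Real.sqrt_mul (sq_nonneg _),
          Real.sqrt_sq γ0]
        have := Real.mul_self_sqrt I0n
        linear_combination (√(gI K) * γ) * this
      rw [e] at k1
      exact k1
    have q2 := q1.eventually (gt_mem_nhds (show √(gI K) * γ * I0 <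
      √(gI K) * γ * I0 + ε / 4 by linarith))
    filter_upwards [q2, hγ] with n n2 nγ
    rw [← hQ] at nγ ⊢
    have X0 : 0 ≤ X n := by
      rw [hX]; exact integral_nonneg fun z => mul_nonneg (h0 z) (sq_nonneg _)
    have cs1 := cs T.D.op hφ h0 (T.D.PFc K n) (T.D'.PFc (Q n) n)
    rw [← hX, ← hY] at cs1
    have Yle : Y n ≤ γ ^ 2 * I0 + |Y n - gI (Q n) * I0| := by
      have h1 := le_abs_self (Y n - gI (Q n) * I0)
      have h2 : gI (Q n) * I0 ≤ γ ^ 2 * I0 := mul_le_mul_of_nonneg_right nγ I0n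
      linarith
    have h2 := Real.abs_le_sqrt cs1
    rw [Real.sqrt_mul X0] at h2
    have h3 : √(Y n) ≤ √(γ ^ 2 * I0 + |Y n - gI (Q n) * I0|) := Real.sqrt_le_sqrt Yle
    calc _ ≤ |∫ z, φ z * (PF K (hh lam n) (u n) z * PF (Q n) (hh mu n) (g n) z)| := neg_le_abs _
      _ ≤ √(X n) * √(Y n) := h2
      _ ≤ √(X n) * √(γ ^ 2 * I0 + |Y n - gI (Q n) * I0|) :=
          mul_le_mul_of_nonneg_left h3 (Real.sqrt_nonneg _)
      _ ≤ _ := n2.le
  have e0 : (TC.PP * H : ℝ[X]).eval 0 = 0 := by rw [Polynomial.eval_mul, TC.PP0, zero_mul]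
  have e4 : (TC.PP * H : ℝ[X]).eval 4 = 0 := by rw [Polynomial.eval_mul, TC.PP4, zero_mul]
  have c1 := cor (TC.PP * H) P2 e0 e4 z0 z4 β hβ0 hβ
  have c2 := cor TC.PP P3 TC.PP0 TC.PP4 w0 w4 δ hδ0 hδ
  have sp := spec3_re T hφ H F P2 P3 hP
  simp only [← hI] at sp
  have q3 := sp.eventually (gt_mem_nhds (show (0 : ℝ) < ε / 2 by linarith))
  rw [← hI]
  filter_upwards [c1, c2, q3, hA] with n n1 n2 n3 nA
  have Z0 : 0 ≤ ∫ z, φ z * ER F (hh lam) u g n z ^ 2 :=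
    integral_nonneg fun z => mul_nonneg (h0 z) (sq_nonneg _)
  have h4 : I0 * WI (F.map (evn n)) (sg lam mu n) ≤ I0 * A := mul_le_mul_of_nonneg_left nA I0n
  nlinarith

end

end Pool.Agent.Run7.h9.JF
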